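import Mathlib
import Pool.Agent.H451.BB.Cnt
import Pool.Graph.R_seed8.Y145.DW.HD

/-!
# The subfields of an algebraically closed field of positive characteristic
-/

set_option autoImplicit false
set_option linter.unusedSectionVars false

namespace Pool.Agent.H508.Q

open scoped Classical

section ext

variable (k : Type) [Field k] [Fintype k] (Ω : Type) [Field Ω] [Algebra k Ω] [IsAlgClosed Ω]

/-- the subfield with `Q ^ f` elements -/
theorem exists_sub (f : ℕ) (hf : 0 < f) : ∃ E : IntermediateField k Ω, Finite E ∧
    Module.finrank k E = f ∧ ∀ x : Ω, x ∈ E ↔ x ^ (Fintype.card k ^ f) = x := by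
  obtain ⟨n, hp, hn⟩ := FiniteField.card k (ringChar k)
  set p := ringChar k with hpd
  have hpf : Fact p.Prime := ⟨hp⟩
  have hcp : CharP Ω p := charP_of_injective_algebraMap (algebraMap k Ω).injective p
  set q := Fintype.card k ^ f with hq
  have hqp : q = p ^ ((n : ℕ) * f) := by rw [hq, hn, pow_mul]
  have hq1 : 1 < q := Nat.one_lt_pow hf.ne' Fintype.one_lt_card
  have hadd : ∀ x y : Ω, (x + y) ^ q = x ^ q + y ^ q := fun x y => by
    rw [hqp, add_pow_char_pow]
  have hq0 : q ≠ 0 := by omega
  let S : Subalgebra k Ω :=
    { carrier := {x | x ^ q = x}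
      mul_mem' := fun {a b} ha hb => by
        show (a * b) ^ q = a * b
        rw [mul_pow, show a ^ q = a from ha, show b ^ q = b from hb]
      add_mem' := fun {a b} ha hb => by
        show (a + b) ^ q = a + b
        rw [hadd, show a ^ q = a from ha, show b ^ q = b from hb]
      algebraMap_mem' := fun r => by
        show (algebraMap k Ω r) ^ q = algebraMap k Ω r
        rw [← map_pow]
        congr 1
        have h : ∀ m : ℕ, r ^ Fintype.card k ^ m = r := fun m => by
          induction m with
          | zero => rw [pow_zero, pow_one]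
          | succ m ih => rw [pow_succ, pow_mul, ih, FiniteField.pow_card]
        exact h f }
  let E : IntermediateField k Ω := S.toIntermediateField fun x hx => by
    show (x⁻¹) ^ q = x⁻¹
    rw [inv_pow, show x ^ q = x from hx]
  have hmem : ∀ x : Ω, x ∈ E ↔ x ^ q = x := fun x => Iff.rfl
  -- the number of elements
  have hsep : (Polynomial.X ^ q - Polynomial.X : Polynomial Ω).Separable :=
    galois_poly_separable p q (by rw [hqp]; exact dvd_pow_self p (Nat.mul_ne_zero n.2.ne' hf.ne'))
  have hne : (Polynomial.X ^ q - Polynomial.X : Polynomial Ω) ≠ 0 :=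
    FiniteField.X_pow_card_sub_X_ne_zero Ω hq1
  have hdeg : (Polynomial.X ^ q - Polynomial.X : Polynomial Ω).natDegree = q :=
    FiniteField.X_pow_card_sub_X_natDegree_eq Ω hq1
  have hcard : Fintype.card ((Polynomial.X ^ q - Polynomial.X : Polynomial Ω).rootSet Ω) = q := by
    rw [Polynomial.card_rootSet_eq_natDegree hsep (IsAlgClosed.splits _), hdeg]
  have heq : ((E : Set Ω)) = (Polynomial.X ^ q - Polynomial.X : Polynomial Ω).rootSet Ω := by
    ext x
    rw [Polynomial.mem_rootSet_of_ne hne]
    simp only [map_sub, map_pow, Polynomial.aeval_X, sub_eq_zero]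
    exact hmem x
  have hfin : (E : Set Ω).Finite := by
    rw [heq]
    exact Polynomial.rootSet_finite _ _
  have hFE : Finite E := hfin.to_subtype
  let _ : Fintype E := Fintype.ofFinite E
  have hcE : Fintype.card E = q := by
    rw [← Nat.card_eq_fintype_card, ← hcard, ← Nat.card_eq_fintype_card]
    exact Nat.card_congr (Equiv.setCongr heq)
  refine ⟨E, hFE, ?_, hmem⟩
  have h1 := Module.card_eq_pow_finrank (K := k) (V := E)
  rw [hcE, hq] at h1
  exact (Nat.pow_right_injective (Fintype.one_lt_card (α := k)) h1).symm

end ext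

section tr

variable {k : Type} [Field k] [Fintype k] {Ω : Type} [Field Ω] [Algebra k Ω]

/-- the trace -/
lemma trace_sum (E : IntermediateField k Ω) [Finite E] {f : ℕ} (hf : Module.finrank k E = f)
    (u : E) : algebraMap k Ω (Algebra.trace k E u) =
      ∑ j ∈ Finset.range f, (u : Ω) ^ (Fintype.card k ^ j) := by
  have h1 := FiniteField.algebraMap_trace_eq_sum_pow k E u
  have h2 := congrArg (algebraMap E Ω) h1
  rw [← IsScalarTower.algebraMap_apply, map_sum] at h2
  rw [h2, hf, Nat.card_eq_fintype_card]
  rfl

/-- the norm -/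
lemma norm_prod (E : IntermediateField k Ω) [Finite E] {f : ℕ} (hf : Module.finrank k E = f)
    (u : E) : algebraMap k Ω (Algebra.norm k u) =
      ∏ j ∈ Finset.range f, (u : Ω) ^ (Fintype.card k ^ j) := by
  have h1 := FiniteField.algebraMap_norm_eq_prod_pow k E u
  have h2 := congrArg (algebraMap E Ω) h1
  rw [← IsScalarTower.algebraMap_apply, map_prod] at h2
  rw [h2, hf, Nat.card_eq_fintype_card]
  rfl

end tr

end Pool.Agent.H508.Q
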