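import Pool.Agent.H508.Q.A9
import Pool.Graph.R_pool_sql_team_seeded_35f281b4.K7.H65.FP.D

/-!
# The cocycle of a form of the Fermat cubic
-/

set_option autoImplicit false
set_option linter.unusedSectionVars false

open NumberField IsDedekindDomain

namespace Pool.Agent.H508.Q

open Pool.Agent.Y692.QS (z_ne z_cube root_cases)
open Pool.Agent.K7.H65.FP (Semi fx fx_one fx_mul z_case)
open scoped Classical Matrix

section pw
variable {A : Type} [Field A] {z : A} (hz : z * z = -1 - z) (h3 : (3 : A) ≠ 0)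

include hz in
lemma pow_red (a : ℕ) : z ^ a = z ^ (a % 3) := by
  conv_lhs => rw [← Nat.div_add_mod a 3]
  rw [pow_add, pow_mul, z_cube hz, one_pow, one_mul]

include hz h3 in
lemma pow_inj3 {a b : ℕ} (h : z ^ a = z ^ b) : a % 3 = b % 3 := by
  obtain ⟨n1, n2, n3⟩ := z_ne hz h3
  rw [pow_red hz a, pow_red hz b] at h
  have ha : a % 3 = 0 ∨ a % 3 = 1 ∨ a % 3 = 2 := by omega
  have hb : b % 3 = 0 ∨ b % 3 = 1 ∨ b % 3 = 2 := by omega
  rcases ha with ha | ha | ha <;> rcases hb with hb | hb | hb <;> rw [ha, hb] at h ⊢ <;>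
    first | rfl | (exfalso; rw [pow_zero, pow_one] at h; first | exact n1 h | exact n1 h.symm) |
      (exfalso; rw [pow_zero] at h; first | exact n2 h | exact n2 h.symm) |
      (exfalso; rw [pow_one] at h; first | exact n3 h | exact n3 h.symm)

end pw

section form
variable {K F : Type} [Field K] [NumberField K] [Field F] [NumberField F] [Algebra K F]
  {z : 𝓞 F} {m : ℕ}

/-- the sum of the cubes of the linear forms -/
noncomputable def cub {R : Type} [CommRing R] (B : Matrix (Fin m) (Fin m) R) :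
    MvPolynomial (Fin m) R :=
  ∑ i, (∑ j, MvPolynomial.C (B i j) * MvPolynomial.X j) ^ 3

lemma cub_map {R S : Type} [CommRing R] [CommRing S] (g : R →+* S)
    (B : Matrix (Fin m) (Fin m) R) : MvPolynomial.map g (cub B) = cub (B.map g) := by
  unfold cub
  rw [map_sum]
  refine Finset.sum_congr rfl fun i _ => ?_
  rw [map_pow, map_sum]
  congr 1
  refine Finset.sum_congr rfl fun j _ => ?_
  rw [map_mul, MvPolynomial.map_C, MvPolynomial.map_X]
  rfl

lemma cub_eval {R : Type} [CommRing R] (B : Matrix (Fin m) (Fin m) R) (x : Fin m → R) :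
    MvPolynomial.eval x (cub B) = ∑ i, (B *ᵥ x) i ^ 3 := by
  unfold cub
  rw [map_sum]
  refine Finset.sum_congr rfl fun i _ => ?_
  rw [map_pow, map_sum]
  congr 1
  refine Finset.sum_congr rfl fun j _ => ?_
  rw [map_mul, MvPolynomial.eval_C, MvPolynomial.eval_X]

lemma coe_z (hz : z * z = -1 - z) : (z : F) * z = -1 - z := by
  have := congrArg (fun t : 𝓞 F => (t : F)) hz
  simpa using this

/-- the conjugates of the linear forms -/
lemma form_mono (hz : z * z = -1 - z) {f : MvPolynomial (Fin m) (𝓞 K)}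
    {B : Matrix (Fin m) (Fin m) F} (hB : B.det ≠ 0)
    (hf : MvPolynomial.map (algebraMap (𝓞 K) F) f = cub B) (σ : Gal(F/K)) :
    ∃ (p : Equiv.Perm (Fin m)) (ν : Fin m → ℕ), ∀ i j, σ (B i j) = (z : F) ^ ν i * B (p i) j := by
  have h1 : cub (B.map (σ : F →+* F)) = cub B := by
    have h0 : (σ : F →+* F).comp (algebraMap (𝓞 K) F) = algebraMap (𝓞 K) F := by
      apply RingHom.ext
      intro x
      show σ (algebraMap (𝓞 K) F x) = algebraMap (𝓞 K) F x
      rw [IsScalarTower.algebraMap_apply (𝓞 K) K F]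
      exact σ.commutes _
    rw [← cub_map, ← hf, MvPolynomial.map_map, h0]
  have hA : (B.map (σ : F →+* F)).det ≠ 0 := by
    have h2 := RingHom.map_det (σ : F →+* F) B
    rw [RingHom.mapMatrix_apply] at h2
    rw [← h2]
    exact (map_ne_zero _).2 hB
  obtain ⟨p, ν, h2⟩ := monomial (coe_z hz) hA hB fun x => by
    rw [← cub_eval, ← cub_eval, h1]
  exact ⟨p, ν, h2⟩

/-- **The cocycle of a form.** -/
theorem form_mon (hz : z * z = -1 - z) {f : MvPolynomial (Fin m) (𝓞 K)}
    {B : Matrix (Fin m) (Fin m) F} (hB : B.det ≠ 0)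
    (hf : MvPolynomial.map (algebraMap (𝓞 K) F) f = cub B) :
    ∃ (p : Gal(F/K) → Equiv.Perm (Fin m)) (ν : Gal(F/K) → Fin m → ℕ), Mon (fx z) p ν ∧
      ∀ σ i j, σ (B i j) = (z : F) ^ ν σ i * B (p σ i) j := by
  choose p ν hp using fun σ => form_mono (K := K) hz hB hf σ
  have hzF := coe_z hz
  have h3F : (3 : F) ≠ 0 := by norm_num
  have hz0 : (z : F) ≠ 0 := by
    intro h
    rw [h] at hzF
    simp at hzF
  have hpz : ∀ n : ℕ, (z : F) ^ n ≠ 0 := fun n => pow_ne_zero _ hz0
  have hσz : ∀ (σ : Gal(F/K)) (n : ℕ), σ ((z : F) ^ n) =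
      (z : F) ^ (if fx z σ then n else 2 * n) := by
    intro σ n
    rw [map_pow]
    by_cases h : fx z σ
    · rw [if_pos h]
      have h1 : σ (z : F) = z := congrArg (fun t : 𝓞 F => (t : F)) h
      rw [h1]
    · rw [if_neg h]
      have h1 : σ (z : F) = (z : F) ^ 2 := by
        have h2 := congrArg (fun t : 𝓞 F => (t : F)) ((z_case hz σ).resolve_left h)
        have h4 : σ (z : F) = -1 - (z : F) := h2.trans (by push_cast; rfl)
        rw [h4, sq, hzF]
      rw [h1, ← pow_mul]
  refine ⟨p, ν, ⟨fx_one, fx_mul hz, ?_, ?_, ?_, ?_⟩, hp⟩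
  · apply Equiv.ext
    intro i
    have h1 : ∀ j, (z : F) ^ ν 1 i * B (p 1 i) j = 1 * B i j := by
      intro j
      rw [← hp 1 i j, one_mul]
      rfl
    exact (rows hB (hpz _) h1).1
  · intro σ τ
    apply Equiv.ext
    intro i
    have h1 : ∀ j, (z : F) ^ ν (σ * τ) i * B (p (σ * τ) i) j =
        ((z : F) ^ (if fx z σ then ν τ i else 2 * ν τ i) * (z : F) ^ ν σ (p τ i)) *
          B (p σ (p τ i)) j := by
      intro j
      rw [← hp (σ * τ) i j]
      show σ (τ (B i j)) = _
      rw [hp τ, map_mul, hσz, hp σ, mul_assoc]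
    exact (rows hB (hpz _) h1).1
  · intro i
    have h1 : ∀ j, (z : F) ^ ν 1 i * B (p 1 i) j = (z : F) ^ 0 * B i j := by
      intro j
      rw [← hp 1 i j, pow_zero, one_mul]
      rfl
    exact pow_inj3 hzF h3F (rows hB (hpz _) h1).2
  · intro σ τ i
    have h1 : ∀ j, (z : F) ^ ν (σ * τ) i * B (p (σ * τ) i) j =
        ((z : F) ^ (if fx z σ then ν τ i else 2 * ν τ i) * (z : F) ^ ν σ (p τ i)) *
          B (p σ (p τ i)) j := by
      intro j
      rw [← hp (σ * τ) i j]
      show σ (τ (B i j)) = _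
      rw [hp τ, map_mul, hσz, hp σ, mul_assoc]
    have h2 := (rows hB (hpz _) h1).2
    rw [← pow_add] at h2
    exact pow_inj3 hzF h3F h2

/-- the denominators -/
lemma exists_den (B : Matrix (Fin m) (Fin m) F) : ∃ (n : ℕ) (D : Matrix (Fin m) (Fin m) (𝓞 F)),
    n ≠ 0 ∧ ∀ i j, ((D i j : 𝓞 F) : F) = (n : F) * B i j := by
  have h1 : ∀ x : F, ∃ n : ℕ, n ≠ 0 ∧ IsIntegral ℤ ((n : F) * x) := by
    intro x
    obtain ⟨y, hy0, hy⟩ := ((IsFractionRing.isAlgebraic_iff ℤ ℚ F).2
      (Algebra.IsAlgebraic.isAlgebraic x)).exists_integral_multiple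
    refine ⟨y.natAbs, Int.natAbs_ne_zero.2 hy0, ?_⟩
    rw [Algebra.smul_def] at hy
    have h2 : ((y.natAbs : ℕ) : F) = algebraMap ℤ F y ∨
        ((y.natAbs : ℕ) : F) = - algebraMap ℤ F y := by
      rcases Int.natAbs_eq y with h | h
      · left
        conv_rhs => rw [h]
        simp
      · right
        conv_rhs => rw [h]
        simp
    rcases h2 with h | h
    · rw [h]
      exact hy
    · rw [h, neg_mul]
      exact hy.neg
  choose N hN0 hN using h1
  let n : ℕ := ∏ i, ∏ j, N (B i j)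
  have hdvd : ∀ i j, ∃ c : ℕ, n = c * N (B i j) := by
    intro i j
    have h2 : N (B i j) ∣ n :=
      (Finset.dvd_prod_of_mem (fun j => N (B i j)) (Finset.mem_univ j)).trans
        (Finset.dvd_prod_of_mem (fun i => ∏ j, N (B i j)) (Finset.mem_univ i))
    obtain ⟨c, hc⟩ := h2
    exact ⟨c, by rw [hc, mul_comm]⟩
  have hint : ∀ i j, IsIntegral ℤ ((n : F) * B i j) := by
    intro i j
    obtain ⟨c, hc⟩ := hdvd i j
    rw [hc]
    push_cast
    rw [mul_assoc]
    exact (isIntegral_algebraMap (R := ℤ) (x := (c : ℤ))).mul (hN _) |> fun h => by simpa using h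
  refine ⟨n, fun i j => ⟨(n : F) * B i j, hint i j⟩,
    Finset.prod_ne_zero_iff.2 fun i _ => Finset.prod_ne_zero_iff.2 fun j _ => hN0 _,
    fun i j => rfl⟩

end form

end Pool.Agent.H508.Q
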