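import Pool.Agent.H508.Q.A10
import Pool.Agent.H451.BB.Ec
import Pool.Agent.H508.S.B3

/-!
# The Jacobi sums over the extensions of the residue fields
-/

set_option autoImplicit false
set_option linter.unusedSectionVars false

open NumberField IsDedekindDomain

namespace Pool.Agent.H508.Q

open Pool.Agent.Y692.QS hiding chi Jc
open Pool.Agent.Y715.T.Cub
open Pool.Agent.H451.BB (X Y X_apply X_cube X_inv gauss_prod gauss_cube star_chi ec_count)
open Pool.Agent.Y145.KS (psi psi_apply psi_ne_one)
open Pool.Agent.K7.H65.FP (toC' toC'_apply)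
open scoped Classical

section ext
variable {κ k : Type} [Field κ] [Fintype κ] [Field k] [Fintype k] [Algebra κ k]
  {z : κ} (hz : z * z = -1 - z) (h3 : (3 : κ) ≠ 0)

lemma chi_norm (u : k) : chi (z_map (A := k) hz) (three_map h3) u =
    chi hz h3 (Algebra.norm κ u) := by
  have hFE : Module.Finite κ k := Module.Finite.of_finite
  by_cases hu : u = 0
  · rw [hu, MulChar.map_zero, Algebra.norm_zero, MulChar.map_zero]
  have hN : Algebra.norm κ u ≠ 0 := fun h => hu (Algebra.norm_eq_zero_iff.1 h)
  have hzz : algebraMap κ k z * algebraMap κ k z = -1 - algebraMap κ k z := z_map hz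
  have h3Ω : (3 : k) ≠ 0 := three_map h3
  refine hom_inj hzz h3Ω (chi_cube (z_map (A := k) hz) (three_map h3) hu)
    (chi_cube hz h3 hN) ?_
  have h0 := chi_red (z_map (A := k) hz) (three_map h3) u
  have h1 := chi_red hz h3 (Algebra.norm κ u)
  have h2 := congrArg (algebraMap κ k) h1
  rw [hom_apply, map_add, map_mul, map_intCast, map_intCast, map_pow,
    FiniteField.algebraMap_norm_eq_prod_pow, Finset.prod_pow_eq_pow_sum, ← pow_mul,
    Nat.card_eq_fintype_card] at h2
  refine h0.trans ?_
  rw [hom_apply, h2]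
  congr 1
  have hc : Fintype.card k = Fintype.card κ ^ Module.finrank κ k :=
    Module.card_eq_pow_finrank (K := κ) (V := k)
  obtain ⟨n, hn⟩ := card_mod hz h3
  have hg : (∑ i ∈ Finset.range (Module.finrank κ k), Fintype.card κ ^ i) *
      (Fintype.card κ - 1) = Fintype.card κ ^ Module.finrank κ k - 1 := by
    have h5 := Nat.geomSum_eq (m := Fintype.card κ) (by
      have := Fintype.one_lt_card (α := κ)
      omega) (Module.finrank κ k)
    rw [h5]
    exact Nat.div_mul_cancel (Nat.sub_one_dvd_pow_sub_one _ _)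
  rw [hc, ← hg, hn, Nat.mul_div_cancel_left _ (by norm_num)]
  rw [show (∑ i ∈ Finset.range (Module.finrank κ k), Fintype.card κ ^ i) * (3 * n) =
    3 * ((∑ i ∈ Finset.range (Module.finrank κ k), Fintype.card κ ^ i) * n) by ring,
    Nat.mul_div_cancel_left _ (by norm_num)]

/-- the Jacobi sum of the extension -/
theorem Jc_ext {r : ℕ} (hr : Module.finrank κ k = r) :
    -Jc (z_map (A := k) hz) (three_map h3) = (-Jc hz h3) ^ r := by
  have hFE : Module.Finite κ k := Module.Finite.of_finite
  have hr0 : 0 < r := by rw [← hr]; exact Module.finrank_pos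
  have hψ := AddChar.FiniteField.primitiveChar_to_Complex_isPrimitive κ
  set ψ := AddChar.FiniteField.primitiveChar_to_Complex κ
  have hψ1 : ψ ≠ 1 := by
    have h1 := hψ one_ne_zero
    rwa [AddChar.mulShift_one] at h1
  have hψk : (psi ψ k).IsPrimitive := AddChar.IsPrimitive.of_ne_one (psi_ne_one hψ1 k)
  have h1 := gauss_cube (z_map (A := k) hz) (three_map h3) hψk
  have h2 := gauss_cube hz h3 hψ
  have h4 : gaussSum (Y (z_map (A := k) hz) (three_map h3) true) (psi ψ k) =
      (-1) ^ (r - 1) * gaussSum (Y hz h3 true) ψ ^ r := by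
    have h5 := Pool.Agent.Y145.DW.hasse_davenport (E := k) (Y hz h3 true) hψ1
    rw [hr] at h5
    rw [← h5]
    refine Finset.sum_congr rfl fun u _ => ?_
    congr 1
    unfold Pool.Agent.H451.BB.Y
    rw [if_pos rfl, if_pos rfl, X_apply, X_apply, chi_norm]
  have hc : Fintype.card k = Fintype.card κ ^ r := by
    rw [Module.card_eq_pow_finrank (K := κ) (V := k), hr]
  have hq : (Fintype.card κ : ℂ) ≠ 0 := by exact_mod_cast Fintype.card_ne_zero
  rw [h4, mul_pow, ← pow_mul _ r 3, mul_comm r 3, pow_mul _ 3 r, h2, hc, mul_pow] at h1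
  push_cast at h1
  have h6 : toC (Jc (z_map (A := k) hz) (three_map h3)) =
      ((-1) ^ (r - 1)) ^ 3 * toC (Jc hz h3) ^ r := by
    apply mul_left_cancel₀ (pow_ne_zero r hq)
    rw [← h1]
    ring
  apply toC_inj
  rw [map_neg, map_pow, map_neg, h6]
  obtain ⟨r', rfl⟩ : ∃ r', r = r' + 1 := ⟨r - 1, by omega⟩
  rw [Nat.add_sub_cancel, neg_pow (toC (Jc hz h3)), ← pow_mul (-1 : ℂ), mul_comm r' 3,
    pow_mul (-1 : ℂ)]
  have h7 : ((-1 : ℂ) ^ 3) = -1 := by norm_num
  rw [h7, pow_succ (-1 : ℂ) r']
  ring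

end ext

section two
variable {k : Type} [Field k] [Fintype k] {z : k} (hz : z * z = -1 - z) (h3 : (3 : k) ≠ 0)

/-- the Jacobi sum over an extension of even degree of a field without cube roots of unity -/
theorem Jc_two {κ : Type} [Field κ] [Fintype κ] [Algebra κ k] {q t : ℕ}
    (hq : Fintype.card κ = q) (hq2 : q % 3 = 2) (ht : Fintype.card k = q ^ (2 * t)) :
    Jc hz h3 = -(-(q : Ei)) ^ t := by
  have hfr : ∀ x : k, FiniteField.frobeniusAlgHom κ k x = x ^ q := fun x => by
    rw [FiniteField.coe_frobeniusAlgHom, hq]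
  have hbij : Function.Bijective fun x : k => x ^ q := by
    have h1 : Function.Injective fun x : k => x ^ q := fun x y h => by
      have h2 : FiniteField.frobeniusAlgHom κ k x = FiniteField.frobeniusAlgHom κ k y := by
        rw [hfr, hfr]
        exact h
      exact (FiniteField.frobeniusAlgHom κ k).toRingHom.injective h2
    exact Finite.injective_iff_bijective.1 h1
  have hsub : ∀ x : k, (1 - x) ^ q = 1 - x ^ q := fun x => by
    rw [← hfr, map_sub, map_one, hfr]
  have hq0 : q ≠ 0 := by omega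
  have hchi : ∀ x : k, star (chi hz h3 x) = chi hz h3 (x ^ q) := by
    intro x
    rw [star_chi, map_pow]
    by_cases hx : x = 0
    · rw [hx, MulChar.map_zero, zero_pow two_ne_zero, zero_pow hq0]
    · have h1 := chi_cube hz h3 hx
      conv_rhs => rw [← Nat.div_add_mod q 3, hq2, pow_add, pow_mul, h1, one_pow, one_mul]
  have hreal : star (Jc hz h3) = Jc hz h3 := by
    unfold Pool.Agent.Y715.T.Cub.Jc jacobiSum
    rw [star_sum]
    conv_rhs => rw [← hbij.sum_comp fun x => chi hz h3 x * chi hz h3 (1 - x)]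
    refine Finset.sum_congr rfl fun x _ => ?_
    rw [star_mul', hchi, hchi, hsub]
  set J := Jc hz h3 with hJ
  have him : J.im = 0 := by
    have h1 := congrArg (fun x : Ei => x.im) hreal
    rw [star_im] at h1
    omega
  have hnr : nr J = (q : ℤ) ^ (2 * t) := by
    rw [hJ, Pool.Agent.Y715.T.Cub.Jc_nr, ht]
    push_cast
    rfl
  have h4 : (3 : Ei) ∣ J + 1 := Jc_mod hz h3
  have hJe : J = ((J.re : ℤ) : Ei) := by
    conv_lhs => rw [eta J]
    rw [him]
    simp
  have hsq : J.re ^ 2 = ((q : ℤ) ^ t) ^ 2 := by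
    rw [← pow_mul, mul_comm t 2, ← hnr]
    unfold nr
    rw [him]
    ring
  have hre3 : (3 : ℤ) ∣ J.re + 1 := by
    obtain ⟨c, hc⟩ := h4
    refine ⟨c.re, ?_⟩
    have h5 := congrArg (fun x : Ei => x.re) hc
    have h31 : (3 : Ei) = ⟨3, 0⟩ := rfl
    have h32 : QuadraticAlgebra.re (1 : Ei) = 1 := rfl
    rw [h31] at h5
    simpa [h32] using h5
  have hmod : ((-(q : ℤ)) ^ t - 1) % 3 = 0 := by
    have h5 : (3 : ℤ) ∣ -(q : ℤ) - 1 := by omega
    have h6 := h5.trans (sub_dvd_pow_sub_pow (-(q : ℤ)) 1 t)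
    rw [one_pow] at h6
    omega
  have hcase : J.re = (-(q : ℤ)) ^ t ∨ J.re = -(-(q : ℤ)) ^ t := by
    rcases sq_eq_sq_iff_eq_or_eq_neg.1 hsq with h | h
    · rcases neg_one_pow_eq_or ℤ t with h5 | h5
      · left
        rw [neg_pow, h5, one_mul, h]
      · right
        rw [neg_pow, h5, h]
        ring
    · rcases neg_one_pow_eq_or ℤ t with h5 | h5
      · right
        rw [neg_pow, h5, one_mul, h]
      · left
        rw [neg_pow, h5, h]
        ring
  have hfin : J.re = -(-(q : ℤ)) ^ t := by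
    rcases hcase with h | h
    · exfalso
      rw [← h] at hmod
      omega
    · exact h
  rw [hJe, hfin]
  push_cast
  ring

end two

end Pool.Agent.H508.Q
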