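import Pool.Agent.H508.Q.A12

/-!
# The numbers of points of a form over the extensions of the residue fields
-/

set_option autoImplicit false
set_option linter.unusedSectionVars false

open NumberField IsDedekindDomain

namespace Pool.Agent.H508.Q

open Pool.Agent.Y692.QS hiding chi Jc
open Pool.Agent.Y715.T.Cub
open Pool.Agent.K7.H65.FP (toC' toC'_apply fx)
open Pool.Agent.Y696 (nK)
open scoped Classical Matrix

section
variable {K F : Type} [Field K] [NumberField K] [Field F] [NumberField F] [Algebra K F]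
  {z : 𝓞 F} {m : ℕ}

/-- the data of a form -/
structure Form (z : 𝓞 F) (f : MvPolynomial (Fin m) (𝓞 K)) (n : ℕ)
    (D : Matrix (Fin m) (Fin m) (𝓞 F)) (p : Gal(F/K) → Equiv.Perm (Fin m))
    (ν : Gal(F/K) → Fin m → ℕ) : Prop where
  mon : Mon (fx z) p ν
  rel : ∀ σ i j, σ • D i j = z ^ ν σ i * D (p σ i) j
  pol : MvPolynomial.map (algebraMap (𝓞 K) (𝓞 F)) (MvPolynomial.C ((n : 𝓞 K) ^ 3) * f) = cub D

/-- the data exist -/
theorem exists_form (hz : z * z = -1 - z) {f : MvPolynomial (Fin m) (𝓞 K)}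
    {B : Matrix (Fin m) (Fin m) F} (hB : B.det ≠ 0)
    (hf : MvPolynomial.map (algebraMap (𝓞 K) F) f = cub B) :
    ∃ (n : ℕ) (D : Matrix (Fin m) (Fin m) (𝓞 F)) (p : Gal(F/K) → Equiv.Perm (Fin m))
      (ν : Gal(F/K) → Fin m → ℕ), n ≠ 0 ∧ D.det ≠ 0 ∧ Form z f n D p ν := by
  obtain ⟨p, ν, hM, hrel⟩ := form_mon (K := K) hz hB hf
  obtain ⟨n, D, hn, hD⟩ := exists_den B
  have hDB : D.map (algebraMap (𝓞 F) F) = (n : F) • B := by
    ext i j
    rw [Matrix.map_apply, Matrix.smul_apply, smul_eq_mul]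
    exact hD i j
  have hnF : (n : F) ≠ 0 := by exact_mod_cast hn
  refine ⟨n, D, p, ν, hn, ?_, hM, ?_, ?_⟩
  · intro h
    have h1 := RingHom.map_det (algebraMap (𝓞 F) F) D
    rw [h, map_zero, RingHom.mapMatrix_apply, hDB, Matrix.det_smul] at h1
    exact mul_ne_zero (pow_ne_zero _ hnF) hB h1.symm
  · intro σ i j
    apply RingOfIntegers.ext
    have e1 : ((z ^ ν σ i * D (p σ i) j : 𝓞 F) : F) =
        (z : F) ^ ν σ i * ((n : F) * B (p σ i) j) := by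
      rw [← hD (p σ i) j]
      generalize D (p σ i) j = d
      push_cast
      rfl
    have e2 : σ ((D i j : 𝓞 F) : F) = (z : F) ^ ν σ i * ((n : F) * B (p σ i) j) := by
      rw [hD i j, map_mul, map_natCast, hrel]
      ring
    exact e2.trans e1.symm
  · apply MvPolynomial.map_injective (algebraMap (𝓞 F) F)
      (FaithfulSMul.algebraMap_injective (𝓞 F) F)
    rw [cub_map, hDB, MvPolynomial.map_map, map_mul, MvPolynomial.map_C]
    have h0 : (algebraMap (𝓞 F) F).comp (algebraMap (𝓞 K) (𝓞 F)) = algebraMap (𝓞 K) F := by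
      apply RingHom.ext
      intro x
      rfl
    rw [h0, hf, map_pow, map_natCast]
    unfold cub
    rw [Finset.mul_sum]
    refine Finset.sum_congr rfl fun i _ => ?_
    rw [map_pow, ← mul_pow, Finset.mul_sum]
    congr 1
    refine Finset.sum_congr rfl fun j _ => ?_
    rw [Matrix.smul_apply, smul_eq_mul, map_mul, mul_assoc]

variable {f : MvPolynomial (Fin m) (𝓞 K)} {n : ℕ} {D : Matrix (Fin m) (Fin m) (𝓞 F)}
  {p : Gal(F/K) → Equiv.Perm (Fin m)} {ν : Gal(F/K) → Fin m → ℕ}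
  {v : HeightOneSpectrum (𝓞 K)} {w : HeightOneSpectrum (𝓞 F)}

/-- the powers of a Frobenius element -/
lemma lam_pow {Ω : Type} [Field Ω] {lam : 𝓞 F →+* Ω} (hlam : ∀ y, lam y = 0 ↔ y ∈ w.asIdeal)
    {φ : Gal(F/K)} {q : ℕ} (hφ : ∀ y : 𝓞 F, φ • y - y ^ q ∈ w.asIdeal) (r : ℕ) (y : 𝓞 F) :
    lam (φ ^ r • y) = lam y ^ (q ^ r) := by
  have h1 : ∀ y, lam (φ • y) = lam y ^ q := fun y => by
    rw [← map_pow, ← sub_eq_zero, ← map_sub, hlam]
    exact hφ y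
  induction r generalizing y with
  | zero => rw [pow_zero, pow_zero, one_smul, pow_one]
  | succ r ih =>
    rw [pow_succ, mul_smul, ih, h1, ← pow_mul, pow_succ, mul_comm q]

/-- the reduction -/
theorem form_red (hz : z * z = -1 - z) (hF : Form z f n D p ν)
    (hw : w.asIdeal.comap (algebraMap (𝓞 K) (𝓞 F)) = v.asIdeal)
    (hn : (n : 𝓞 K) ∉ v.asIdeal) (hdet : D.det ∉ w.asIdeal)
    {φ : Gal(F/K)} {q : ℕ} (hφ : ∀ y : 𝓞 F, φ • y - y ^ q ∈ w.asIdeal)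
    {k : Type} [Field k] [Fintype k] (f₀ : 𝓞 K →+* k) (hf₀ : ∀ y, f₀ y = 0 ↔ y ∈ v.asIdeal)
    {r Q : ℕ} (hQ : Fintype.card k = Q) (hr : Q = q ^ r) :
    ∃ lam : 𝓞 F →+* AlgebraicClosure k,
      (∀ x : 𝓞 K, lam (algebraMap (𝓞 K) (𝓞 F) x) = algebraMap k (AlgebraicClosure k) (f₀ x)) ∧
      (∀ y, lam y = 0 ↔ y ∈ w.asIdeal) ∧
      Nat.card (VV Q (lam z) (p (φ ^ r)) (fun _ => 1) (ν (φ ^ r))) = Q ^ m ∧
      Nat.card {x : Fin m → k // MvPolynomial.eval₂ f₀ x f = 0} =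
        Nat.card {y : VV Q (lam z) (p (φ ^ r)) (fun _ => 1) (ν (φ ^ r)) //
          ∑ i, y.1 i ^ 3 = 0} := by
  obtain ⟨lam, h1, h2⟩ := exists_lam (Ω := AlgebraicClosure k) v w hw f₀ hf₀
  have hzz : lam z * lam z = -1 - lam z := by
    rw [← map_mul, hz, map_sub, map_neg, map_one]
  have hL : ∀ i j, (D.map lam) i j ^ Q = lam z ^ ν (φ ^ r) i *
      (D.map lam) (p (φ ^ r) i) j := by
    intro i j
    rw [Matrix.map_apply, Matrix.map_apply, hr, ← lam_pow h2 hφ, hF.rel, map_mul, map_pow]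
  have hd : (D.map lam).det ≠ 0 := by
    have h3 := RingHom.map_det lam D
    rw [RingHom.mapMatrix_apply] at h3
    rw [← h3]
    intro h4
    exact hdet ((h2 _).1 h4)
  obtain ⟨c1, c2⟩ := count_equiv (k := k) hQ (z_cube hzz) hL hd
  refine ⟨lam, h1, h2, c1, ?_⟩
  rw [← c2]
  refine Nat.card_congr (Equiv.subtypeEquivRight fun x => ?_)
  have e1 : MvPolynomial.eval₂ lam (fun j => algebraMap k (AlgebraicClosure k) (x j)) (cub D) =
      ∑ i, ((D.map lam) *ᵥ (fun j => algebraMap k (AlgebraicClosure k) (x j))) i ^ 3 := by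
    rw [← cub_eval, ← cub_map, MvPolynomial.eval_map]
  have e2 : MvPolynomial.eval₂ lam (fun j => algebraMap k (AlgebraicClosure k) (x j)) (cub D) =
      algebraMap k (AlgebraicClosure k) ((n : k) ^ 3 * MvPolynomial.eval₂ f₀ x f) := by
    rw [← hF.pol, MvPolynomial.eval₂_map]
    have h3 : lam.comp (algebraMap (𝓞 K) (𝓞 F)) =
        (algebraMap k (AlgebraicClosure k)).comp f₀ := RingHom.ext h1
    rw [h3, MvPolynomial.eval₂_mul, MvPolynomial.eval₂_C]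
    have h4 := MvPolynomial.eval₂_comp_left (algebraMap k (AlgebraicClosure k)) f₀ x f
    rw [map_mul, h4]
    simp [Function.comp_def]
  rw [← e1, e2, map_eq_zero, mul_eq_zero]
  have hnk : (n : k) ^ 3 ≠ 0 := by
    apply pow_ne_zero
    intro h5
    apply hn
    rw [← hf₀, map_natCast]
    exact h5
  exact ⟨fun h => Or.inr h, fun h => h.resolve_left hnk⟩

lemma card_div {N Q m : ℕ} (hm : 0 < m) (hQ : 0 < Q) (h : (Q : ℂ) * N = (Q : ℂ) ^ m) :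
    (N : ℂ) = (Q : ℂ) ^ (m - 1) := by
  have hQ0 : (Q : ℂ) ≠ 0 := by exact_mod_cast hQ.ne'
  apply mul_left_cancel₀ hQ0
  rw [h]
  obtain ⟨m', rfl⟩ : ∃ m', m = m' + 1 := ⟨m - 1, by omega⟩
  rw [Nat.add_sub_cancel, pow_succ]
  ring

/-- **The number of points, first case.** -/
theorem count_a (hz : z * z = -1 - z) (hF : Form z f n D p ν)
    (hw : w.asIdeal.comap (algebraMap (𝓞 K) (𝓞 F)) = v.asIdeal)
    (hn : (n : 𝓞 K) ∉ v.asIdeal) (hdet : D.det ∉ w.asIdeal) (h3 : (3 : 𝓞 K) ∉ v.asIdeal)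
    {φ : Gal(F/K)} {q : ℕ} (hφ : ∀ y : 𝓞 F, φ • y - y ^ q ∈ w.asIdeal)
    {k : Type} [Field k] [Fintype k] (f₀ : 𝓞 K →+* k) (hf₀ : ∀ y, f₀ y = 0 ↔ y ∈ v.asIdeal)
    {r Q h : ℕ} (hQ : Fintype.card k = Q) (hr : Q = q ^ r) (hm : m = 2 * h + 3) (hh : h ≤ 2)
    {t : 𝓞 K} (ht : algebraMap (𝓞 K) (𝓞 F) t - z ∈ w.asIdeal) {x : Ei}
    (hx : ∀ (hzk : f₀ t * f₀ t = -1 - f₀ t) (h3k : (3 : k) ≠ 0), -Jc hzk h3k = x ^ r) :
    (Nat.card {x : Fin m → k // MvPolynomial.eval₂ f₀ x f = 0} : ℂ) =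
      (Q : ℂ) ^ (m - 1) - ((Q : ℂ) - 1) * (Q : ℂ) ^ h *
        (toC x ^ r * tk h true (p (φ ^ r)) (ν (φ ^ r)) +
          toC' x ^ r * tk h false (p (φ ^ r)) (ν (φ ^ r))) := by
  obtain ⟨lam, h1, h2, c1, c2⟩ := form_red hz hF hw hn hdet hφ f₀ hf₀ hQ hr
  have hzz : lam z * lam z = -1 - lam z := by
    rw [← map_mul, hz, map_sub, map_neg, map_one]
  have hζ : algebraMap k (AlgebraicClosure k) (f₀ t) = lam z := by
    rw [← h1, ← sub_eq_zero, ← map_sub, h2]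
    exact ht
  have hzk : f₀ t * f₀ t = -1 - f₀ t := by
    apply (algebraMap k (AlgebraicClosure k)).injective
    rw [map_mul, map_sub, map_neg, map_one, hζ, hzz]
  have h3k : (3 : k) ≠ 0 := by
    intro h5
    apply h3
    rw [← hf₀, map_ofNat]
    exact h5
  rw [c2]
  rw [← hζ] at c1 ⊢
  have hJ : Jc hzk h3k = -x ^ r := by
    rw [← hx hzk h3k, neg_neg]
  rw [zeros_one hzk h3k hm hh hQ c1, hJ, map_neg, map_pow, map_neg, map_pow, ← toC'_apply]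
  ring

/-- **The number of points, second case.** -/
theorem count_b (hz : z * z = -1 - z) (hF : Form z f n D p ν)
    (hw : w.asIdeal.comap (algebraMap (𝓞 K) (𝓞 F)) = v.asIdeal)
    (hn : (n : 𝓞 K) ∉ v.asIdeal) (hdet : D.det ∉ w.asIdeal) (h3 : (3 : 𝓞 K) ∉ v.asIdeal)
    {φ : Gal(F/K)} {q : ℕ} (hφ : ∀ y : 𝓞 F, φ • y - y ^ q ∈ w.asIdeal)
    {k : Type} [Field k] [Fintype k] (f₀ : 𝓞 K →+* k) (hf₀ : ∀ y, f₀ y = 0 ↔ y ∈ v.asIdeal)
    {r Q : ℕ} (hQ : Fintype.card k = Q) (hr : Q = q ^ r) (hm : m % 2 = 1)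
    (hq : q % 3 = 2) (hr2 : r % 2 = 1) :
    (Nat.card {x : Fin m → k // MvPolynomial.eval₂ f₀ x f = 0} : ℂ) = (Q : ℂ) ^ (m - 1) := by
  obtain ⟨lam, h1, h2, c1, c2⟩ := form_red hz hF hw hn hdet hφ f₀ hf₀ hQ hr
  have hzz : lam z * lam z = -1 - lam z := by
    rw [← map_mul, hz, map_sub, map_neg, map_one]
  have h3k : (3 : AlgebraicClosure k) ≠ 0 := by
    intro h5
    apply h3
    rw [← hf₀]
    apply (algebraMap k (AlgebraicClosure k)).injective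
    rw [map_ofNat, map_ofNat, map_zero]
    exact h5
  have hQ2 : Q % 3 = 2 := by
    obtain ⟨s, hs⟩ : ∃ s, r = 2 * s + 1 := ⟨r / 2, by omega⟩
    rw [hr, hs, pow_add, pow_mul, Nat.mul_mod, Nat.pow_mod, Nat.pow_mod q 2, hq]
    simp [hq]
  rw [c2]
  have hQ0 : 0 < Q := by rw [← hQ]; exact Fintype.card_pos
  exact card_div (by omega) hQ0 (zeros_two hzz h3k hQ hQ2 hm c1)

/-- **The number of points, third case.** -/
theorem count_c (hz : z * z = -1 - z) (hF : Form z f n D p ν)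
    (hw : w.asIdeal.comap (algebraMap (𝓞 K) (𝓞 F)) = v.asIdeal)
    (hn : (n : 𝓞 K) ∉ v.asIdeal) (hdet : D.det ∉ w.asIdeal) (h3 : (3 : 𝓞 K) ∉ v.asIdeal)
    {φ : Gal(F/K)} {q : ℕ} (hφ : ∀ y : 𝓞 F, φ • y - y ^ q ∈ w.asIdeal)
    {k : Type} [Field k] [Fintype k] (f₀ : 𝓞 K →+* k) (hf₀ : ∀ y, f₀ y = 0 ↔ y ∈ v.asIdeal)
    {r Q h t : ℕ} (hQ : Fintype.card k = Q) (hr : Q = q ^ r) (hm : m = 2 * h + 3) (hh : h ≤ 2)
    (hq : q % 3 = 2) (hqv : Nat.card (𝓞 K ⧸ v.asIdeal) = q) (hr2 : r = 2 * t) :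
    (Nat.card {x : Fin m → k // MvPolynomial.eval₂ f₀ x f = 0} : ℂ) =
      (Q : ℂ) ^ (m - 1) - ((Q : ℂ) - 1) * (Q : ℂ) ^ h * (-(q : ℂ)) ^ t *
        (tk h true (p (φ ^ r)) (ν (φ ^ r)) + tk h false (p (φ ^ r)) (ν (φ ^ r))) := by
  obtain ⟨lam, h1, h2, c1, c2⟩ := form_red hz hF hw hn hdet hφ f₀ hf₀ hQ hr
  have hzz : lam z * lam z = -1 - lam z := by
    rw [← map_mul, hz, map_sub, map_neg, map_one]
  have hQ1 : Q % 3 = 1 := by
    rw [hr, hr2, pow_mul, Nat.pow_mod, Nat.pow_mod q 2, hq]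
    simp
  obtain ⟨zk, hζ⟩ := mem_base (Ω := AlgebraicClosure k) hQ (x := lam z) (by
    rw [pow_mod (z_cube hzz) (b := 1) hQ1, pow_one])
  have hzk : zk * zk = -1 - zk := by
    apply (algebraMap k (AlgebraicClosure k)).injective
    rw [map_mul, map_sub, map_neg, map_one, hζ, hzz]
  have h3k : (3 : k) ≠ 0 := by
    intro h5
    apply h3
    rw [← hf₀, map_ofNat]
    exact h5
  have hpmax : v.asIdeal.IsMaximal := v.isPrime.isMaximal v.ne_bot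
  have hfv : Finite (𝓞 K ⧸ v.asIdeal) := Ideal.finiteQuotientOfFreeOfNeBot _ v.ne_bot
  let _ : Field (𝓞 K ⧸ v.asIdeal) := Ideal.Quotient.field _
  let _ : Fintype (𝓞 K ⧸ v.asIdeal) := Fintype.ofFinite _
  let g : (𝓞 K ⧸ v.asIdeal) →+* k := Ideal.Quotient.lift v.asIdeal f₀ fun a ha => (hf₀ a).2 ha
  let _ : Algebra (𝓞 K ⧸ v.asIdeal) k := g.toAlgebra
  have hJ : Jc hzk h3k = -(-(q : Ei)) ^ t := Jc_two hzk h3k (κ := 𝓞 K ⧸ v.asIdeal)
    (by rw [← Nat.card_eq_fintype_card]; exact hqv) hq (by rw [hQ, hr, hr2])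
  rw [c2]
  rw [← hζ] at c1 ⊢
  rw [zeros_one hzk h3k hm hh hQ c1, hJ, map_neg, map_pow, map_neg, map_natCast, map_neg,
    map_pow, map_neg, map_natCast]
  ring

end

end Pool.Agent.H508.Q
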