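import Pool.Agent.H508.Q.A13

/-!
# The eigenvalues of the Frobenius elements
-/

set_option autoImplicit false
set_option linter.unusedSectionVars false

open NumberField IsDedekindDomain Polynomial

namespace Pool.Agent.H508.Q

open Pool.Agent.K7.H70.EQ (exists_diag avg avg_fin frob_conj)
open Pool.Agent.K7.H65.FP (Semi toC' toC'_apply fx fx_inertia fx_frob av prodMap_pow prodMap_inj
  off off_mul_off card_mod3)
open Pool.Agent.Y692.QS (toC Ei nr toC_normSq)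
open Pool.Agent.Y696 (nK)
open Pool.Agent.H508.R (oav fac)
open scoped Classical Matrix

section lin
variable {W : Type} [AddCommGroup W] [Module ℂ W] [FiniteDimensional ℂ W]

/-- the eigenvalues of an operator -/
theorem exists_ev (f : Module.End ℂ W) {N : ℕ} (hN : 0 < N) (hf : f ^ (N + 1) = f) :
    ∃ z : Fin (Module.finrank ℂ W) → ℂ, (∀ i, ‖z i‖ ≤ 1) ∧
      (∀ r : ℕ, LinearMap.trace ℂ W (f ^ r) = ∑ i, z i ^ r) ∧
      ∀ c : ℂ, LinearMap.det ((1 : Module.End ℂ W) - c • f) = ∏ i, (1 - c * z i) := by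
  obtain ⟨ι, _, y, hy, hp⟩ := exists_diag f hN hf
  have hcard : Fintype.card ι = Module.finrank ℂ W := by
    have h1 := (hp 1).1
    rw [map_one, LinearMap.trace_one] at h1
    simp only [eval_one, Finset.sum_const, Finset.card_univ, nsmul_eq_mul, mul_one] at h1
    exact_mod_cast h1.symm
  let e : ι ≃ Fin (Module.finrank ℂ W) := Fintype.equivFinOfCardEq hcard
  refine ⟨fun i => y (e.symm i), fun i => ?_, fun r => ?_, fun c => ?_⟩
  · show ‖y (e.symm i)‖ ≤ 1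
    rcases hy (e.symm i) with h | h
    · rw [h, norm_zero]; exact zero_le_one
    · exact (Complex.norm_eq_one_of_pow_eq_one h hN.ne').le
  · have h1 := (hp (X ^ r)).1
    rw [map_pow, aeval_X] at h1
    rw [h1, ← Equiv.sum_comp e.symm]
    exact Finset.sum_congr rfl fun i _ => by rw [eval_pow, eval_X]
  · have h1 := (hp (1 - C c * X)).2
    rw [map_sub, map_one, map_mul, aeval_X, aeval_C] at h1
    have h2 : (1 : Module.End ℂ W) - c • f = 1 - algebraMap ℂ (Module.End ℂ W) c * f := by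
      rw [Algebra.smul_def]
    rw [h2, h1, ← Equiv.prod_comp e.symm]
    exact Finset.prod_congr rfl fun i _ => by
      rw [eval_sub, eval_one, eval_mul, eval_C, eval_X]

/-- the doubled index set -/
lemma exists_dbl {d b : ℕ} (hb : b = 2 * d) (x y : Fin d → ℂ) :
    ∃ β : Fin b → ℂ, (∀ g : ℂ → ℂ, ∑ j, g (β j) = ∑ i, g (x i) + ∑ i, g (y i)) ∧
      (∀ g : ℂ → ℂ, ∏ j, g (β j) = (∏ i, g (x i)) * ∏ i, g (y i)) ∧
      ∀ P : ℂ → Prop, (∀ i, P (x i)) → (∀ i, P (y i)) → ∀ j, P (β j) := by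
  have hc : Fintype.card (Fin d ⊕ Fin d) = b := by
    rw [Fintype.card_sum, Fintype.card_fin, hb]
    ring
  let e : Fin d ⊕ Fin d ≃ Fin b := Fintype.equivFinOfCardEq hc
  refine ⟨fun j => Sum.elim x y (e.symm j), fun g => ?_, fun g => ?_, fun P h1 h2 j => ?_⟩
  · rw [Equiv.sum_comp e.symm fun s => g (Sum.elim x y s), Fintype.sum_sum_type]
    rfl
  · rw [Equiv.prod_comp e.symm fun s => g (Sum.elim x y s), Fintype.prod_sum_type]
    rfl
  · show P (Sum.elim x y (e.symm j))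
    rcases e.symm j with i | i
    · exact h1 i
    · exact h2 i

variable {G : Type} [Group G] [Fintype G] {h : G → Prop} {a b : G → Module.End ℂ W}

lemma fin_neg (S : Semi h a b) {I : Subgroup G} (hI : ∀ i ∈ I, h i) {φ : G} (hφ : ¬ h φ)
    (hφI : ∀ i ∈ I, φ⁻¹ * i * φ ∈ I) :
    (oav a I φ * oav b I φ) ^ (orderOf φ + 1) = oav a I φ * oav b I φ := by
  have hsq : avg S.rep I φ ^ 2 = (oav b I φ * oav a I φ).prodMap (oav a I φ * oav b I φ) := by
    rw [S.avg_neg hI hφ, pow_two, off_mul_off]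
  have h1 := avg_fin S.rep I hφI
  have h2 : (avg S.rep I φ ^ 2) ^ (orderOf φ + 1) = avg S.rep I φ ^ 2 := by
    rw [← pow_mul, mul_comm, pow_mul, h1]
  rw [hsq, prodMap_pow] at h2
  exact (prodMap_inj h2).2

lemma fin_pos (S : Semi h a b) {I : Subgroup G} (hI : ∀ i ∈ I, h i) {φ : G} (hφ : h φ)
    (hφI : ∀ i ∈ I, φ⁻¹ * i * φ ∈ I) : oav a I φ ^ (orderOf φ + 1) = oav a I φ ∧
      oav b I φ ^ (orderOf φ + 1) = oav b I φ := by
  have h1 := avg_fin S.rep I hφI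
  rw [S.avg_pos hI hφ, prodMap_pow] at h1
  exact prodMap_inj h1

/-- trivial inertia -/
lemma oav_triv (S : Semi h a b) {I : Subgroup G} (ha : ∀ i ∈ I, a i = 1) (hb : ∀ i ∈ I, b i = 1)
    (φ : G) : oav a I φ = a φ ∧ oav b I φ = b φ := by
  have hI0 : (Nat.card I : ℂ) ≠ 0 := by exact_mod_cast Nat.card_pos.ne'
  have key : ∀ c : G → Module.End ℂ W, (∀ i ∈ I, c (φ * i) = c φ) → oav c I φ = c φ := by
    intro c hc
    unfold oav av
    rw [Finset.sum_congr rfl fun i _ => hc _ i.2, Finset.sum_const, Finset.card_univ,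
      ← Nat.card_eq_fintype_card, ← Nat.cast_smul_eq_nsmul ℂ, smul_smul, inv_mul_cancel₀ hI0,
      one_smul]
  refine ⟨key a fun i hi => ?_, key b fun i hi => ?_⟩
  · rw [S.am, ha i hi, hb i hi, ite_self, one_mul]
  · rw [S.bm, ha i hi, hb i hi, ite_self, one_mul]

lemma pow_pos' (S : Semi h a b) {φ : G} (hφ : h φ) (r : ℕ) :
    a φ ^ r = a (φ ^ r) ∧ b φ ^ r = b (φ ^ r) := by
  induction r with
  | zero => rw [pow_zero, pow_zero, pow_zero, S.a1, S.b1]; exact ⟨rfl, rfl⟩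
  | succ r ih =>
    have h1 := S.h_pow hφ r
    rw [pow_succ (a φ), pow_succ (b φ), ih.1, ih.2, pow_succ' φ, S.am, S.bm, if_pos hφ, if_pos hφ]
    exact ⟨rfl, rfl⟩

lemma pow_neg' (S : Semi h a b) {φ : G} (hφ : ¬ h φ) (t : ℕ) :
    (a φ * b φ) ^ t = b (φ ^ (2 * t)) ∧ (b φ * a φ) ^ t = a (φ ^ (2 * t)) := by
  have h2 : h (φ ^ 2) := by
    rw [pow_two]
    exact (S.hm _ _).2 Iff.rfl
  have h1 : a (φ ^ 2) = b φ * a φ ∧ b (φ ^ 2) = a φ * b φ := by
    rw [pow_two, S.am, S.bm, if_neg hφ, if_neg hφ]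
    exact ⟨rfl, rfl⟩
  rw [← h1.1, ← h1.2, (pow_pos' S h2 t).1, (pow_pos' S h2 t).2, pow_mul]
  exact ⟨rfl, rfl⟩

lemma trace_ab (f g : Module.End ℂ W) (t : ℕ) : LinearMap.trace ℂ W ((g * f) ^ t) =
    LinearMap.trace ℂ W ((f * g) ^ t) := by
  rcases t with _ | k
  · rw [pow_zero, pow_zero]
  · have h1 : (g * f) ^ (k + 1) = g * ((f * g) ^ k * f) := by
      induction k with
      | zero => simp
      | succ k ih => rw [pow_succ, ih, pow_succ]; noncomm_ring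
    rw [h1, LinearMap.trace_mul_comm, mul_assoc, ← pow_succ]

end lin

section loc
variable {K F : Type} [Field K] [NumberField K] [Field F] [NumberField F] [Algebra K F]
  [IsGalois K F] {z : 𝓞 F}
  {W : Type} [AddCommGroup W] [Module ℂ W] [FiniteDimensional ℂ W]
  {a b : Gal(F/K) → Module.End ℂ W} {v : HeightOneSpectrum (𝓞 K)}
  {w : HeightOneSpectrum (𝓞 F)} {φ : Gal(F/K)}

lemma norm_toC {x : Ei} {q : ℕ} (hx : nr x = q) : ‖toC x‖ ^ 2 = q ∧ ‖toC' x‖ ^ 2 = q := by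
  have h1 : ‖toC x‖ ^ 2 = q := by
    rw [← Complex.normSq_eq_norm_sq, toC_normSq, hx]
    push_cast
    rfl
  exact ⟨h1, by rw [toC'_apply, RCLike.norm_conj]; exact h1⟩

/-- **The parameters of the Euler factors.** -/
theorem exists_beta (hz : z * z = -1 - z) (S : Semi (fx z) a b)
    (hw : w.asIdeal.comap (algebraMap (𝓞 K) (𝓞 F)) = v.asIdeal)
    (hφ : ∀ y : 𝓞 F, φ • y - y ^ nK v ∈ w.asIdeal) {x : Ei}
    (hx : (3 : 𝓞 K) ∉ v.asIdeal → nK v % 3 = 1 → nr x = nK v) {d : ℕ}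
    (hd : d = 2 * Module.finrank ℂ W) :
    ∃ β : Fin d → ℂ, (∀ j, ‖β j‖ ^ 2 ≤ nK v) ∧
      (∀ s : ℂ, fac a b x v w φ s = ∏ j, (1 - β j * (nK v : ℂ) ^ (-s))⁻¹) ∧
      ((3 : 𝓞 K) ∉ v.asIdeal →
        (∀ i ∈ w.asIdeal.inertia Gal(F/K), a i = 1) → (∀ i ∈ w.asIdeal.inertia Gal(F/K), b i = 1) →
        (nK v % 3 = 1 → ∀ r, ∑ j, β j ^ r = toC x ^ r * LinearMap.trace ℂ W (a (φ ^ r)) +
          toC' x ^ r * LinearMap.trace ℂ W (b (φ ^ r))) ∧
        (nK v % 3 = 2 → (∀ r, r % 2 = 1 → ∑ j, β j ^ r = 0) ∧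
          ∀ t, ∑ j, β j ^ (2 * t) = (-(nK v : ℂ)) ^ t *
            (LinearMap.trace ℂ W (a (φ ^ (2 * t))) + LinearMap.trace ℂ W (b (φ ^ (2 * t)))))) := by
  have hwp := w.isPrime
  have hq0 : nK v ≠ 0 := Pool.Agent.K7.H70.AW.nK_ne v
  have hφI := frob_conj hq0 hφ
  have hqC : (nK v : ℂ) ≠ 0 := by exact_mod_cast hq0
  unfold fac
  by_cases h3 : (3 : 𝓞 K) ∈ v.asIdeal
  · refine ⟨fun _ => 0, fun j => ?_, fun s => ?_, fun h => absurd h3 h⟩
    · rw [norm_zero, zero_pow two_ne_zero]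
      exact Nat.cast_nonneg _
    · rw [if_pos h3]
      simp
  have h3F : (3 : 𝓞 F) ∉ w.asIdeal := fun h => h3 (by
    rw [← hw, Ideal.mem_comap, map_ofNat]
    exact h)
  have hI : ∀ i ∈ w.asIdeal.inertia Gal(F/K), fx z i := fx_inertia hz h3F
  have hm3 : nK v % 3 = 1 ∨ nK v % 3 = 2 := by
    have h5 := card_mod3 h3
    rwa [Pool.Agent.Y696.card_nm] at h5
  by_cases hq : nK v % 3 = 1
  · have hfx : fx z φ := (fx_frob hz h3F (hφ z)).1 hq
    obtain ⟨f1, f2⟩ := fin_pos S hI hfx hφI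
    obtain ⟨y1, u1, t1, d1⟩ := exists_ev _ (orderOf_pos φ) f1
    obtain ⟨y2, u2, t2, d2⟩ := exists_ev _ (orderOf_pos φ) f2
    obtain ⟨n1, n2⟩ := norm_toC (hx h3 hq)
    obtain ⟨β, b1, b2, b3⟩ := exists_dbl hd (fun i => toC x * y1 i) (fun i => toC' x * y2 i)
    refine ⟨β, b3 (fun t => ‖t‖ ^ 2 ≤ (nK v : ℝ)) (fun i => ?_) (fun i => ?_), fun s => ?_,
      fun _ ha hb => ⟨fun _ r => ?_, fun h2 => absurd h2 (by omega)⟩⟩
    · rw [norm_mul, mul_pow, n1]
      have := u1 i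
      have h4 : ‖y1 i‖ ^ 2 ≤ 1 := pow_le_one₀ (norm_nonneg _) this
      calc (nK v : ℝ) * ‖y1 i‖ ^ 2 ≤ nK v * 1 := mul_le_mul_of_nonneg_left h4 (Nat.cast_nonneg _)
        _ = nK v := mul_one _
    · rw [norm_mul, mul_pow, n2]
      have := u2 i
      have h4 : ‖y2 i‖ ^ 2 ≤ 1 := pow_le_one₀ (norm_nonneg _) this
      calc (nK v : ℝ) * ‖y2 i‖ ^ 2 ≤ nK v * 1 := mul_le_mul_of_nonneg_left h4 (Nat.cast_nonneg _)
        _ = nK v := mul_one _
    · rw [if_neg h3, if_pos hq, d1, d2, b2 (fun t => (1 - t * (nK v : ℂ) ^ (-s))⁻¹),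
        Finset.prod_inv_distrib, Finset.prod_inv_distrib, ← mul_inv]
      congr 2
      · exact Finset.prod_congr rfl fun i _ => by ring
      · exact Finset.prod_congr rfl fun i _ => by ring
    · obtain ⟨o1, o2⟩ := oav_triv S ha hb φ
      rw [b1 (fun t => t ^ r), ← (pow_pos' S hfx r).1, ← (pow_pos' S hfx r).2, ← o1, ← o2, t1, t2,
        Finset.mul_sum, Finset.mul_sum]
      congr 1
      · exact Finset.sum_congr rfl fun i _ => by rw [mul_pow]
      · exact Finset.sum_congr rfl fun i _ => by rw [mul_pow]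
  · have hq2 : nK v % 3 = 2 := hm3.resolve_left hq
    have hfx : ¬ fx z φ := (fx_frob hz h3F (hφ z)).2 hq2
    have f1 := fin_neg S hI hfx hφI
    obtain ⟨y, u, t1, d1⟩ := exists_ev _ (orderOf_pos φ) f1
    choose ρ hρ using fun i => IsAlgClosed.exists_pow_nat_eq (-(nK v : ℂ) * y i) (n := 2) two_pos
    obtain ⟨β, b1, b2, b3⟩ := exists_dbl hd ρ (fun i => -ρ i)
    have hn : ∀ i, ‖ρ i‖ ^ 2 ≤ (nK v : ℝ) := by
      intro i
      rw [← norm_pow, hρ, norm_mul, norm_neg, Complex.norm_natCast]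
      calc (nK v : ℝ) * ‖y i‖ ≤ nK v * 1 := mul_le_mul_of_nonneg_left (u i) (Nat.cast_nonneg _)
        _ = nK v := mul_one _
    refine ⟨β, b3 (fun t => ‖t‖ ^ 2 ≤ (nK v : ℝ)) hn (fun i => ?_), fun s => ?_,
      fun _ ha hb => ⟨fun h2 => absurd h2 (by omega), fun _ => ⟨fun r hr => ?_, fun t => ?_⟩⟩⟩
    · rw [norm_neg]
      exact hn i
    · have e1 : (nK v : ℂ) ^ (1 - 2 * s) = nK v * ((nK v : ℂ) ^ (-s)) ^ 2 := by
        rw [pow_two, show 1 - 2 * s = 1 + (-s) + (-s) by ring, Complex.cpow_add _ _ hqC,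
          Complex.cpow_add _ _ hqC, Complex.cpow_one]
        ring
      have d2 := d1 (-((nK v : ℂ) ^ (1 - 2 * s)))
      rw [neg_smul, sub_neg_eq_add] at d2
      rw [if_neg h3, if_neg hq, d2, b2 (fun t => (1 - t * (nK v : ℂ) ^ (-s))⁻¹),
        ← Finset.prod_mul_distrib, ← Finset.prod_inv_distrib]
      refine Finset.prod_congr rfl fun i _ => ?_
      rw [← mul_inv, e1]
      congr 1
      linear_combination ((nK v : ℂ) ^ (-s)) ^ 2 * hρ i
    · rw [b1 (fun t => t ^ r)]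
      have ho : Odd r := Nat.odd_iff.2 hr
      rw [← Finset.sum_add_distrib]
      exact Finset.sum_eq_zero fun i _ => by rw [ho.neg_pow, add_neg_cancel]
    · obtain ⟨o1, o2⟩ := oav_triv S ha hb φ
      rw [b1 (fun r => r ^ (2 * t)), ← (pow_neg' S hfx t).1, ← (pow_neg' S hfx t).2,
        trace_ab, ← o1, ← o2, t1, ← Finset.sum_add_distrib, mul_add, Finset.mul_sum,
        ← Finset.sum_add_distrib]
      refine Finset.sum_congr rfl fun i _ => ?_
      rw [pow_mul, pow_mul, neg_sq, hρ, mul_pow]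

end loc

end Pool.Agent.H508.Q
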