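import Pool.Agent.H508.Q.A14

/-!
# The L-function of a form of the Fermat cubic
-/

set_option autoImplicit false
set_option linter.unusedSectionVars false

open NumberField IsDedekindDomain

namespace Pool.Agent.H508.Q

open Pool.Agent.K7.H70.EQ (HH)
open Pool.Agent.K7.H70.SE (GoodG exists_above)
open Pool.Agent.K7.H70.TW (Fam)
open Pool.Agent.K7.H65.FP (Semi toC' toC'_apply fx fx_inertia fx_frob)
open Pool.Agent.Y692.QS (toC Ei nr toC_normSq)
open Pool.Agent.Y696 (nK und0)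
open Pool.Agent.H508.R (oav fac)
open Pool.Agent.K7.H70.AW (Rays)
open scoped Classical Matrix

section prod

/-- removal of finitely many factors -/
lemma hasProd_rem {V : Type} {g : V → ℂ} {P : ℂ} (h : HasProd g P) (S : Finset V)
    (h0 : ∀ v ∈ S, g v ≠ 0) :
    HasProd (fun v : {v // v ∉ S} => g v.1) (P * ∏ v ∈ S, (g v)⁻¹) := by
  have h1 : HasProd (fun v => if v ∈ S then (g v)⁻¹ else 1) (∏ v ∈ S, (g v)⁻¹) := by
    have h2 : ∏ v ∈ S, (g v)⁻¹ = ∏ v ∈ S, (if v ∈ S then (g v)⁻¹ else 1) :=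
      Finset.prod_congr rfl fun v hv => by rw [if_pos hv]
    rw [h2]
    exact hasProd_prod_of_ne_finset_one fun v hv => if_neg hv
  have h2 := h.mul h1
  have h3 : (fun v => g v * if v ∈ S then (g v)⁻¹ else 1) = fun v => if v ∈ S then 1 else g v := by
    funext v
    by_cases hv : v ∈ S
    · rw [if_pos hv, if_pos hv, mul_inv_cancel₀ (h0 v hv)]
    · rw [if_neg hv, if_neg hv, mul_one]
  rw [h3] at h2
  have h4 := (Function.Injective.hasProd_iff (f := fun v => if v ∈ S then 1 else g v)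
    (g := (Subtype.val : {v // v ∉ S} → V)) Subtype.val_injective (fun v hv => by
      have h5 : v ∈ S := by
        by_contra h6
        exact hv ⟨⟨v, h6⟩, rfl⟩
      exact if_pos h5)).2 h2
  refine h4.congr_fun fun v => ?_
  exact (if_neg v.2).symm

/-- the factors do not vanish -/
lemma small {q : ℕ} (hq : 2 ≤ q) {β s : ℂ} (hs : 1 ≤ s.re) (hβ : ‖β‖ ^ 2 ≤ q) :
    1 - β * (q : ℂ) ^ (-s) ≠ 0 := by
  intro h
  have h1 : β * (q : ℂ) ^ (-s) = 1 := (sub_eq_zero.1 h).symm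
  have hq0 : (0 : ℝ) < q := by
    have : 0 < q := by omega
    exact_mod_cast this
  have hq2 : (2 : ℝ) ≤ q := by exact_mod_cast hq
  have hn : ‖(q : ℂ) ^ (-s)‖ = (q : ℝ) ^ (-s.re) := by
    have h2 := Complex.norm_cpow_eq_rpow_re_of_pos hq0 (-s)
    rw [Complex.neg_re] at h2
    rw [← h2]
    push_cast
    rfl
  have h2 : ‖β‖ * (q : ℝ) ^ (-s.re) = 1 := by
    rw [← hn, ← norm_mul, h1, norm_one]
  have h3 : (q : ℝ) ^ (-s.re) ≤ (q : ℝ)⁻¹ := by
    rw [← Real.rpow_neg_one]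
    exact Real.rpow_le_rpow_of_exponent_le (by linarith) (by linarith)
  have h4 : 0 ≤ (q : ℝ) ^ (-s.re) := Real.rpow_nonneg hq0.le _
  have h5 : (‖β‖ * (q : ℝ) ^ (-s.re)) ^ 2 ≤ q * ((q : ℝ)⁻¹) ^ 2 := by
    rw [mul_pow]
    exact mul_le_mul hβ (pow_le_pow_left₀ h4 h3 2) (sq_nonneg _) hq0.le
  rw [h2] at h5
  have h6 : (q : ℝ) * ((q : ℝ)⁻¹) ^ 2 = (q : ℝ)⁻¹ := by
    field_simp
  rw [h6] at h5
  have h7 : (q : ℝ)⁻¹ ≤ 2⁻¹ := inv_anti₀ (by norm_num) hq2
  norm_num at h5 h7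
  linarith

end prod

section
variable {K F L : Type} [Field K] [NumberField K] [Field F] [NumberField F] [Algebra K F]
  [IsGalois K F] [Field L] [NumberField L] [Algebra F L] {z : 𝓞 F} {m h : ℕ}
  {f : MvPolynomial (Fin m) (𝓞 K)} {n : ℕ} {D : Matrix (Fin m) (Fin m) (𝓞 F)}
  {p : Gal(F/K) → Equiv.Perm (Fin m)} {ν : Gal(F/K) → Fin m → ℕ}

/-- the inertia acts trivially -/
lemma inertia_triv (hz : z * z = -1 - z) (hF : Form z f n D p ν) {w : HeightOneSpectrum (𝓞 F)}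
    (h3 : (3 : 𝓞 F) ∉ w.asIdeal) (hdet : D.det ∉ w.asIdeal) {σ : Gal(F/K)}
    (hσ : σ ∈ w.asIdeal.inertia Gal(F/K)) : p σ = 1 ∧ ∀ i, ν σ i % 3 = 0 := by
  have hwmax : w.asIdeal.IsMaximal := w.isPrime.isMaximal w.ne_bot
  let _ : Field (𝓞 F ⧸ w.asIdeal) := Ideal.Quotient.field _
  set g := Ideal.Quotient.mk w.asIdeal with hg
  have hd : (D.map g).det ≠ 0 := by
    have h4 := RingHom.map_det g D
    rw [RingHom.mapMatrix_apply] at h4
    rw [← h4]
    intro h5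
    exact hdet (Ideal.Quotient.eq_zero_iff_mem.1 h5)
  have hzz : g z * g z = -1 - g z := by
    rw [← map_mul, hz, map_sub, map_neg, map_one]
  have h3g : (3 : 𝓞 F ⧸ w.asIdeal) ≠ 0 := by
    intro h5
    apply h3
    rw [← Ideal.Quotient.eq_zero_iff_mem, map_ofNat]
    exact h5
  have h1 : ∀ i j, (g z) ^ 0 * (D.map g) i j = (g z) ^ ν σ i * (D.map g) (p σ i) j := by
    intro i j
    rw [pow_zero, one_mul, Matrix.map_apply, Matrix.map_apply, ← map_pow, ← map_mul, ← hF.rel]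
    symm
    rw [← sub_eq_zero, ← map_sub]
    exact Ideal.Quotient.eq_zero_iff_mem.2 (hσ (D i j))
  have h2 : ∀ i, i = p σ i ∧ (g z) ^ 0 = (g z) ^ ν σ i := fun i =>
    rows hd (by rw [pow_zero]; exact one_ne_zero) (h1 i)
  exact ⟨Equiv.ext fun i => (h2 i).1.symm, fun i => (pow_inj3 hzz h3g (h2 i).2).symm⟩

/-- `α 0, …, α (b - 1)` are the eigenvalues of the Frobenius of `v` -/
def IsFr {b : ℕ} (f : MvPolynomial (Fin m) (𝓞 K)) (v : HeightOneSpectrum (𝓞 K))
    (α : Fin b → ℂ) : Prop :=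
  ∀ (k : Type) [Field k] [Fintype k] (g : 𝓞 K →+* k) (r : ℕ),
    (∀ x, g x = 0 ↔ x ∈ v.asIdeal) → Fintype.card k = Nat.card (𝓞 K ⧸ v.asIdeal) ^ r →
    (Nat.card {x : Fin m → k // MvPolynomial.eval₂ g x f = 0} : ℂ) =
      1 + ((Fintype.card k : ℂ) - 1) *
        (∑ i ∈ Finset.range (m - 1), (Fintype.card k : ℂ) ^ i - ∑ j, α j ^ r)

lemma geom (Q : ℂ) (n : ℕ) : 1 + (Q - 1) * ∑ i ∈ Finset.range n, Q ^ i = Q ^ n := by
  have := mul_geom_sum Q n
  rw [this]
  ring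

lemma finrank_HS : Module.finrank ℂ (HS m h → ℂ) = m.choose h := by
  rw [Module.finrank_fintype_fun_eq_card, Fintype.card_subtype]
  have : (Finset.univ.filter fun S : Finset (Fin m) => S.card = h) =
      Finset.powersetCard h (Finset.univ : Finset (Fin m)) := by
    ext S
    simp [Finset.mem_powersetCard]
  rw [this, Finset.card_powersetCard, Finset.card_univ, Fintype.card_fin]

/-- **The L-function of a form of the Fermat cubic.** -/
theorem form_lfun (hf : Fam L) (hr : Rays L) (hK : GoodG K) (hz : z * z = -1 - z)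
    (hF : Form z f n D p ν) (hn : n ≠ 0) (hdet : D.det ≠ 0) (hm : m = 2 * h + 3) (hh : h ≤ 2) :
    ∃ S₀ : Finset (HeightOneSpectrum (𝓞 K)), ∀ S : Finset (HeightOneSpectrum (𝓞 K)), S₀ ⊆ S →
      ∃ α : HeightOneSpectrum (𝓞 K) → Fin (2 * m.choose h) → ℂ, (∀ v ∉ S, IsFr f v (α v)) ∧
        ∃ Λ : ℂ → ℂ, MeromorphicOn Λ Set.univ ∧ AnalyticAt ℂ Λ (h + 1) ∧ Λ (h + 1) ≠ 0 ∧
          ∀ s : ℂ, (h : ℝ) + 3 / 2 < s.re → HasProd (fun v : {v // v ∉ S} =>
            ∏ j, (1 - α v.1 j * (Nat.card (𝓞 K ⧸ v.1.asIdeal) : ℂ) ^ (-s))⁻¹) (Λ s) := by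
  -- the bad primes
  set N : ℕ := Ideal.absNorm (Ideal.span {D.det}) with hN
  have hN0 : N ≠ 0 := by
    rw [hN]
    intro h0
    rw [Ideal.absNorm_eq_zero_iff, Ideal.span_singleton_eq_bot] at h0
    exact hdet h0
  have hNmem : (N : 𝓞 F) ∈ Ideal.span {D.det} := Ideal.absNorm_mem _
  have hfin : {v : HeightOneSpectrum (𝓞 K) | ((3 * n * N : ℕ) : 𝓞 K) ∈ v.asIdeal}.Finite := by
    have h0 : (Ideal.span {((3 * n * N : ℕ) : 𝓞 K)} : Ideal (𝓞 K)) ≠ 0 := by
      rw [Ideal.zero_eq_bot, Ne, Ideal.span_singleton_eq_bot]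
      have : 3 * n * N ≠ 0 := mul_ne_zero (mul_ne_zero (by norm_num) hn) hN0
      exact_mod_cast this
    refine (Ideal.finite_factors h0).subset fun v hv => ?_
    show v.asIdeal ∣ _
    rw [Ideal.dvd_span_singleton]
    exact hv
  refine ⟨hfin.toFinset, fun S hS => ?_⟩
  have hgood : ∀ v : HeightOneSpectrum (𝓞 K), v ∉ S → (3 : 𝓞 K) ∉ v.asIdeal ∧
      (n : 𝓞 K) ∉ v.asIdeal ∧ (N : 𝓞 K) ∉ v.asIdeal := by
    intro v hv
    have h1 : ((3 * n * N : ℕ) : 𝓞 K) ∉ v.asIdeal := fun h2 =>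
      hv (hS (hfin.mem_toFinset.2 h2))
    push_cast at h1
    exact ⟨fun h2 => h1 (Ideal.mul_mem_right _ _ (Ideal.mul_mem_right _ _ h2)),
      fun h2 => h1 (Ideal.mul_mem_right _ _ (Ideal.mul_mem_left _ _ h2)),
      fun h2 => h1 (Ideal.mul_mem_left _ _ h2)⟩
  -- the primes above
  choose w hw' using fun v : HeightOneSpectrum (𝓞 K) => exists_above (F := F) v
  have hw : ∀ v, (w v).asIdeal.comap (algebraMap (𝓞 K) (𝓞 F)) = v.asIdeal := fun v =>
    congrArg HeightOneSpectrum.asIdeal (hw' v)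
  have hdw : ∀ v : HeightOneSpectrum (𝓞 K), v ∉ S → D.det ∉ (w v).asIdeal := by
    intro v hv hd
    apply (hgood v hv).2.2
    rw [← hw v, Ideal.mem_comap, map_natCast]
    exact (Ideal.span_singleton_le_iff_mem _).2 hd hNmem
  have h3w : ∀ v : HeightOneSpectrum (𝓞 K), v ∉ S → (3 : 𝓞 F) ∉ (w v).asIdeal := by
    intro v hv hd
    apply (hgood v hv).1
    rw [← hw v, Ideal.mem_comap, map_ofNat]
    exact hd
  choose φ hφ using fun v : HeightOneSpectrum (𝓞 K) =>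
    Pool.Agent.K7.H70.AW.exists_frob' (K := K) (w v)
  have hφ' : ∀ v, ∀ y : 𝓞 F, φ v • y - y ^ nK v ∈ (w v).asIdeal := fun v y => by
    have := hφ v y
    rwa [hw'] at this
  -- the Frobenius endomorphisms
  have hx : ∀ v : HeightOneSpectrum (𝓞 K), ∃ (t : 𝓞 K) (x : Ei), (3 : 𝓞 K) ∉ v.asIdeal →
      nK v % 3 = 1 → algebraMap (𝓞 K) (𝓞 F) t - z ∈ (w v).asIdeal ∧
      (nr x = nK v ∧ 2 * x.re - x.im = Pool.Agent.W189.NF.aV (Pool.Agent.Y696.E0 K) v ∧
      (x.re : 𝓞 F) + x.im * z ∈ (w v).asIdeal) ∧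
      ∀ (k : Type) [Field k] [Fintype k] (f₀ : 𝓞 K →+* k) (r : ℕ)
        (hzk : f₀ t * f₀ t = -1 - f₀ t) (h3k : (3 : k) ≠ 0),
        (∀ y, f₀ y = 0 ↔ y ∈ v.asIdeal) →
        Fintype.card k = Nat.card (𝓞 K ⧸ v.asIdeal) ^ r →
        -Pool.Agent.Y715.T.Cub.Jc hzk h3k = x ^ r := by
    intro v
    by_cases hv : (3 : 𝓞 K) ∉ v.asIdeal ∧ nK v % 3 = 1
    · have hq : Nat.card (𝓞 K ⧸ v.asIdeal) % 3 = 1 := by
        rw [Pool.Agent.Y696.card_nm]
        exact hv.2
      obtain ⟨t, ht⟩ := exists_cube hz (hw v) hq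
      obtain ⟨x, hx1, hx2⟩ := exists_x hz (hw v) hv.1 hq ht
      exact ⟨t, x, fun _ _ => ⟨ht, hx1, hx2⟩⟩
    · exact ⟨0, 0, fun h1 h2 => absurd ⟨h1, h2⟩ hv⟩
  choose t x hx using hx
  have SS : Semi (fx z) (fun σ => (op true (p σ) (ν σ) : Module.End ℂ (HS m h → ℂ)))
    (fun σ => (op false (p σ) (ν σ) : Module.End ℂ (HS m h → ℂ))) := hF.mon.semi
  obtain ⟨Φ, p1, p2, p3, p4⟩ := Pool.Agent.H508.S.semi_all (x := x) hf hr hK hz hw' SS
    (fun v h3 hq => (hx v h3 hq).2.1) hφ'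
  have hd : 2 * m.choose h = 2 * Module.finrank ℂ (HS m h → ℂ) := by rw [finrank_HS]
  choose β b1 b2 b3 using fun v : HeightOneSpectrum (𝓞 K) =>
    exists_beta (w := w v) (v := v) (φ := φ v) (x := x v) hz SS (hw v) (hφ' v)
      (fun h3 hq => (hx v h3 hq).2.1.1) hd
  refine ⟨fun v j => (nK v : ℂ) ^ h * β v j, fun v hv => ?_, ?_⟩
  · -- the numbers of points
    obtain ⟨g1, g2, g3⟩ := hgood v hv
    obtain ⟨c1, c2⟩ := b3 v g1 (fun i hi => by
      obtain ⟨t1, t2⟩ := inertia_triv hz hF (h3w v hv) (hdw v hv) hi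
      exact op_one true t1 t2) (fun i hi => by
      obtain ⟨t1, t2⟩ := inertia_triv hz hF (h3w v hv) (hdw v hv) hi
      exact op_one false t1 t2)
    have hnm : Nat.card (𝓞 K ⧸ v.asIdeal) = nK v := Pool.Agent.Y696.card_nm v
    intro k _ _ g r hg hr'
    have hm3 : nK v % 3 = 1 ∨ nK v % 3 = 2 := by
      have h5 := Pool.Agent.K7.H65.FP.card_mod3 g1
      rwa [Pool.Agent.Y696.card_nm] at h5
    have hQ : Fintype.card k = nK v ^ r := by rw [hr', hnm]
    have hQC : (Fintype.card k : ℂ) = (nK v : ℂ) ^ r := by rw [hQ]; push_cast; rfl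
    have hsum : ∑ j, ((nK v : ℂ) ^ h * β v j) ^ r =
        (Fintype.card k : ℂ) ^ h * ∑ j, β v j ^ r := by
      rw [Finset.mul_sum]
      refine Finset.sum_congr rfl fun j _ => ?_
      rw [mul_pow, hQC, ← pow_mul, ← pow_mul, mul_comm h r]
    have hgoal : (1 : ℂ) + ((Fintype.card k : ℂ) - 1) *
        (∑ i ∈ Finset.range (m - 1), (Fintype.card k : ℂ) ^ i -
          ∑ j, ((nK v : ℂ) ^ h * β v j) ^ r) =
        (Fintype.card k : ℂ) ^ (m - 1) - ((Fintype.card k : ℂ) - 1) *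
          (Fintype.card k : ℂ) ^ h * ∑ j, β v j ^ r := by
      rw [hsum, ← geom (Fintype.card k : ℂ) (m - 1)]
      ring
    rw [hgoal]
    rcases hm3 with hq | hq
    · obtain ⟨x1, x2, x3⟩ := hx v g1 hq
      rw [c1 hq r, op_trace, op_trace]
      have h5 := count_a hz hF (hw v) g2 (hdw v hv) g1 (hφ' v) g hg rfl hQ hm hh x1
        (x := x v) (fun hzk h3k => x3 k g r hzk h3k hg hr')
      rw [h5]
    · rcases Nat.mod_two_eq_zero_or_one r with hr2 | hr2
      · obtain ⟨t', ht'⟩ : ∃ t', r = 2 * t' := ⟨r / 2, by omega⟩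
        rw [ht', (c2 hq).2 t', op_trace, op_trace]
        have h5 := count_c hz hF (hw v) g2 (hdw v hv) g1 (hφ' v) g hg rfl hQ hm hh hq hnm ht'
        rw [h5, ht']
        ring
      · rw [(c2 hq).1 r hr2, mul_zero, sub_zero]
        exact count_b hz hF (hw v) g2 (hdw v hv) g1 (hφ' v) g hg rfl hQ (by omega) hq hr2
  · -- the function
    let P : HeightOneSpectrum (𝓞 K) → ℂ → ℂ := fun v s => ∏ j, (1 - β v j * (nK v : ℂ) ^ (-s))
    have hq2 : ∀ v : HeightOneSpectrum (𝓞 K), 2 ≤ nK v := fun v =>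
      Pool.Agent.H921R2.TatePole.two_le_nm v
    have hP0 : ∀ v s, 1 ≤ s.re → P v s ≠ 0 := fun v s hs =>
      Finset.prod_ne_zero_iff.2 fun j _ => small (hq2 v) hs (b1 v j)
    have hPd : ∀ v, Differentiable ℂ (P v) := by
      intro v
      have h0 : (nK v : ℂ) ≠ 0 := by
        have := hq2 v
        have h1 : nK v ≠ 0 := by omega
        exact_mod_cast h1
      have h1 : Differentiable ℂ fun s : ℂ => (nK v : ℂ) ^ (-s) := by
        intro s
        exact (differentiableAt_id.neg).const_cpow (Or.inl h0)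
      exact Differentiable.fun_finsetProd fun j _ => by fun_prop
    have hfac : ∀ v s, fac (fun σ => (op true (p σ) (ν σ) : Module.End ℂ (HS m h → ℂ)))
        (fun σ => (op false (p σ) (ν σ) : Module.End ℂ (HS m h → ℂ))) (x v) v (w v) (φ v) s =
        (P v s)⁻¹ := by
      intro v s
      rw [b2 v s, Finset.prod_inv_distrib]
    have hPa : ∀ s, AnalyticAt ℂ (fun s : ℂ => ∏ v ∈ S, P v (s - h)) s := by
      intro s
      have hd : Differentiable ℂ (fun s : ℂ => ∏ v ∈ S, P v (s - h)) := by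
        refine Differentiable.fun_finsetProd fun v _ => ?_
        exact (hPd v).comp (differentiable_id.sub_const _)
      exact hd.analyticAt s
    have hsh : ∀ s, AnalyticAt ℂ (fun s : ℂ => s - h) s := fun s =>
      analyticAt_id.sub analyticAt_const
    refine ⟨fun s => Φ (s - h) * ∏ v ∈ S, P v (s - h), ?_, ?_, ?_, ?_⟩
    · intro s _
      refine MeromorphicAt.mul ?_ (hPa s).meromorphicAt
      exact (p1 (s - h) (Set.mem_univ _)).comp_analyticAt (g := fun s : ℂ => s - h) (hsh s)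
    · refine AnalyticAt.mul ?_ (hPa _)
      have h1 : ((h : ℂ) + 1) - h = 1 := by ring
      have h2 : AnalyticAt ℂ Φ (((h : ℂ) + 1) - h) := by rw [h1]; exact p2
      exact AnalyticAt.comp' (f := fun s : ℂ => s - h) h2 (hsh _)
    · have h1 : ((h : ℂ) + 1) - h = 1 := by ring
      simp only [h1]
      exact mul_ne_zero p4 (Finset.prod_ne_zero_iff.2 fun v _ => hP0 v 1 (by simp))
    · intro s hs
      have hs' : s - h ∈ HH := by
        show (3 / 2 : ℝ) < (s - h).re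
        rw [Complex.sub_re, Complex.natCast_re]
        linarith
      have h1 := hasProd_rem (p3 (s - h) hs') S fun v _ => by
        rw [hfac]
        refine inv_ne_zero (hP0 v _ ?_)
        have : (3 / 2 : ℝ) < (s - h).re := hs'
        linarith
      have h2 : ∏ v ∈ S, (fac (fun σ => (op true (p σ) (ν σ) : Module.End ℂ (HS m h → ℂ)))
        (fun σ => (op false (p σ) (ν σ) : Module.End ℂ (HS m h → ℂ))) (x v) v (w v) (φ v)
          (s - h))⁻¹ = ∏ v ∈ S, P v (s - h) :=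
        Finset.prod_congr rfl fun v _ => by rw [hfac, inv_inv]
      rw [h2] at h1
      refine h1.congr_fun fun v => ?_
      rw [b2]
      refine Finset.prod_congr rfl fun j _ => ?_
      have hnm : Nat.card (𝓞 K ⧸ v.1.asIdeal) = nK v.1 := Pool.Agent.Y696.card_nm v.1
      have h0 : (nK v.1 : ℂ) ≠ 0 := by
        have := hq2 v.1
        have h1 : nK v.1 ≠ 0 := by omega
        exact_mod_cast h1
      have e1 : (nK v.1 : ℂ) ^ (-(s - h)) = (nK v.1 : ℂ) ^ h * (nK v.1 : ℂ) ^ (-s) := by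
        rw [show -(s - h) = (h : ℂ) + -s by ring, Complex.cpow_add _ _ h0, Complex.cpow_natCast]
      rw [hnm, e1]
      congr 2
      ring

end

end Pool.Agent.H508.Q
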