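import Pool.Agent.H508.Q.A1

/-!
# The cube roots in the closure of a finite field
-/

set_option autoImplicit false
set_option linter.unusedSectionVars false

namespace Pool.Agent.H508.Q

open Pool.Agent.Y692.QS hiding chi Jc
open Pool.Agent.Y715.T.Cub
open Pool.Agent.H451.BB (X Y X_apply X_cube X_inv)
open scoped Classical

/-- the weight of a cube root of unity -/
noncomputable def kap (b : Bool) (ν : ℕ) : ℂ := toC (if b then w ^ (2 * ν) else w ^ ν)

lemma kap_add (b : Bool) (ν ν' : ℕ) : kap b (ν + ν') = kap b ν * kap b ν' := by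
  unfold kap
  rw [← map_mul]
  congr 1
  cases b
  · simp only [Bool.false_eq_true, if_false, pow_add]
  · simp only [if_true, mul_add, pow_add]

lemma kap_zero (b : Bool) : kap b 0 = 1 := by
  unfold kap
  cases b <;> simp

lemma kap_sum {ι : Type} (s : Finset ι) (b : Bool) (ν : ι → ℕ) :
    kap b (∑ i ∈ s, ν i) = ∏ i ∈ s, kap b (ν i) := by
  induction s using Finset.induction_on with
  | empty => rw [Finset.sum_empty, Finset.prod_empty, kap_zero]
  | insert a s ha ih => rw [Finset.sum_insert ha, Finset.prod_insert ha, kap_add, ih]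

lemma w_pow_cube (n : ℕ) : (w ^ n : Ei) ^ 3 = 1 := by
  rw [← pow_mul, mul_comm, pow_mul, w_cube, one_pow]

/-- the sum over the characters vanishes -/
lemma sum_zero {g : Ei} (hg : g ^ 3 = 1) {ν : ℕ} (h : g ≠ w ^ ν) :
    1 + kap true ν * toC g + kap false ν * toC g ^ 2 = 0 := by
  have hG3 : (toC (w ^ (2 * ν) * g)) ^ 3 = 1 := by
    rw [← map_pow, mul_pow, w_pow_cube, hg, one_mul, map_one]
  have hG1 : toC (w ^ (2 * ν) * g) ≠ 1 := by
    intro h5
    rw [← map_one toC] at h5
    have h6 := toC_inj h5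
    apply h
    calc g = w ^ (3 * ν) * g := by rw [pow_mul, w_cube, one_pow, one_mul]
      _ = w ^ ν * (w ^ (2 * ν) * g) := by
        rw [← mul_assoc, ← pow_add, show ν + 2 * ν = 3 * ν by ring]
      _ = w ^ ν := by rw [h6, mul_one]
  have h1 : kap true ν * toC g = toC (w ^ (2 * ν) * g) := by
    unfold kap
    rw [if_pos rfl, map_mul]
  have h2 : kap false ν * toC g ^ 2 = toC (w ^ (2 * ν) * g) ^ 2 := by
    unfold kap
    rw [if_neg (by simp), ← map_pow, ← map_pow, ← map_mul]
    congr 1
    rw [mul_pow, ← pow_mul, show 2 * ν * 2 = 3 * ν + ν by ring, pow_add, pow_mul w 3, w_cube,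
      one_pow, one_mul]
  rw [h1, h2]
  have h6 : (toC (w ^ (2 * ν) * g) - 1) * (1 + toC (w ^ (2 * ν) * g) +
      toC (w ^ (2 * ν) * g) ^ 2) = 0 := by linear_combination hG3
  exact (mul_eq_zero.1 h6).resolve_left (sub_ne_zero.2 hG1)

/-- the sum over the characters is three -/
lemma sum_three (ν : ℕ) :
    1 + kap true ν * toC (w ^ ν) + kap false ν * toC (w ^ ν) ^ 2 = 3 := by
  have h1 : kap true ν * toC (w ^ ν) = 1 := by
    unfold kap
    rw [if_pos rfl, ← map_mul, ← pow_add, show 2 * ν + ν = 3 * ν by ring, pow_mul, w_cube,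
      one_pow, map_one]
  have h2 : kap false ν * toC (w ^ ν) ^ 2 = 1 := by
    unfold kap
    rw [if_neg (by simp), ← map_pow, ← map_mul, ← pow_mul, ← pow_add,
      show ν + ν * 2 = 3 * ν by ring, pow_mul, w_cube, one_pow, map_one]
  rw [h1, h2]
  norm_num

section fld
variable {Ω : Type} [Field Ω] {z : Ω} (hz : z * z = -1 - z) (h3 : (3 : Ω) ≠ 0)

include hz h3 in
/-- the three cube roots -/
lemma three_roots {u : Ω} (hu : u ≠ 0) {T : Finset Ω} {y0 : Ω} (hy0 : y0 ^ 3 = u)
    (hT : ∀ y, y ∈ T ↔ y ^ 3 = u) : T.card = 3 := by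
  obtain ⟨n1, n2, n3⟩ := z_ne hz h3
  have hc := z_cube hz
  have hy00 : y0 ≠ 0 := by
    rintro rfl
    rw [zero_pow (by norm_num)] at hy0
    exact hu hy0.symm
  have e : T = {y0, z * y0, z ^ 2 * y0} := by
    ext y
    rw [hT]
    simp only [Finset.mem_insert, Finset.mem_singleton]
    constructor
    · intro h5
      have h4 : (y / y0) ^ 3 = 1 := by
        rw [div_pow, h5, hy0, div_self hu]
      rcases root_cases hz h4 with h5 | h5 | h5
      · left
        rwa [div_eq_one_iff_eq hy00] at h5
      · right; left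
        rwa [div_eq_iff hy00] at h5
      · right; right
        rwa [div_eq_iff hy00] at h5
    · rintro (rfl | rfl | rfl)
      · exact hy0
      · rw [mul_pow, hc, one_mul, hy0]
      · rw [mul_pow, ← pow_mul, mul_comm 2 3, pow_mul, hc, one_pow, one_mul, hy0]
  rw [e, Finset.card_insert_of_notMem, Finset.card_insert_of_notMem, Finset.card_singleton]
  · rw [Finset.mem_singleton]
    intro h5
    exact n3 (mul_right_cancel₀ hy00 h5).symm
  · rw [Finset.mem_insert, Finset.mem_singleton]
    rintro (h5 | h5)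
    · exact n1 (mul_right_cancel₀ hy00 (by rw [one_mul]; exact h5)).symm
    · exact n2 (mul_right_cancel₀ hy00 (by rw [one_mul]; exact h5)).symm

end fld

section
variable {k : Type} [Field k] [Fintype k] {Ω : Type} [Field Ω] [Algebra k Ω] [IsAlgClosed Ω]
  {z : k} (hz : z * z = -1 - z) (h3 : (3 : k) ≠ 0)

lemma z_map {A : Type} [CommRing A] [Algebra k A] (hz : z * z = -1 - z) :
    algebraMap k A z * algebraMap k A z = -1 - algebraMap k A z := by
  rw [← map_mul, hz, map_sub, map_neg, map_one]

lemma three_map {A : Type} [Field A] [Algebra k A] (h3 : (3 : k) ≠ 0) : (3 : A) ≠ 0 := by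
  intro h
  apply h3
  apply (algebraMap k A).injective
  rw [map_ofNat, map_zero, h]

/-- the residue symbol in the closure -/
lemma red_up {E : IntermediateField k Ω} [Fintype E] {n : ℕ}
    (hn : (Fintype.card E - 1) / 3 = n) (u : E) :
    hom (algebraMap k Ω z) (z_map hz) (chi (z_map (A := E) hz) (three_map h3) u) =
      (u : Ω) ^ n := by
  have h1 := chi_red (z_map (A := E) hz) (three_map h3) u
  rw [hn, hom_apply] at h1
  have h2 := congrArg (algebraMap E Ω) h1
  rw [map_add, map_mul, map_intCast, map_intCast, map_pow] at h2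
  rw [hom_apply]
  exact h2

include hz h3 in
/-- the cube roots in the closure -/
theorem fiber {E : IntermediateField k Ω} [Fintype E] {q : ℕ} (hq : Fintype.card E = q)
    (ν : ℕ) (u : E) {T : Finset Ω}
    (hT : ∀ y, y ∈ T ↔ y ^ q = algebraMap k Ω z ^ ν * y ∧ y ^ 3 = (u : Ω)) :
    (T.card : ℂ) = 1 + kap true ν * X (z_map (A := E) hz) (three_map h3) u +
        kap false ν * (X (z_map (A := E) hz) (three_map h3))⁻¹ u := by
  have hq1 : 1 < q := by rw [← hq]; exact Fintype.one_lt_card
  have hzz : algebraMap k Ω z * algebraMap k Ω z = -1 - algebraMap k Ω z := z_map hz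
  have h3Ω : (3 : Ω) ≠ 0 := three_map h3
  by_cases hu : u = 0
  · have e : T = {0} := by
      ext y
      rw [hT, Finset.mem_singleton, hu]
      constructor
      · rintro ⟨-, h⟩
        exact (pow_eq_zero_iff (three_ne_zero)).1 h
      · rintro rfl
        exact ⟨by rw [zero_pow (by omega), mul_zero], zero_pow (three_ne_zero)⟩
    rw [e, Finset.card_singleton, hu, MulChar.map_zero, MulChar.map_zero, mul_zero, mul_zero,
      add_zero, add_zero, Nat.cast_one]
  have huΩ : (u : Ω) ≠ 0 := fun h => hu (Subtype.ext h)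
  have h3q : 3 ∣ Fintype.card E - 1 := card_mod (z_map (A := E) hz) (three_map h3)
  obtain ⟨n, hn⟩ := h3q
  have hqn : q = n * 3 + 1 := by omega
  have hdiv : (Fintype.card E - 1) / 3 = n := by omega
  have hred := red_up hz h3 hdiv u
  have hg3 : (chi (z_map (A := E) hz) (three_map h3) u) ^ 3 = 1 :=
    chi_cube (z_map (A := E) hz) (three_map h3) hu
  have hX : X (z_map (A := E) hz) (three_map h3) u =
    toC (chi (z_map (A := E) hz) (three_map h3) u) :=
    X_apply (z_map (A := E) hz) (three_map h3) u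
  have hXi : (X (z_map (A := E) hz) (three_map h3))⁻¹ u =
      toC (chi (z_map (A := E) hz) (three_map h3) u) ^ 2 := by
    rw [X_inv, MulChar.pow_apply' _ two_ne_zero, hX]
  rw [hX, hXi]
  generalize chi (z_map (A := E) hz) (three_map h3) u = g at hred hg3 ⊢
  have hy : ∀ y : Ω, y ^ 3 = u → (y ^ q = algebraMap k Ω z ^ ν * y ↔
      (u : Ω) ^ n = algebraMap k Ω z ^ ν) := by
    intro y hy
    have hy0 : y ≠ 0 := by
      rintro rfl
      rw [zero_pow (three_ne_zero)] at hy
      exact huΩ hy.symm
    rw [hqn, pow_succ, mul_comm n 3, pow_mul, hy]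
    exact mul_left_inj' hy0
  have hcond : (u : Ω) ^ n = algebraMap k Ω z ^ ν ↔ g = w ^ ν := by
    rw [← hred]
    constructor
    · intro h
      refine hom_inj hzz h3Ω hg3 (w_pow_cube ν) ?_
      rw [h, map_pow, hom_w]
    · intro h
      rw [h, map_pow, hom_w]
  by_cases h : g = w ^ ν
  · obtain ⟨y0, hy0⟩ := IsAlgClosed.exists_pow_nat_eq (u : Ω) (n := 3) (by norm_num)
    have h4 : T.card = 3 := by
      refine three_roots hzz h3Ω huΩ hy0 fun y => ?_
      rw [hT]
      exact ⟨fun h5 => h5.2, fun h5 => ⟨(hy y h5).2 (hcond.2 h), h5⟩⟩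
    rw [h4, h, sum_three]
    norm_num
  · have e : T = ∅ := by
      rw [Finset.eq_empty_iff_forall_notMem]
      intro y hyT
      rw [hT] at hyT
      exact h (hcond.1 ((hy y hyT.2).1 hyT.1))
    rw [e, Finset.card_empty, sum_zero hg3 h, Nat.cast_zero]

end

end Pool.Agent.H508.Q
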