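import Pool.Agent.H508.Q.A2
import Mathlib.GroupTheory.Perm.Option

/-!
# The alternating sum over the invariant colourings
-/

set_option autoImplicit false
set_option linter.unusedSectionVars false

namespace Pool.Agent.H508.Q

open scoped Classical

section comb
variable {α : Type} [Fintype α]

/-- the alternating sum over the invariant colourings -/
noncomputable def rs (p : Equiv.Perm α) (W : α → Bool → ℂ) : ℂ :=
  ((Equiv.Perm.sign p : ℤ) : ℂ) *
    ∑ e : α → Bool, if ∀ i, e (p i) = e i then ∏ i, W i (e i) else 0

/-- the sum over the colourings of an option type -/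
lemma sum_opt {I : Fintype (Option α → Bool)} (f : (Option α → Bool) → ℂ) :
    ∑ e : Option α → Bool, f e =
    ∑ c : Bool, ∑ e : α → Bool, f (Equiv.piOptionEquivProd.symm (c, e)) := by
  rw [← Equiv.sum_comp (Equiv.piOptionEquivProd (β := fun _ : Option α => Bool)).symm f,
    Fintype.sum_prod_type]

lemma sign_none {I : DecidableEq (Option α)} {p : Equiv.Perm (Option α)} (h : p none = none) :
    Equiv.Perm.sign p = Equiv.Perm.sign (Equiv.removeNone p) := by
  have hI : I = Option.instDecidableEq := Subsingleton.elim _ _
  subst hI
  have h1 := Equiv.Perm.decomposeOption.symm_apply_apply p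
  rw [Equiv.Perm.decomposeOption_apply, h] at h1
  conv_lhs => rw [← h1]
  rw [Equiv.Perm.decomposeOption_symm_sign]

lemma sign_some {I : DecidableEq (Option α)} {p : Equiv.Perm (Option α)} {b : α}
    (h : p none = some b) : Equiv.Perm.sign p = -Equiv.Perm.sign (Equiv.removeNone p) := by
  have hI : I = Option.instDecidableEq := Subsingleton.elim _ _
  subst hI
  have h1 := Equiv.Perm.decomposeOption.symm_apply_apply p
  rw [Equiv.Perm.decomposeOption_apply, h] at h1
  conv_lhs => rw [← h1]
  rw [Equiv.Perm.decomposeOption_symm_apply, Equiv.Perm.sign_mul, Equiv.Perm.sign_swap (by simp),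
    Equiv.optionCongr_sign, neg_one_mul]

omit [Fintype α] in
lemma rem_none {p : Equiv.Perm (Option α)} (h : p none = none) (a : α) :
    some (Equiv.removeNone p a) = p (some a) := by
  apply Equiv.removeNone_some
  apply Option.ne_none_iff_exists'.1
  intro h2
  have h3 := p.injective (h2.trans h.symm)
  simp at h3

omit [Fintype α] in
/-- the index before `none` -/
lemma exists_pre {p : Equiv.Perm (Option α)} {b : α} (h : p none = some b) :
    ∃ a₀, p (some a₀) = none := by
  have h1 : p.symm none ≠ none := fun h2 => by
    rw [Equiv.symm_apply_eq, h] at h2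
    simp at h2
  obtain ⟨a, ha⟩ := Option.ne_none_iff_exists'.1 h1
  exact ⟨a, by rw [← ha, Equiv.apply_symm_apply]⟩

omit [Fintype α] in
lemma rem_ne {p : Equiv.Perm (Option α)} {a₀ : α} (h : p (some a₀) = none) {a : α} (ha : a ≠ a₀) :
    some (Equiv.removeNone p a) = p (some a) := by
  apply Equiv.removeNone_some
  apply Option.ne_none_iff_exists'.1
  intro h2
  exact ha (Option.some_injective _ (p.injective (h2.trans h.symm)))

theorem rs_none {p : Equiv.Perm (Option α)} (h : p none = none) (W : Option α → Bool → ℂ) :
    rs p W = (∑ c : Bool, W none c) * rs (Equiv.removeNone p) (fun a => W (some a)) := by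
  unfold rs
  rw [sum_opt, sign_none h]
  have h1 : ∀ (c : Bool) (e : α → Bool),
      (if ∀ i, (Equiv.piOptionEquivProd (β := fun _ : Option α => Bool)).symm (c, e) (p i) =
        (Equiv.piOptionEquivProd (β := fun _ : Option α => Bool)).symm (c, e) i then
        ∏ i, W i ((Equiv.piOptionEquivProd (β := fun _ : Option α => Bool)).symm (c, e) i) else 0) =
      W none c * (if ∀ i, e (Equiv.removeNone p i) = e i then ∏ i, W (some i) (e i) else 0) := by
    intro c e
    have h2 : (∀ i, (Equiv.piOptionEquivProd (β := fun _ : Option α => Bool)).symm (c, e) (p i) =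
        (Equiv.piOptionEquivProd (β := fun _ : Option α => Bool)).symm (c, e) i) ↔
        ∀ i, e (Equiv.removeNone p i) = e i := by
      constructor
      · intro h3 i
        have h4 := h3 (some i)
        rw [← rem_none h] at h4
        exact h4
      · intro h3 i
        rcases i with _ | i
        · rw [h]
        · rw [← rem_none h]
          exact h3 i
    rw [Fintype.prod_option]
    by_cases h5 : ∀ i, e (Equiv.removeNone p i) = e i
    · rw [if_pos (h2.2 h5), if_pos h5]
      rfl
    · rw [if_neg (fun h6 => h5 (h2.1 h6)), if_neg h5, mul_zero]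
  simp only [h1]
  simp only [← Finset.mul_sum, ← Finset.sum_mul]
  ring

theorem rs_some {p : Equiv.Perm (Option α)} {b a₀ : α} (h : p none = some b)
    (h0 : p (some a₀) = none) (W : Option α → Bool → ℂ) :
    rs p W = rs (Equiv.removeNone p)
      (fun a c => W (some a) c * if a = a₀ then -(W none c) else 1) := by
  have hb : Equiv.removeNone p a₀ = b := by
    apply Option.some_injective
    rw [Equiv.removeNone_none _ h0, h]
  unfold rs
  rw [sum_opt, sign_some h, Finset.sum_comm]
  have h1 : ∀ (e : α → Bool), ∑ c : Bool,
      (if ∀ i, (Equiv.piOptionEquivProd (β := fun _ : Option α => Bool)).symm (c, e) (p i) =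
        (Equiv.piOptionEquivProd (β := fun _ : Option α => Bool)).symm (c, e) i then
        ∏ i, W i ((Equiv.piOptionEquivProd (β := fun _ : Option α => Bool)).symm (c, e) i) else 0) =
      -(if ∀ i, e (Equiv.removeNone p i) = e i then
        ∏ i, (W (some i) (e i) * if i = a₀ then -(W none (e i)) else 1) else 0) := by
    intro e
    have h2 : ∀ c : Bool,
        (∀ i, (Equiv.piOptionEquivProd (β := fun _ : Option α => Bool)).symm (c, e) (p i) =
        (Equiv.piOptionEquivProd (β := fun _ : Option α => Bool)).symm (c, e) i) ↔
        e a₀ = c ∧ ∀ i, e (Equiv.removeNone p i) = e i := by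
      intro c
      constructor
      · intro h3
        have h4 := h3 (some a₀)
        rw [h0] at h4
        have h5 : c = e a₀ := h4
        refine ⟨h5.symm, fun i => ?_⟩
        by_cases hi : i = a₀
        · rw [hi, hb]
          have h6 := h3 none
          rw [h] at h6
          have h7 : e b = c := h6
          rw [h7, h5]
        · have h6 := h3 (some i)
          rw [← rem_ne h0 hi] at h6
          exact h6
      · rintro ⟨h3, h4⟩ i
        rcases i with _ | i
        · rw [h]
          show e b = c
          rw [← hb, h4, h3]
        · by_cases hi : i = a₀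
          · rw [hi, h0]
            exact h3.symm
          · rw [← rem_ne h0 hi]
            exact h4 i
    by_cases h5 : ∀ i, e (Equiv.removeNone p i) = e i
    · have h6 : ∀ c : Bool,
          (if ∀ i, (Equiv.piOptionEquivProd (β := fun _ : Option α => Bool)).symm (c, e) (p i) =
          (Equiv.piOptionEquivProd (β := fun _ : Option α => Bool)).symm (c, e) i then
          ∏ i, W i ((Equiv.piOptionEquivProd (β := fun _ : Option α => Bool)).symm (c, e) i) else 0)
          = if e a₀ = c then W none c * ∏ i, W (some i) (e i) else 0 := by
        intro c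
        by_cases h7 : e a₀ = c
        · rw [if_pos ((h2 c).2 ⟨h7, h5⟩), if_pos h7, Fintype.prod_option]
          rfl
        · rw [if_neg (fun h8 => h7 ((h2 c).1 h8).1), if_neg h7]
      simp only [h6]
      rw [Finset.sum_ite_eq, if_pos (Finset.mem_univ _), if_pos h5, Finset.prod_mul_distrib,
        Finset.prod_ite_eq', if_pos (Finset.mem_univ _)]
      ring
    · rw [if_neg h5, neg_zero]
      exact Finset.sum_eq_zero fun c _ => if_neg fun h6 => h5 ((h2 c).1 h6).2
  simp only [h1]
  rw [Finset.sum_neg_distrib, Units.val_neg, Int.cast_neg]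
  ring

/-- relabelling -/
theorem rs_equiv {β : Type} [Fintype β] (E : α ≃ β) (p : Equiv.Perm β) (W : β → Bool → ℂ) :
    rs p W = rs ((E.trans p).trans E.symm) (fun a => W (E a)) := by
  unfold rs
  congr 1
  · congr 1
    have := Equiv.Perm.sign_symm_trans_trans p E.symm
    rw [← this]
    rfl
  · symm
    refine Fintype.sum_equiv (Equiv.arrowCongr E (Equiv.refl Bool)) _ _ fun e => ?_
    have h2 : (∀ i, e (((E.trans p).trans E.symm) i) = e i) ↔
        ∀ i, (Equiv.arrowCongr E (Equiv.refl Bool)) e (p i) =
          (Equiv.arrowCongr E (Equiv.refl Bool)) e i := by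
      constructor
      · intro h i
        have := h (E.symm i)
        simpa using this
      · intro h i
        have := h (E i)
        simpa using this
    have h3 : ∏ i, W (E i) (e i) = ∏ i, W i ((Equiv.arrowCongr E (Equiv.refl Bool)) e i) := by
      refine Fintype.prod_equiv E _ _ fun i => ?_
      simp
    by_cases h5 : ∀ i, e (((E.trans p).trans E.symm) i) = e i
    · rw [if_pos h5, if_pos (h2.1 h5), h3]
    · rw [if_neg h5, if_neg (fun h6 => h5 (h2.2 h6))]

end comb

end Pool.Agent.H508.Q
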