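import Pool.Agent.H508.Q.A3

/-!
# Sums over the points of a twisted space
-/

set_option autoImplicit false
set_option linter.unusedSectionVars false

namespace Pool.Agent.H508.Q

open scoped Classical

section vv
variable {Ω : Type} [Field Ω] (Q : ℕ) (ζ : Ω)

/-- the points of the twisted space -/
abbrev VV {α : Type} (p : Equiv.Perm α) (f ν : α → ℕ) : Type :=
  {y : α → Ω // ∀ i, y i ^ (Q ^ f i) = ζ ^ ν i * y (p i)}

/-- the case of one variable -/
abbrev V1 (f ν : ℕ) : Type := {y : Ω // y ^ (Q ^ f) = ζ ^ ν * y}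

/-- the trace -/
def tt (f : ℕ) (u : Ω) : Ω := ∑ j ∈ Finset.range f, u ^ (Q ^ j)

lemma tt_add (f g : ℕ) (u : Ω) : tt Q (f + g) u = tt Q f u + tt Q g (u ^ (Q ^ f)) := by
  unfold tt
  rw [Finset.sum_range_add]
  congr 1
  refine Finset.sum_congr rfl fun j _ => ?_
  rw [← pow_mul, ← pow_add]

/-- the sum over the points -/
noncomputable def Ph (Ψ : Ω → ℂ) {α : Type} [Fintype α] (p : Equiv.Perm α) (f ν : α → ℕ) : ℂ :=
  ∑ᶠ y : VV Q ζ p f ν, ∏ i, Ψ (tt Q (f i) (y.1 i ^ 3))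

/-- the sum over the points in one variable -/
noncomputable def P1 (Ψ : Ω → ℂ) (f ν : ℕ) : ℂ :=
  ∑ᶠ y : V1 Q ζ f ν, Ψ (tt Q f (y.1 ^ 3))

variable {Q ζ} {α : Type} {p : Equiv.Perm (Option α)} {f ν : Option α → ℕ}

/-- the first case -/
def eN (h : p none = none) : VV Q ζ p f ν ≃ V1 Q ζ (f none) (ν none) ×
    VV Q ζ (Equiv.removeNone p) (fun a => f (some a)) (fun a => ν (some a)) where
  toFun y := (⟨y.1 none, by rw [y.2 none, h]⟩, ⟨fun a => y.1 (some a), fun a => by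
    show y.1 (some a) ^ (Q ^ f (some a)) = ζ ^ ν (some a) * y.1 (some (Equiv.removeNone p a))
    rw [y.2 (some a), rem_none h]⟩)
  invFun u := ⟨fun i => Option.casesOn i u.1.1 u.2.1, fun i => by
    rcases i with _ | i
    · rw [h]
      exact u.1.2
    · rw [← rem_none h]
      exact u.2.2 i⟩
  left_inv y := by
    apply Subtype.ext
    funext i
    rcases i with _ | i <;> rfl
  right_inv u := rfl

theorem ph_none [Fintype α] (Ψ : Ω → ℂ) (h : p none = none) (hf1 : Finite (V1 Q ζ (f none) (ν none)))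
    (hf2 : Finite (VV Q ζ (Equiv.removeNone p) (fun a => f (some a)) (fun a => ν (some a)))) :
    Finite (VV Q ζ p f ν) ∧ Ph Q ζ Ψ p f ν = P1 Q ζ Ψ (f none) (ν none) *
      Ph Q ζ Ψ (Equiv.removeNone p) (fun a => f (some a)) (fun a => ν (some a)) := by
  refine ⟨Finite.of_equiv _ (eN h).symm, ?_⟩
  have _ := Fintype.ofFinite (V1 Q ζ (f none) (ν none))
  have _ := Fintype.ofFinite
    (VV Q ζ (Equiv.removeNone p) (fun a => f (some a)) (fun a => ν (some a)))
  unfold Ph P1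
  rw [← finsum_comp_equiv (eN (Q := Q) (ζ := ζ) (f := f) (ν := ν) h).symm,
    finsum_eq_sum_of_fintype, finsum_eq_sum_of_fintype, finsum_eq_sum_of_fintype,
    Finset.sum_mul_sum, Fintype.sum_prod_type]
  refine Finset.sum_congr rfl fun y _ => Finset.sum_congr rfl fun y' _ => ?_
  rw [Fintype.prod_option]
  rfl

/-- the exponents -/
noncomputable def fS (f : Option α → ℕ) (a₀ : α) (a : α) : ℕ := f (some a) + if a = a₀ then f none else 0

/-- the twists -/
noncomputable def nS (Q : ℕ) (f ν : Option α → ℕ) (a₀ : α) (a : α) : ℕ :=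
  if a = a₀ then ν none + ν (some a₀) * Q ^ f none else ν (some a)

lemma restr (hζ : ζ ≠ 0) {b a₀ : α} (h : p none = some b) (h0 : p (some a₀) = none)
    (y : VV Q ζ p f ν) (a : α) :
    y.1 (some a) ^ (Q ^ fS f a₀ a) = ζ ^ nS Q f ν a₀ a * y.1 (some (Equiv.removeNone p a)) := by
  unfold fS nS
  by_cases ha : a = a₀
  · rw [if_pos ha, if_pos ha, pow_add, pow_mul, ha, y.2 (some a₀), h0, mul_pow, y.2 none, h,
      Equiv.removeNone_none _ h0, h, ← pow_mul, pow_add]
    ring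
  · rw [if_neg ha, if_neg ha, add_zero, y.2 (some a), rem_ne h0 ha]

/-- the second case -/
noncomputable def eS (hζ : ζ ≠ 0) {b a₀ : α} (h : p none = some b) (h0 : p (some a₀) = none) :
    VV Q ζ p f ν ≃ VV Q ζ (Equiv.removeNone p) (fS f a₀) (nS Q f ν a₀) where
  toFun y := ⟨fun a => y.1 (some a), fun a => restr hζ h h0 y a⟩
  invFun u := ⟨fun i => Option.casesOn i ((ζ ^ ν (some a₀))⁻¹ * u.1 a₀ ^ (Q ^ f (some a₀))) u.1,
    fun i => by
      have hz : ζ ^ ν (some a₀) ≠ 0 := pow_ne_zero _ hζ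
      rcases i with _ | i
      · show ((ζ ^ ν (some a₀))⁻¹ * u.1 a₀ ^ (Q ^ f (some a₀))) ^ (Q ^ f none) = _
        rw [h]
        show _ = ζ ^ ν none * u.1 b
        have h1 := u.2 a₀
        unfold fS nS at h1
        have hb : Equiv.removeNone p a₀ = b := by
          apply Option.some_injective
          rw [Equiv.removeNone_none _ h0, h]
        rw [if_pos rfl, if_pos rfl, hb, pow_add Q, pow_mul] at h1
        rw [mul_pow, h1, inv_pow, ← pow_mul, pow_add]
        field_simp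
      · by_cases hi : i = a₀
        · rw [hi, h0]
          show u.1 a₀ ^ (Q ^ f (some a₀)) =
            ζ ^ ν (some a₀) * ((ζ ^ ν (some a₀))⁻¹ * u.1 a₀ ^ (Q ^ f (some a₀)))
          rw [← mul_assoc, mul_inv_cancel₀ hz, one_mul]
        · rw [← rem_ne h0 hi]
          have h1 := u.2 i
          unfold fS nS at h1
          rw [if_neg hi, if_neg hi, add_zero] at h1
          exact h1⟩
  left_inv y := by
    apply Subtype.ext
    funext i
    rcases i with _ | i
    · show (ζ ^ ν (some a₀))⁻¹ * y.1 (some a₀) ^ (Q ^ f (some a₀)) = y.1 none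
      rw [y.2 (some a₀), h0, ← mul_assoc, inv_mul_cancel₀ (pow_ne_zero _ hζ), one_mul]
    · rfl
  right_inv u := rfl

theorem ph_some [Fintype α] {Ψ : Ω → ℂ} (hΨ : ∀ x y, Ψ (x + y) = Ψ x * Ψ y) (hζ : ζ ^ 3 = 1)
    {b a₀ : α} (h : p none = some b) (h0 : p (some a₀) = none)
    (hf2 : Finite (VV Q ζ (Equiv.removeNone p) (fS f a₀) (nS Q f ν a₀))) :
    Finite (VV Q ζ p f ν) ∧
      Ph Q ζ Ψ p f ν = Ph Q ζ Ψ (Equiv.removeNone p) (fS f a₀) (nS Q f ν a₀) := by
  have hζ0 : ζ ≠ 0 := by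
    rintro rfl
    rw [zero_pow (three_ne_zero)] at hζ
    exact zero_ne_one hζ
  refine ⟨Finite.of_equiv _ (eS hζ0 h h0).symm, ?_⟩
  unfold Ph
  rw [← finsum_comp_equiv (eS (Q := Q) (f := f) (ν := ν) hζ0 h h0)]
  refine finsum_congr fun y => ?_
  have h1 : ∀ a : α, Ψ (tt Q (fS f a₀ a) (((eS (Q := Q) (f := f) (ν := ν) hζ0 h h0) y).1 a ^ 3)) =
      Ψ (tt Q (f (some a)) (y.1 (some a) ^ 3)) *
        if a = a₀ then Ψ (tt Q (f none) (y.1 none ^ 3)) else 1 := by
    intro a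
    show Ψ (tt Q (fS f a₀ a) (y.1 (some a) ^ 3)) = _
    unfold fS
    by_cases ha : a = a₀
    · rw [if_pos ha, if_pos ha, tt_add, hΨ, ha]
      congr 3
      rw [← pow_mul, mul_comm 3, pow_mul, y.2 (some a₀), h0, mul_pow, ← pow_mul, mul_comm _ 3,
        pow_mul, hζ, one_pow, one_mul]
    · rw [if_neg ha, if_neg ha, add_zero, mul_one]
  rw [Finset.prod_congr rfl fun a _ => h1 a, Finset.prod_mul_distrib, Finset.prod_ite_eq',
    if_pos (Finset.mem_univ _), Fintype.prod_option, mul_comm]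

/-- relabelling -/
def eE {β : Type} (E : α ≃ β) (p : Equiv.Perm β) (f ν : β → ℕ) :
    VV Q ζ p f ν ≃ VV Q ζ ((E.trans p).trans E.symm) (fun a => f (E a)) (fun a => ν (E a)) where
  toFun y := ⟨fun a => y.1 (E a), fun a => by
    rw [y.2 (E a)]
    simp⟩
  invFun u := ⟨fun b => u.1 (E.symm b), fun b => by
    have := u.2 (E.symm b)
    simpa using this⟩
  left_inv y := by
    apply Subtype.ext
    funext i
    simp
  right_inv u := by
    apply Subtype.ext
    funext i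
    simp

theorem ph_equiv {β : Type} [Fintype α] [Fintype β] (Ψ : Ω → ℂ) (E : α ≃ β) (p : Equiv.Perm β)
    (f ν : β → ℕ) : Ph Q ζ Ψ p f ν =
      Ph Q ζ Ψ ((E.trans p).trans E.symm) (fun a => f (E a)) (fun a => ν (E a)) := by
  unfold Ph
  rw [← finsum_comp_equiv (eE (Q := Q) (ζ := ζ) E p f ν)]
  refine finsum_congr fun y => ?_
  symm
  refine Fintype.prod_equiv E _ _ fun i => ?_
  rfl

end vv

section ind
variable {Ω : Type} [Field Ω] {Q : ℕ} {ζ : Ω} {Ψ : Ω → ℂ}

/-- the sum over the points -/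
theorem ph_main (hΨ : ∀ x y, Ψ (x + y) = Ψ x * Ψ y) (hζ : ζ ^ 3 = 1) (T : ℕ → ℕ → Bool → ℂ)
    (h1 : ∀ f ν, 0 < f → Finite (V1 Q ζ f ν) ∧ P1 Q ζ Ψ f ν = ∑ c, T f ν c)
    (h2 : ∀ f g ν ν' c, 0 < f → 0 < g → T (f + g) (ν' + ν * Q ^ g) c = -(T f ν c * T g ν' c))
    (α : Type) [Fintype α] : ∀ (p : Equiv.Perm α) (f ν : α → ℕ), (∀ i, 0 < f i) →
      Finite (VV Q ζ p f ν) ∧ Ph Q ζ Ψ p f ν = rs p (fun i c => T (f i) (ν i) c) := by
  refine Fintype.induction_empty_option
    (P := fun α [Fintype α] => ∀ (p : Equiv.Perm α) (f ν : α → ℕ), (∀ i, 0 < f i) →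
      Finite (VV Q ζ p f ν) ∧ Ph Q ζ Ψ p f ν = rs p (fun i c => T (f i) (ν i) c)) ?_ ?_ ?_ α
  · intro α β _ E ih p f ν hf
    let _ : Fintype α := Fintype.ofEquiv β E.symm
    obtain ⟨i1, i2⟩ := ih ((E.trans p).trans E.symm) (fun a => f (E a)) (fun a => ν (E a))
      fun a => hf _
    refine ⟨Finite.of_equiv _ (eE (Q := Q) (ζ := ζ) E p f ν).symm, ?_⟩
    rw [ph_equiv Ψ E p f ν, rs_equiv E p]
    exact i2
  · intro p f ν hf
    obtain rfl : p = 1 := Subsingleton.elim _ _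
    have hu : Unique (VV Q ζ (1 : Equiv.Perm PEmpty.{1}) f ν) :=
      { default := ⟨fun i => i.elim, fun i => i.elim⟩
        uniq := fun y => Subtype.ext (funext fun i => i.elim) }
    refine ⟨inferInstance, ?_⟩
    unfold Ph rs
    rw [finsum_eq_sum_of_fintype, Fintype.sum_unique, Fintype.sum_unique]
    rw [map_one]
    simp
  · intro α _ ih p f ν hf
    rcases hp : p none with _ | b
    · obtain ⟨i1, i2⟩ := ih (Equiv.removeNone p) (fun a => f (some a)) (fun a => ν (some a))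
        fun a => hf _
      obtain ⟨j1, j2⟩ := h1 (f none) (ν none) (hf none)
      obtain ⟨k1, k2⟩ := ph_none (Q := Q) (ζ := ζ) Ψ hp j1 i1
      exact ⟨k1, by rw [k2, rs_none hp, i2, j2]⟩
    · obtain ⟨a₀, h0⟩ := exists_pre hp
      obtain ⟨i1, i2⟩ := ih (Equiv.removeNone p) (fS f a₀) (nS Q f ν a₀) fun a => by
        have := hf (some a)
        unfold fS
        omega
      obtain ⟨k1, k2⟩ := ph_some (Q := Q) (ζ := ζ) hΨ hζ hp h0 i1
      refine ⟨k1, ?_⟩
      rw [k2, rs_some hp h0, i2]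
      congr 1
      funext a c
      unfold fS nS
      by_cases ha : a = a₀
      · rw [if_pos ha, if_pos ha, if_pos ha, h2 _ _ _ _ _ (hf _) (hf _), ha]
        ring
      · rw [if_neg ha, if_neg ha, if_neg ha, add_zero, mul_one]

/-- the sum over the points vanishes -/
theorem ph_odd (hΨ : ∀ x y, Ψ (x + y) = Ψ x * Ψ y) (hζ : ζ ^ 3 = 1)
    (h1 : ∀ f ν, 0 < f → Finite (V1 Q ζ f ν) ∧ (f % 2 = 1 → P1 Q ζ Ψ f ν = 0))
    (α : Type) [Fintype α] : ∀ (p : Equiv.Perm α) (f ν : α → ℕ), (∀ i, 0 < f i) →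
      Finite (VV Q ζ p f ν) ∧ ((∑ i, f i) % 2 = 1 → Ph Q ζ Ψ p f ν = 0) := by
  refine Fintype.induction_empty_option
    (P := fun α [Fintype α] => ∀ (p : Equiv.Perm α) (f ν : α → ℕ), (∀ i, 0 < f i) →
      Finite (VV Q ζ p f ν) ∧ ((∑ i, f i) % 2 = 1 → Ph Q ζ Ψ p f ν = 0)) ?_ ?_ ?_ α
  · intro α β _ E ih p f ν hf
    let _ : Fintype α := Fintype.ofEquiv β E.symm
    obtain ⟨i1, i2⟩ := ih ((E.trans p).trans E.symm) (fun a => f (E a)) (fun a => ν (E a))
      fun a => hf _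
    refine ⟨Finite.of_equiv _ (eE (Q := Q) (ζ := ζ) E p f ν).symm, fun h => ?_⟩
    rw [ph_equiv Ψ E p f ν]
    refine i2 ?_
    rw [← h]
    congr 1
    exact Fintype.sum_equiv E _ _ fun i => rfl
  · intro p f ν hf
    obtain rfl : p = 1 := Subsingleton.elim _ _
    have hu : Unique (VV Q ζ (1 : Equiv.Perm PEmpty.{1}) f ν) :=
      { default := ⟨fun i => i.elim, fun i => i.elim⟩
        uniq := fun y => Subtype.ext (funext fun i => i.elim) }
    refine ⟨inferInstance, fun h => ?_⟩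
    simp at h
  · intro α _ ih p f ν hf
    rcases hp : p none with _ | b
    · obtain ⟨i1, i2⟩ := ih (Equiv.removeNone p) (fun a => f (some a)) (fun a => ν (some a))
        fun a => hf _
      obtain ⟨j1, j2⟩ := h1 (f none) (ν none) (hf none)
      obtain ⟨k1, k2⟩ := ph_none (Q := Q) (ζ := ζ) Ψ hp j1 i1
      refine ⟨k1, fun h => ?_⟩
      rw [Fintype.sum_option] at h
      rw [k2]
      by_cases h5 : f none % 2 = 1
      · rw [j2 h5, zero_mul]
      · rw [i2 (by omega), mul_zero]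
    · obtain ⟨a₀, h0⟩ := exists_pre hp
      obtain ⟨i1, i2⟩ := ih (Equiv.removeNone p) (fS f a₀) (nS Q f ν a₀) fun a => by
        have := hf (some a)
        unfold fS
        omega
      obtain ⟨k1, k2⟩ := ph_some (Q := Q) (ζ := ζ) hΨ hζ hp h0 i1
      refine ⟨k1, fun h => ?_⟩
      rw [k2]
      apply i2
      rw [Fintype.sum_option] at h
      unfold fS
      rw [Finset.sum_add_distrib, Finset.sum_ite_eq', if_pos (Finset.mem_univ _)]
      omega

end ind

end Pool.Agent.H508.Q
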