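import Pool.Agent.H508.Q.A4

/-!
# The sums in one variable
-/

set_option autoImplicit false
set_option linter.unusedSectionVars false

namespace Pool.Agent.H508.Q

open Pool.Agent.Y692.QS hiding chi Jc
open Pool.Agent.Y715.T.Cub
open Pool.Agent.H451.BB (X Y X_apply X_cube X_inv)
open Pool.Agent.Y145.KS (psi psi_apply psi_ne_one)
open scoped Classical

section fin
variable {Ω : Type} [Field Ω] {Q : ℕ} {ζ : Ω}

lemma fin_V1 (hQ : 1 < Q) {f : ℕ} (hf : 0 < f) (ν : ℕ) : Finite (V1 Q ζ f ν) := by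
  have hq : 1 < Q ^ f := Nat.one_lt_pow hf.ne' hQ
  have hne : (Polynomial.X ^ (Q ^ f) - Polynomial.C (ζ ^ ν) * Polynomial.X : Polynomial Ω) ≠ 0 := by
    intro h
    have h1 := congrArg (fun P => Polynomial.coeff P (Q ^ f)) h
    simp only [Polynomial.coeff_sub, Polynomial.coeff_X_pow, Polynomial.coeff_C_mul,
      Polynomial.coeff_X, Polynomial.coeff_zero] at h1
    rw [if_pos trivial, if_neg (by omega)] at h1
    simp at h1
  have h1 := Polynomial.rootSet_finite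
    (Polynomial.X ^ (Q ^ f) - Polynomial.C (ζ ^ ν) * Polynomial.X : Polynomial Ω) Ω
  refine (h1.subset (t := {y : Ω | y ^ (Q ^ f) = ζ ^ ν * y}) fun y hy => ?_).to_subtype
  rw [Polynomial.mem_rootSet_of_ne hne]
  simp only [map_sub, map_pow, Polynomial.aeval_X, map_mul, Polynomial.aeval_C, sub_eq_zero]
  exact hy

end fin

section
variable {k : Type} [Field k] [Fintype k] {Ω : Type} [Field Ω] [Algebra k Ω] [IsAlgClosed Ω]

/-- the additive character -/
noncomputable def exC (ψ : AddChar k ℂ) (pr : Ω →ₗ[k] k) (x : Ω) : ℂ := ψ (pr x)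

lemma exC_add (ψ : AddChar k ℂ) (pr : Ω →ₗ[k] k) (x y : Ω) :
    exC ψ pr (x + y) = exC ψ pr x * exC ψ pr y := by
  unfold exC
  rw [map_add, AddChar.map_add_eq_mul]

lemma exists_pr : ∃ pr : Ω →ₗ[k] k, ∀ x : k, pr (algebraMap k Ω x) = x := by
  obtain ⟨g, hg⟩ := (Algebra.linearMap k Ω).exists_leftInverse_of_injective
    (LinearMap.ker_eq_bot.2 (algebraMap k Ω).injective)
  exact ⟨g, fun x => LinearMap.congr_fun hg x⟩

lemma exC_tt (ψ : AddChar k ℂ) {pr : Ω →ₗ[k] k} (hpr : ∀ x : k, pr (algebraMap k Ω x) = x)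
    (E : IntermediateField k Ω) [Finite E] {f : ℕ} (hf : Module.finrank k E = f) (u : E) :
    exC ψ pr (tt (Fintype.card k) f (u : Ω)) = psi ψ E u := by
  unfold exC tt
  rw [← trace_sum E hf, hpr, psi_apply]

/-- the sum in one variable is a sum over the field -/
lemma P1_eq {Q : ℕ} (hQ : Fintype.card k = Q) {ζ : Ω} (hζ : ζ ^ 3 = 1) (ψ : AddChar k ℂ)
    {pr : Ω →ₗ[k] k}
    (hpr : ∀ x : k, pr (algebraMap k Ω x) = x) {f : ℕ} (hf : 0 < f) (ν : ℕ)
    (E : IntermediateField k Ω) [Fintype E] (hfE : Module.finrank k E = f)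
    (hE : ∀ x : Ω, x ∈ E ↔ x ^ (Q ^ f) = x) :
    P1 Q ζ (exC ψ pr) f ν = ∑ u : E, (Nat.card {y : V1 Q ζ f ν // y.1 ^ 3 = (u : Ω)} : ℂ) *
      psi ψ E u := by
  have hQ1 : 1 < Q := by rw [← hQ]; exact Fintype.one_lt_card
  have hfin := fin_V1 (ζ := ζ) hQ1 hf ν
  have _ := Fintype.ofFinite (V1 Q ζ f ν)
  have hmem : ∀ y : V1 Q ζ f ν, y.1 ^ 3 ∈ E := fun y => by
    rw [hE, ← pow_mul, mul_comm 3, pow_mul, y.2, mul_pow, ← pow_mul, mul_comm _ 3, pow_mul, hζ,
      one_pow, one_mul]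
  unfold P1
  rw [finsum_eq_sum_of_fintype]
  have h1 : ∀ y : V1 Q ζ f ν, exC ψ pr (tt Q f (y.1 ^ 3)) = psi ψ E ⟨y.1 ^ 3, hmem y⟩ := by
    intro y
    have h3 := exC_tt ψ hpr E hfE ⟨y.1 ^ 3, hmem y⟩
    rw [hQ] at h3
    exact h3
  rw [Finset.sum_congr rfl fun y _ => h1 y]
  rw [← Finset.sum_fiberwise Finset.univ (fun y : V1 Q ζ f ν => (⟨y.1 ^ 3, hmem y⟩ : E))
    (fun y => psi ψ E ⟨y.1 ^ 3, hmem y⟩)]
  refine Finset.sum_congr rfl fun u _ => ?_
  have h2 : ∑ y ∈ Finset.univ.filter (fun y : V1 Q ζ f ν => (⟨y.1 ^ 3, hmem y⟩ : E) = u),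
      psi ψ E ⟨y.1 ^ 3, hmem y⟩ =
      ∑ y ∈ Finset.univ.filter (fun y : V1 Q ζ f ν => (⟨y.1 ^ 3, hmem y⟩ : E) = u),
      psi ψ E u :=
    Finset.sum_congr rfl fun y hy => by rw [(Finset.mem_filter.1 hy).2]
  rw [h2, Finset.sum_const, nsmul_eq_mul]
  congr 2
  rw [Nat.card_eq_fintype_card, Fintype.card_subtype]
  congr 1
  ext y
  rw [Finset.mem_filter, Finset.mem_filter]
  exact ⟨fun h => ⟨h.1, congrArg Subtype.val h.2⟩, fun h => ⟨h.1, Subtype.ext h.2⟩⟩

variable {z : k} (hz : z * z = -1 - z) (h3 : (3 : k) ≠ 0)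

/-- the character over the extension -/
lemma X_norm (E : IntermediateField k Ω) [Fintype E] {f : ℕ}
    (hfE : Module.finrank k E = f) (u : E) :
    X (z_map (A := E) hz) (three_map h3) u = X hz h3 (Algebra.norm k u) := by
  rw [X_apply, X_apply]
  congr 1
  by_cases hu : u = 0
  · rw [hu, MulChar.map_zero]
    have h1 : Algebra.norm k (0 : E) = 0 := by
      have := Module.finite_of_finite k (M := E)
      rw [Algebra.norm_zero]
    rw [h1, MulChar.map_zero]
  have hFE : Module.Finite k E := Module.Finite.of_finite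
  have hN : Algebra.norm k u ≠ 0 := fun h => hu (Algebra.norm_eq_zero_iff.1 h)
  have hzz : algebraMap k Ω z * algebraMap k Ω z = -1 - algebraMap k Ω z := z_map hz
  have h3Ω : (3 : Ω) ≠ 0 := three_map h3
  refine hom_inj hzz h3Ω (chi_cube (z_map (A := E) hz) (three_map h3) hu)
    (chi_cube hz h3 hN) ?_
  rw [red_up hz h3 rfl u]
  have h1 := chi_red hz h3 (Algebra.norm k u)
  have h2 := congrArg (algebraMap k Ω) h1
  rw [hom_apply, map_add, map_mul, map_intCast, map_intCast, map_pow, norm_prod E hfE,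
    Finset.prod_pow_eq_pow_sum, ← pow_mul] at h2
  rw [hom_apply, h2]
  congr 1
  have hc : Fintype.card E = Fintype.card k ^ f := by
    rw [Module.card_eq_pow_finrank (K := k) (V := E), hfE]
  obtain ⟨n, hn⟩ := card_mod hz h3
  have hg : (∑ i ∈ Finset.range f, Fintype.card k ^ i) * (Fintype.card k - 1) =
      Fintype.card k ^ f - 1 := by
    have h5 := Nat.geomSum_eq (m := Fintype.card k) (by
      have := Fintype.one_lt_card (α := k)
      omega) f
    rw [h5]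
    exact Nat.div_mul_cancel (Nat.sub_one_dvd_pow_sub_one _ _)
  rw [hc, ← hg, hn, Nat.mul_div_cancel_left _ (by norm_num)]
  rw [show (∑ i ∈ Finset.range f, Fintype.card k ^ i) * (3 * n) =
    3 * ((∑ i ∈ Finset.range f, Fintype.card k ^ i) * n) by ring,
    Nat.mul_div_cancel_left _ (by norm_num)]

/-- the sum in one variable -/
theorem P1_one {Q : ℕ} (hQ : Fintype.card k = Q) {ψ : AddChar k ℂ} (hψ : ψ ≠ 1)
    {pr : Ω →ₗ[k] k}
    (hpr : ∀ x : k, pr (algebraMap k Ω x) = x) {f : ℕ} (hf : 0 < f) (ν : ℕ) :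
    P1 Q (algebraMap k Ω z) (exC ψ pr) f ν =
      ∑ c : Bool, kap c ν * ((-1) ^ (f - 1) * gaussSum (Y hz h3 c) ψ ^ f) := by
  have hQ1 : 1 < Q := by rw [← hQ]; exact Fintype.one_lt_card
  obtain ⟨E, hFE, hfE, hE⟩ := exists_sub k Ω f hf
  rw [hQ] at hE
  have _ := Fintype.ofFinite E
  have hzz : algebraMap k Ω z * algebraMap k Ω z = -1 - algebraMap k Ω z := z_map hz
  have hc : Fintype.card E = Q ^ f := by
    rw [Module.card_eq_pow_finrank (K := k) (V := E), hfE, hQ]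
  rw [P1_eq hQ (z_cube hzz) ψ hpr hf ν E hfE hE]
  have h1 : ∀ u : E, (Nat.card {y : V1 Q (algebraMap k Ω z) f ν // y.1 ^ 3 = (u : Ω)} : ℂ) =
      1 + kap true ν * X hz h3 (Algebra.norm k u) +
        kap false ν * (X hz h3)⁻¹ (Algebra.norm k u) := by
    intro u
    have hfin := fin_V1 (ζ := algebraMap k Ω z) hQ1 hf ν
    have _ := Fintype.ofFinite (V1 Q (algebraMap k Ω z) f ν)
    have h2 := fiber hz h3 hc ν u (T := (Finset.univ.filter
      (fun y : V1 Q (algebraMap k Ω z) f ν => y.1 ^ 3 = (u : Ω))).map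
        (Function.Embedding.subtype _)) (by
      intro y
      simp only [Finset.mem_map, Finset.mem_filter, Finset.mem_univ, true_and,
        Function.Embedding.subtype_apply, Subtype.exists, exists_and_left, exists_prop,
        exists_eq_right_right]
      exact ⟨fun h => ⟨h.2, h.1⟩, fun h => ⟨h.2, h.1⟩⟩)
    rw [Finset.card_map] at h2
    rw [Nat.card_eq_fintype_card, Fintype.card_subtype, h2, X_inv, X_inv,
      MulChar.pow_apply' _ two_ne_zero, MulChar.pow_apply' _ two_ne_zero,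
      X_norm hz h3 E hfE u]
  rw [Finset.sum_congr rfl fun u _ => by rw [h1 u]]
  have h0 : ∑ u : E, psi ψ E u = 0 := AddChar.sum_eq_zero_of_ne_one (psi_ne_one hψ E)
  have h4 : ∀ c : Bool, ∑ u : E, Y hz h3 c (Algebra.norm k u) * psi ψ E u =
      (-1) ^ (f - 1) * gaussSum (Y hz h3 c) ψ ^ f := by
    intro c
    have := Pool.Agent.Y145.DW.hasse_davenport (E := E) (Y hz h3 c) hψ
    rw [hfE] at this
    exact this
  rw [Fintype.sum_bool, ← h4, ← h4, Finset.mul_sum, Finset.mul_sum, ← Finset.sum_add_distrib]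
  have h5 : ∑ u : E, (1 + kap true ν * X hz h3 (Algebra.norm k u) +
        kap false ν * (X hz h3)⁻¹ (Algebra.norm k u)) * psi ψ E u =
      ∑ u : E, psi ψ E u + ∑ u : E, (kap true ν * (Y hz h3 true (Algebra.norm k u) * psi ψ E u) +
        kap false ν * (Y hz h3 false (Algebra.norm k u) * psi ψ E u)) := by
    rw [← Finset.sum_add_distrib]
    refine Finset.sum_congr rfl fun u _ => ?_
    unfold Pool.Agent.H451.BB.Y
    rw [if_pos rfl, if_neg (by simp)]
    ring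
  rw [h5, h0, zero_add]

end

section two
variable {k : Type} [Field k] [Fintype k] {Ω : Type} [Field Ω] [Algebra k Ω] [IsAlgClosed Ω]
  {ζ : Ω} (hz : ζ * ζ = -1 - ζ) (h3 : (3 : Ω) ≠ 0)

lemma pow_mod {ζ : Ω} (hc : ζ ^ 3 = 1) {a b : ℕ} (h : a % 3 = b % 3) : ζ ^ a = ζ ^ b := by
  rw [← Nat.div_add_mod a 3, ← Nat.div_add_mod b 3, pow_add, pow_add, pow_mul, pow_mul, hc,
    one_pow, one_pow, h]

include hz h3 in
/-- the sum in one variable vanishes -/
theorem P1_two {Q : ℕ} (hQ : Fintype.card k = Q) (hQ2 : Q % 3 = 2) {ψ : AddChar k ℂ}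
    (hψ : ψ ≠ 1) {pr : Ω →ₗ[k] k}
    (hpr : ∀ x : k, pr (algebraMap k Ω x) = x) {f : ℕ} (hf : f % 2 = 1) (ν : ℕ) :
    P1 Q ζ (exC ψ pr) f ν = 0 := by
  have hf0 : 0 < f := by omega
  obtain ⟨n1, n2, n3⟩ := z_ne hz h3
  have hc := z_cube hz
  have hζ0 : ζ ≠ 0 := by
    intro h
    rw [h, zero_pow (by norm_num)] at hc
    exact zero_ne_one hc
  have hQ1 : 1 < Q := by rw [← hQ]; exact Fintype.one_lt_card
  obtain ⟨E, hFE, hfE, hE⟩ := exists_sub k Ω f hf0
  rw [hQ] at hE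
  have _ := Fintype.ofFinite E
  rw [P1_eq hQ hc ψ hpr hf0 ν E hfE hE]
  have hqf : (Q ^ f) % 3 = 2 := by
    obtain ⟨m, hm⟩ : ∃ m, f = 2 * m + 1 := ⟨f / 2, by omega⟩
    rw [hm, pow_add, pow_mul, Nat.mul_mod, Nat.pow_mod, Nat.pow_mod Q 2, hQ2]
    simp [hQ2]
  have hqf0 : 0 < Q ^ f := Nat.pos_of_ne_zero (by omega)
  have h1 : ∀ u : E, Nat.card {y : V1 Q ζ f ν // y.1 ^ 3 = (u : Ω)} = 1 := by
    intro u
    rw [Nat.card_eq_one_iff_unique]
    constructor
    · constructor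
      rintro ⟨⟨y, hy⟩, hyu⟩ ⟨⟨y', hy'⟩, hyu'⟩
      apply Subtype.ext
      apply Subtype.ext
      show y = y'
      by_cases hy0 : y = 0
      · have h5 : y' ^ 3 = 0 := by
          rw [show y' ^ 3 = (u : Ω) from hyu', ← show y ^ 3 = (u : Ω) from hyu, hy0,
            zero_pow three_ne_zero]
        rw [hy0, (pow_eq_zero_iff three_ne_zero).1 h5]
      · have h4 : (y' / y) ^ 3 = 1 := by
          rw [div_pow, show y' ^ 3 = (u : Ω) from hyu', ← show y ^ 3 = (u : Ω) from hyu,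
            div_self (pow_ne_zero 3 hy0)]
        have h6 : ∃ b : ℕ, y' / y = ζ ^ b := by
          rcases root_cases hz h4 with h5 | h5 | h5
          · exact ⟨0, by rw [pow_zero]; exact h5⟩
          · exact ⟨1, by rw [pow_one]; exact h5⟩
          · exact ⟨2, h5⟩
        obtain ⟨b, hb⟩ := h6
        rw [div_eq_iff hy0] at hb
        rw [hb, mul_pow, hy, ← pow_mul, pow_mod hc (a := b * Q ^ f) (b := b * 2)
          (by rw [Nat.mul_mod, hqf, Nat.mul_mod b 2]),
          pow_mul, sq] at hy'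
        have h7 : ζ ^ b = 1 := by
          have h8 : ζ ^ b * (ζ ^ b * (ζ ^ ν * y)) = 1 * (ζ ^ b * (ζ ^ ν * y)) := by
            rw [one_mul, ← mul_assoc, hy']
            ring
          exact mul_right_cancel₀ (mul_ne_zero (pow_ne_zero _ hζ0) (mul_ne_zero
            (pow_ne_zero _ hζ0) hy0)) h8
        rw [hb, h7, one_mul]
    · by_cases hu : (u : Ω) = 0
      · exact ⟨⟨⟨0, by rw [zero_pow hqf0.ne', mul_zero]⟩, by
          rw [hu]; exact zero_pow three_ne_zero⟩⟩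
      obtain ⟨y0, hy0⟩ := IsAlgClosed.exists_pow_nat_eq (u : Ω) (n := 3) (by norm_num)
      have hy00 : y0 ≠ 0 := by
        rintro rfl
        rw [zero_pow (by norm_num)] at hy0
        exact hu hy0.symm
      have h4 : (y0 ^ (Q ^ f) / y0) ^ 3 = 1 := by
        rw [div_pow, ← pow_mul, mul_comm, pow_mul, hy0, (hE u).1 u.2, div_self hu]
      have h6 : ∃ a : ℕ, y0 ^ (Q ^ f) / y0 = ζ ^ a := by
        rcases root_cases hz h4 with h5 | h5 | h5
        · exact ⟨0, by rw [pow_zero]; exact h5⟩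
        · exact ⟨1, by rw [pow_one]; exact h5⟩
        · exact ⟨2, h5⟩
      obtain ⟨a, ha⟩ := h6
      rw [div_eq_iff hy00] at ha
      refine ⟨⟨⟨ζ ^ (ν + 2 * a) * y0, ?_⟩, ?_⟩⟩
      · rw [mul_pow, ha, ← pow_mul, pow_mod hc (a := (ν + 2 * a) * Q ^ f)
          (b := (ν + 2 * a) * 2)
          (by rw [Nat.mul_mod, hqf, Nat.mul_mod (ν + 2 * a) 2]),
          ← mul_assoc, ← mul_assoc, ← pow_add, ← pow_add]
        congr 1
        apply pow_mod hc
        omega
      · show (ζ ^ (ν + 2 * a) * y0) ^ 3 = _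
        rw [mul_pow, hy0, ← pow_mul, mul_comm _ 3, pow_mul, hc, one_pow, one_mul]
  rw [Finset.sum_congr rfl fun u _ => by rw [h1 u, Nat.cast_one, one_mul]]
  exact AddChar.sum_eq_zero_of_ne_one (psi_ne_one hψ E)

end two

end Pool.Agent.H508.Q
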