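import Pool.Agent.H508.Q.A5

/-!
# The number of the zeros in a twisted space
-/

set_option autoImplicit false
set_option linter.unusedSectionVars false

namespace Pool.Agent.H508.Q

open Pool.Agent.Y692.QS hiding chi Jc
open Pool.Agent.Y715.T.Cub
open Pool.Agent.H451.BB (X Y X_apply X_cube X_inv gauss_prod gauss_cube gauss_cube' nt nf nt_add
  scal_sum)
open scoped Classical

section
variable {k : Type} [Field k] [Fintype k] {Ω : Type} [Field Ω] [Algebra k Ω] [IsAlgClosed Ω]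

/-- the fixed elements -/
lemma mem_base {Q : ℕ} (hQ : Fintype.card k = Q) {x : Ω} (hx : x ^ Q = x) :
    ∃ s : k, algebraMap k Ω s = x := by
  obtain ⟨E, hFE, hfE, hE⟩ := exists_sub k Ω 1 one_pos
  have h1 : x ∈ E := by rw [hE, pow_one, hQ]; exact hx
  rw [IntermediateField.finrank_eq_one_iff.1 hfE] at h1
  exact IntermediateField.mem_bot.1 h1

lemma sum_pow_Q {Q : ℕ} (hQ : Fintype.card k = Q) {ι : Type} (s : Finset ι) (g : ι → Ω) :
    (∑ i ∈ s, g i) ^ Q = ∑ i ∈ s, g i ^ Q := by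
  have h := map_sum (FiniteField.frobeniusAlgHom k Ω) g s
  rw [FiniteField.coe_frobeniusAlgHom, hQ] at h
  exact h

variable {Q : ℕ} {ζ : Ω} {m : ℕ} {p : Equiv.Perm (Fin m)} {ν : Fin m → ℕ}

lemma sum_cubes (hQ : Fintype.card k = Q) (hζ : ζ ^ 3 = 1) (y : VV Q ζ p (fun _ => 1) ν) :
    ∃ s : k, algebraMap k Ω s = ∑ i, y.1 i ^ 3 := by
  apply mem_base hQ
  rw [sum_pow_Q hQ]
  have h1 : ∀ i, (y.1 i ^ 3) ^ Q = y.1 (p i) ^ 3 := by
    intro i
    have h2 := y.2 i
    rw [pow_one] at h2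
    rw [← pow_mul, mul_comm 3, pow_mul, h2, mul_pow, ← pow_mul, mul_comm _ 3, pow_mul, hζ,
      one_pow, one_mul]
  rw [Finset.sum_congr rfl fun i _ => h1 i]
  exact Equiv.sum_comp p fun i => y.1 i ^ 3

/-- the number of the zeros as a sum -/
theorem zeros_sum (hQ : Fintype.card k = Q) (hζ : ζ ^ 3 = 1)
    (hfin : Finite (VV Q ζ p (fun _ => 1) ν)) (hcard : Nat.card (VV Q ζ p (fun _ => 1) ν) = Q ^ m)
    {ψ : AddChar k ℂ} (hψ : ψ.IsPrimitive) {pr : Ω →ₗ[k] k}
    (hpr : ∀ x : k, pr (algebraMap k Ω x) = x) :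
    (Q : ℂ) * (Nat.card {y : VV Q ζ p (fun _ => 1) ν // ∑ i, y.1 i ^ 3 = 0} : ℂ) =
      (Q : ℂ) ^ m + ∑ t ∈ Finset.univ.erase (0 : k),
        Ph Q ζ (exC (ψ.mulShift t) pr) p (fun _ => 1) ν := by
  have _ := Fintype.ofFinite (VV Q ζ p (fun _ => 1) ν)
  choose s hs using fun y : VV Q ζ p (fun _ => 1) ν => sum_cubes hQ hζ y
  have h1 : ∀ y : VV Q ζ p (fun _ => 1) ν, ∑ t : k, ψ (t * s y) =
      if ∑ i, y.1 i ^ 3 = 0 then (Q : ℂ) else 0 := by
    intro y
    rw [AddChar.sum_mulShift _ hψ, hQ]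
    have h2 : s y = 0 ↔ ∑ i, y.1 i ^ 3 = 0 := by
      rw [← hs y, map_eq_zero]
    by_cases h3 : s y = 0
    · rw [if_pos h3, if_pos (h2.1 h3)]
    · rw [if_neg h3, if_neg (fun h4 => h3 (h2.2 h4)), Nat.cast_zero]
  have h3 : (Q : ℂ) * (Nat.card {y : VV Q ζ p (fun _ => 1) ν // ∑ i, y.1 i ^ 3 = 0} : ℂ) =
      ∑ y : VV Q ζ p (fun _ => 1) ν, ∑ t : k, ψ (t * s y) := by
    rw [Finset.sum_congr rfl fun y _ => h1 y, ← Finset.sum_filter, Finset.sum_const,
      nsmul_eq_mul, Nat.card_eq_fintype_card, Fintype.card_subtype, mul_comm]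
  have h4 : ∀ t : k, ∑ y : VV Q ζ p (fun _ => 1) ν, ψ (t * s y) =
      Ph Q ζ (exC (ψ.mulShift t) pr) p (fun _ => 1) ν := by
    intro t
    unfold Ph
    rw [finsum_eq_sum_of_fintype]
    refine Finset.sum_congr rfl fun y _ => ?_
    have h5 : ∀ S : Finset (Fin m), ∏ i ∈ S, exC (ψ.mulShift t) pr (tt Q 1 (y.1 i ^ 3)) =
        exC (ψ.mulShift t) pr (∑ i ∈ S, y.1 i ^ 3) := by
      intro S
      induction S using Finset.induction_on with
      | empty =>
        rw [Finset.sum_empty, Finset.prod_empty]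
        unfold exC
        rw [map_zero, AddChar.map_zero_eq_one]
      | insert i S hi ih =>
        rw [Finset.sum_insert hi, Finset.prod_insert hi, ih, exC_add]
        congr 2
        unfold tt
        rw [Finset.sum_range_one, pow_zero, pow_one]
    rw [h5, ← hs y]
    unfold exC
    rw [hpr, AddChar.mulShift_apply]
  rw [h3, Finset.sum_comm, ← Finset.add_sum_erase _ _ (Finset.mem_univ (0 : k))]
  congr 1
  · simp only [zero_mul, AddChar.map_zero_eq_one, Finset.sum_const, nsmul_eq_mul, mul_one]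
    rw [Finset.card_univ, ← Nat.card_eq_fintype_card, hcard]
    push_cast
    rfl
  · exact Finset.sum_congr rfl fun t _ => h4 t

/-- **The number of the zeros, if the field does not contain the cube roots of unity.** -/
theorem zeros_two (hz : ζ * ζ = -1 - ζ) (h3 : (3 : Ω) ≠ 0) (hQ : Fintype.card k = Q)
    (hQ2 : Q % 3 = 2) (hm : m % 2 = 1)
    (hcard : Nat.card (VV Q ζ p (fun _ => 1) ν) = Q ^ m) :
    (Q : ℂ) * (Nat.card {y : VV Q ζ p (fun _ => 1) ν // ∑ i, y.1 i ^ 3 = 0} : ℂ) =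
      (Q : ℂ) ^ m := by
  have hc := z_cube hz
  have hψ := AddChar.FiniteField.primitiveChar_to_Complex_isPrimitive k
  obtain ⟨pr, hpr⟩ := exists_pr (k := k) (Ω := Ω)
  have hQ1 : 1 < Q := by rw [← hQ]; exact Fintype.one_lt_card
  have hmain : ∀ t : k, t ≠ 0 → Finite (VV Q ζ p (fun _ => 1) ν) ∧
      ((∑ i : Fin m, 1) % 2 = 1 → Ph Q ζ (exC ((AddChar.FiniteField.primitiveChar_to_Complex
        k).mulShift t) pr) p (fun _ => 1) ν = 0) := by
    intro t ht
    refine ph_odd (exC_add _ _) hc (fun f ν' hf => ⟨fin_V1 hQ1 hf ν', fun h => ?_⟩)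
      (Fin m) p (fun _ => 1) ν fun _ => one_pos
    exact P1_two hz h3 hQ hQ2 (hψ ht) hpr h ν'
  have hfin := (hmain 1 one_ne_zero).1
  rw [zeros_sum hQ hc hfin hcard hψ hpr]
  rw [Finset.sum_eq_zero, add_zero]
  intro t ht
  refine (hmain t (Finset.ne_of_mem_erase ht)).2 ?_
  simp [hm]

end

section comb

/-- the sums over the subsets -/
noncomputable def tk {m : ℕ} (h : ℕ) (c : Bool) (p : Equiv.Perm (Fin m)) (ν : Fin m → ℕ) : ℂ :=
  ((Equiv.Perm.sign p : ℤ) : ℂ) * ∑ S : Finset (Fin m),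
    if S.card = h ∧ ∀ i, p i ∈ S ↔ i ∈ S then kap c (∑ i, ν i + ∑ i ∈ S, ν i) else 0

lemma rs_fin {m : ℕ} (p : Equiv.Perm (Fin m)) (W : Fin m → Bool → ℂ) :
    rs p W = ((Equiv.Perm.sign p : ℤ) : ℂ) *
      ∑ e : Fin m → Bool, if ∀ i, e (p i) = e i then ∏ i, W i (e i) else 0 := by
  unfold rs
  have h1 : ∀ I J : DecidableEq (Fin m), @Equiv.Perm.sign (Fin m) I _ =
      @Equiv.Perm.sign (Fin m) J _ := fun I J => by rw [Subsingleton.elim I J]
  have h2 : ∀ (I J : Fintype (Fin m → Bool)) (u v : (Fin m → Bool) → ℂ), (∀ e, u e = v e) →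
      @Finset.sum (Fin m → Bool) ℂ _ (@Finset.univ _ I) u =
        @Finset.sum (Fin m → Bool) ℂ _ (@Finset.univ _ J) v := fun I J u v h => by
    rw [Subsingleton.elim I J]
    exact Finset.sum_congr rfl fun e _ => h e
  rw [h1 _ (instDecidableEqFin m)]
  refine congrArg₂ (fun x y : ℂ => x * y) rfl (h2 _ _ _ _ fun e => ?_)
  by_cases h : ∀ i, e (p i) = e i
  · rw [if_pos h, if_pos h]
  · rw [if_neg h, if_neg h]

lemma kap_not (c : Bool) (n : ℕ) : kap c n = kap (!c) (2 * n) := by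
  unfold kap
  cases c
  · simp only [Bool.false_eq_true, if_false, Bool.not_false, if_true]
    congr 1
    rw [show 2 * (2 * n) = 3 * n + n by ring, pow_add, pow_mul, w_cube, one_pow, one_mul]
  · simp only [if_true, Bool.not_true, Bool.false_eq_true, if_false]

/-- the colourings and the subsets -/
noncomputable def eB {m : ℕ} (c : Bool) : (Fin m → Bool) ≃ Finset (Fin m) where
  toFun e := Finset.univ.filter fun i => e i = c
  invFun S := fun i => if i ∈ S then c else !c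
  left_inv e := by
    funext i
    simp only [Finset.mem_filter, Finset.mem_univ, true_and]
    by_cases h : e i = c
    · rw [if_pos h, h]
    · rw [if_neg h]
      exact (Bool.eq_not_of_ne h).symm
  right_inv S := by
    ext i
    simp only [Finset.mem_filter, Finset.mem_univ, true_and]
    by_cases h : i ∈ S
    · simp [h]
    · simp only [h, if_false, iff_false]
      exact Bool.not_ne_self c

lemma eB_inv {m : ℕ} (c : Bool) (p : Equiv.Perm (Fin m)) (e : Fin m → Bool) :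
    (∀ i, e (p i) = e i) ↔ ∀ i, p i ∈ eB c e ↔ i ∈ eB c e := by
  unfold eB
  simp only [Equiv.coe_fn_mk, Finset.mem_filter, Finset.mem_univ, true_and]
  constructor
  · intro h i
    rw [h i]
  · intro h i
    have := h i
    by_cases h1 : e i = c
    · rw [h1, this.2 h1]
    · have h2 : e (p i) ≠ c := fun h3 => h1 (this.1 h3)
      rw [Bool.eq_not_of_ne h1, Bool.eq_not_of_ne h2]

lemma eB_kap {m : ℕ} (c : Bool) (ν : Fin m → ℕ) (e : Fin m → Bool) :
    ∏ i, kap (e i) (ν i) = kap (!c) (∑ i, ν i + ∑ i ∈ eB c e, ν i) := by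
  have h1 : ∀ i, kap (e i) (ν i) = kap (!c) (ν i + if e i = c then ν i else 0) := by
    intro i
    by_cases h : e i = c
    · rw [if_pos h, h, kap_not, two_mul]
    · rw [if_neg h, add_zero, Bool.eq_not_of_ne h]
  rw [Finset.prod_congr rfl fun i _ => h1 i, ← kap_sum, Finset.sum_add_distrib]
  congr 2
  unfold eB
  rw [Equiv.coe_fn_mk, Finset.sum_filter]

lemma nt_eB {m : ℕ} (e : Fin m → Bool) : nt e = (eB true e).card := rfl

lemma nf_eB {m : ℕ} (e : Fin m → Bool) : nf e = (eB false e).card := by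
  unfold nf eB
  simp only [Bool.not_eq_true, Equiv.coe_fn_mk]

lemma type_iff {m h : ℕ} (hm : m = 2 * h + 3) (hh : h ≤ 2) (e : Fin m → Bool) :
    (if 3 ∣ 2 * nt e + nf e then (1 : ℂ) else 0) =
      (if (eB true e).card = h then 1 else 0) + if (eB false e).card = h then 1 else 0 := by
  have h1 := nt_add e
  rw [← nt_eB, ← nf_eB]
  by_cases h2 : nt e = h
  · have h4 : ¬ nf e = h := by omega
    have h5 : 3 ∣ 2 * nt e + nf e := by omega
    rw [if_pos h2, if_neg h4, if_pos h5, add_zero]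
  · by_cases h3 : nf e = h
    · have h5 : 3 ∣ 2 * nt e + nf e := by omega
      rw [if_neg h2, if_pos h3, if_pos h5, zero_add]
    · have h5 : ¬ 3 ∣ 2 * nt e + nf e := by omega
      rw [if_neg h2, if_neg h3, if_neg h5, add_zero]

end comb

section
variable {k : Type} [Field k] [Fintype k] {Ω : Type} [Field Ω] [Algebra k Ω] [IsAlgClosed Ω]
  {z : k} (hz : z * z = -1 - z) (h3 : (3 : k) ≠ 0)
  {m : ℕ} {p : Equiv.Perm (Fin m)} {ν : Fin m → ℕ}

lemma gauss_type {h : ℕ} (hm : m = 2 * h + 3) {ψ : AddChar k ℂ} (hψ : ψ.IsPrimitive)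
    (e : Fin m → Bool) (c : Bool) (hc : (eB c e).card = h) :
    ∏ i, gaussSum (Y hz h3 (e i)) ψ = (Fintype.card k : ℂ) ^ (h + 1) *
      (if c then (starRingEnd ℂ) (toC (Jc hz h3)) else toC (Jc hz h3)) := by
  have h8 : ∀ i, gaussSum (Y hz h3 (e i)) ψ = if e i = true then gaussSum (Y hz h3 true) ψ
      else gaussSum (Y hz h3 false) ψ := by
    intro i
    cases e i <;> simp
  have h7 : ∏ i, gaussSum (Y hz h3 (e i)) ψ =
      gaussSum (Y hz h3 true) ψ ^ nt e * gaussSum (Y hz h3 false) ψ ^ nf e := by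
    rw [Finset.prod_congr rfl fun i _ => h8 i, Finset.prod_ite, Finset.prod_const,
      Finset.prod_const]
    rfl
  have h1 := nt_add e
  rw [h7]
  cases c
  · rw [← nf_eB] at hc
    rw [hc, show nt e = h + 3 by omega, pow_add, if_neg (by simp), mul_right_comm, ← mul_pow,
      gauss_prod hz h3 hψ, gauss_cube hz h3 hψ, pow_succ]
    ring
  · rw [← nt_eB] at hc
    rw [hc, show nf e = h + 3 by omega, pow_add, if_pos rfl, ← mul_assoc, ← mul_pow,
      gauss_prod hz h3 hψ, gauss_cube' hz h3 hψ, pow_succ]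
    ring

theorem ph_total {h : ℕ} (hm : m = 2 * h + 3) (hh : h ≤ 2) {Q : ℕ} (hQ : Fintype.card k = Q)
    {ψ : AddChar k ℂ} (hψ : ψ.IsPrimitive) {pr : Ω →ₗ[k] k}
    (hpr : ∀ x : k, pr (algebraMap k Ω x) = x) :
    Finite (VV Q (algebraMap k Ω z) p (fun _ => 1) ν) ∧
    ∑ t ∈ Finset.univ.erase (0 : k),
        Ph Q (algebraMap k Ω z) (exC (ψ.mulShift t) pr) p (fun _ => 1) ν =
      ((Q : ℂ) - 1) * (Q : ℂ) ^ (h + 1) * (toC (Jc hz h3) * tk h true p ν +
        (starRingEnd ℂ) (toC (Jc hz h3)) * tk h false p ν) := by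
  have hQ1 : 1 < Q := by rw [← hQ]; exact Fintype.one_lt_card
  have hzz : algebraMap k Ω z * algebraMap k Ω z = -1 - algebraMap k Ω z := z_map hz
  have hq3 : Q % 3 = 1 := by
    have h1 := card_mod hz h3
    rw [hQ] at h1
    omega
  have hmain : ∀ t : k, t ≠ 0 → Finite (VV Q (algebraMap k Ω z) p (fun _ => 1) ν) ∧
      Ph Q (algebraMap k Ω z) (exC (ψ.mulShift t) pr) p (fun _ => 1) ν =
        rs p (fun i c => kap c (ν i) * ((-1) ^ (1 - 1) *
          gaussSum (Y hz h3 c) (ψ.mulShift t) ^ 1)) := by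
    intro t ht
    refine ph_main (exC_add _ _) (z_cube hzz) (fun f ν' c => kap c ν' *
      ((-1) ^ (f - 1) * gaussSum (Y hz h3 c) (ψ.mulShift t) ^ f)) (fun f ν' hf =>
      ⟨fin_V1 hQ1 hf ν', P1_one hz h3 hQ (hψ ht) hpr hf ν'⟩) (fun f g ν' ν'' c hf hg => ?_)
      (Fin m) p (fun _ => 1) ν fun _ => one_pos
    have h1 : kap c (ν'' + ν' * Q ^ g) = kap c ν'' * kap c ν' := by
      rw [kap_add]
      congr 1
      have h2 : (Q ^ g) % 3 = 1 := by rw [Nat.pow_mod, hq3, one_pow]; rfl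
      have h4 : ν' * Q ^ g = 3 * (ν' * (Q ^ g / 3)) + ν' := by
        conv_lhs => rw [← Nat.div_add_mod (Q ^ g) 3, h2]
        ring
      rw [h4, kap_add]
      have h5 : ∀ n, kap c (3 * n) = 1 := by
        intro n
        unfold kap
        cases c
        · rw [if_neg (by simp), pow_mul, w_cube, one_pow, map_one]
        · rw [if_pos rfl, show 2 * (3 * n) = 3 * (2 * n) by ring, pow_mul, w_cube, one_pow,
            map_one]
      rw [h5, one_mul]
    rw [h1]
    obtain ⟨f', rfl⟩ : ∃ f', f = f' + 1 := ⟨f - 1, by omega⟩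
    obtain ⟨g', rfl⟩ : ∃ g', g = g' + 1 := ⟨g - 1, by omega⟩
    rw [show f' + 1 + (g' + 1) - 1 = f' + g' + 1 by omega, Nat.add_sub_cancel, Nat.add_sub_cancel]
    ring
  refine ⟨(hmain 1 one_ne_zero).1, ?_⟩
  rw [Finset.sum_congr rfl fun t ht => (hmain t (Finset.ne_of_mem_erase ht)).2]
  simp only [rs_fin]
  -- the Gauss sums of the shifts
  have hg : ∀ t : k, t ≠ 0 → ∀ c, gaussSum (Y hz h3 c) (ψ.mulShift t) =
      (Y hz h3 c)⁻¹ t * gaussSum (Y hz h3 c) ψ := by
    intro t ht c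
    have := gaussSum_mulShift_eq (Y hz h3 c) ψ (Units.mk0 t ht)
    rwa [Units.val_mk0] at this
  have hval : ∀ t : k, t ≠ 0 → ∀ e : Fin m → Bool, ∏ i, (kap (e i) (ν i) * ((-1) ^ (1 - 1) *
      gaussSum (Y hz h3 (e i)) (ψ.mulShift t) ^ 1)) =
      (∏ i, kap (e i) (ν i)) * (∏ i, gaussSum (Y hz h3 (e i)) ψ) *
        ∏ i, (Y hz h3 (e i))⁻¹ t := by
    intro t ht e
    rw [← Finset.prod_mul_distrib, ← Finset.prod_mul_distrib]
    refine Finset.prod_congr rfl fun i _ => ?_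
    rw [pow_one, hg t ht]
    ring
  rw [← Finset.mul_sum, Finset.sum_comm]
  have hm0 : 0 < m := by omega
  have hsum : ∀ e : Fin m → Bool, ∑ t ∈ Finset.univ.erase (0 : k),
      (if ∀ i, e (p i) = e i then ∏ i, (kap (e i) (ν i) * ((-1) ^ (1 - 1) *
        gaussSum (Y hz h3 (e i)) (ψ.mulShift t) ^ 1)) else 0) =
      ∑ c : Bool, if (eB c e).card = h ∧ ∀ i, p i ∈ eB c e ↔ i ∈ eB c e then
        kap (!c) (∑ i, ν i + ∑ i ∈ eB c e, ν i) * ((Q : ℂ) - 1) * ((Q : ℂ) ^ (h + 1) *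
          (if c then (starRingEnd ℂ) (toC (Jc hz h3)) else toC (Jc hz h3))) else 0 := by
    intro e
    by_cases he : ∀ i, e (p i) = e i
    · have h1 : ∀ t ∈ Finset.univ.erase (0 : k), (if ∀ i, e (p i) = e i then
          ∏ i, (kap (e i) (ν i) * ((-1) ^ (1 - 1) *
          gaussSum (Y hz h3 (e i)) (ψ.mulShift t) ^ 1)) else 0) =
          (∏ i, kap (e i) (ν i)) * (∏ i, gaussSum (Y hz h3 (e i)) ψ) *
          ∏ i, (Y hz h3 (e i))⁻¹ t := fun t ht => by
        rw [if_pos he, hval t (Finset.ne_of_mem_erase ht)]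
      rw [Finset.sum_congr rfl h1, ← Finset.mul_sum]
      have h2 : ∑ t ∈ Finset.univ.erase (0 : k), ∏ i, (Y hz h3 (e i))⁻¹ t =
          ((Q : ℂ) - 1) * (if 3 ∣ 2 * nt e + nf e then (1 : ℂ) else 0) := by
        have h4 := scal_sum hz h3 hm0 e
        rw [← Finset.add_sum_erase _ _ (Finset.mem_univ (0 : k)),
          Finset.prod_eq_zero (Finset.mem_univ (⟨0, hm0⟩ : Fin m)) (MulChar.map_zero _),
          zero_add] at h4
        rw [h4, hQ, mul_ite, mul_one, mul_zero]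
      rw [h2, type_iff hm hh, Fintype.sum_bool]
      have h5 : ∀ c : Bool, (if (eB c e).card = h ∧ ∀ i, p i ∈ eB c e ↔ i ∈ eB c e then
        kap (!c) (∑ i, ν i + ∑ i ∈ eB c e, ν i) * ((Q : ℂ) - 1) * ((Q : ℂ) ^ (h + 1) *
          (if c then (starRingEnd ℂ) (toC (Jc hz h3)) else toC (Jc hz h3))) else 0) =
          (∏ i, kap (e i) (ν i)) * (∏ i, gaussSum (Y hz h3 (e i)) ψ) * (((Q : ℂ) - 1) *
            if (eB c e).card = h then 1 else 0) := by
        intro c
        by_cases h6 : (eB c e).card = h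
        · rw [if_pos ⟨h6, (eB_inv c p e).1 he⟩, if_pos h6, gauss_type hz h3 hm hψ e c h6,
            eB_kap c ν e, hQ]
          ring
        · rw [if_neg (fun h7 => h6 h7.1), if_neg h6, mul_zero, mul_zero]
      rw [h5, h5]
      ring
    · rw [Finset.sum_eq_zero (fun t _ => if_neg he), Finset.sum_eq_zero]
      intro c _
      rw [if_neg]
      intro h4
      exact he ((eB_inv c p e).2 h4.2)
  rw [Finset.sum_congr rfl fun e _ => hsum e, Finset.sum_comm, Fintype.sum_bool]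
  have hfinal : ∀ c : Bool, ∑ e : Fin m → Bool,
      (if (eB c e).card = h ∧ ∀ i, p i ∈ eB c e ↔ i ∈ eB c e then
        kap (!c) (∑ i, ν i + ∑ i ∈ eB c e, ν i) * ((Q : ℂ) - 1) * ((Q : ℂ) ^ (h + 1) *
          (if c then (starRingEnd ℂ) (toC (Jc hz h3)) else toC (Jc hz h3))) else 0) =
      ((Q : ℂ) - 1) * ((Q : ℂ) ^ (h + 1) *
          (if c then (starRingEnd ℂ) (toC (Jc hz h3)) else toC (Jc hz h3))) *
        ∑ S : Finset (Fin m), if S.card = h ∧ ∀ i, p i ∈ S ↔ i ∈ S then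
          kap (!c) (∑ i, ν i + ∑ i ∈ S, ν i) else 0 := by
    intro c
    rw [Finset.mul_sum, ← Equiv.sum_comp (eB c)]
    refine Finset.sum_congr rfl fun e _ => ?_
    by_cases h6 : (eB c e).card = h ∧ ∀ i, p i ∈ eB c e ↔ i ∈ eB c e
    · rw [if_pos h6, if_pos h6]
      ring
    · rw [if_neg h6, if_neg h6, mul_zero]
  rw [hfinal, hfinal]
  unfold tk
  rw [if_pos rfl, if_neg (by simp), Bool.not_true, Bool.not_false]
  ring

/-- **The number of the zeros, if the field contains the cube roots of unity.** -/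
theorem zeros_one {h : ℕ} (hm : m = 2 * h + 3) (hh : h ≤ 2) {Q : ℕ} (hQ : Fintype.card k = Q)
    (hcard : Nat.card (VV Q (algebraMap k Ω z) p (fun _ => 1) ν) = Q ^ m) :
    (Nat.card {y : VV Q (algebraMap k Ω z) p (fun _ => 1) ν // ∑ i, y.1 i ^ 3 = 0} : ℂ) =
      (Q : ℂ) ^ (m - 1) + ((Q : ℂ) - 1) * (Q : ℂ) ^ h * (toC (Jc hz h3) * tk h true p ν +
        (starRingEnd ℂ) (toC (Jc hz h3)) * tk h false p ν) := by
  have hψ := AddChar.FiniteField.primitiveChar_to_Complex_isPrimitive k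
  obtain ⟨pr, hpr⟩ := exists_pr (k := k) (Ω := Ω)
  have hQ1 : 1 < Q := by rw [← hQ]; exact Fintype.one_lt_card
  have hzz : algebraMap k Ω z * algebraMap k Ω z = -1 - algebraMap k Ω z := z_map hz
  obtain ⟨h1, h2⟩ := ph_total (Ω := Ω) (p := p) (ν := ν) hz h3 hm hh hQ hψ hpr
  have h4 := zeros_sum hQ (z_cube hzz) h1 hcard hψ hpr
  rw [h2] at h4
  have hQ0 : (Q : ℂ) ≠ 0 := by
    have : Q ≠ 0 := by omega
    exact_mod_cast this
  apply mul_left_cancel₀ hQ0
  rw [h4]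
  obtain ⟨m', rfl⟩ : ∃ m', m = m' + 1 := ⟨m - 1, by omega⟩
  rw [Nat.add_sub_cancel, pow_succ, pow_succ]
  ring

end

end Pool.Agent.H508.Q
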