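import Pool.Agent.H508.Q.A6

/-!
# The points of a form of the Fermat cubic over a finite field
-/

set_option autoImplicit false
set_option linter.unusedSectionVars false

open NumberField IsDedekindDomain

namespace Pool.Agent.H508.Q

open scoped Classical Matrix

section
variable {k : Type} [Field k] [Fintype k] {Ω : Type} [Field Ω] [Algebra k Ω] [IsAlgClosed Ω]
  {Q : ℕ} {ζ : Ω} {m : ℕ} {p : Equiv.Perm (Fin m)} {ν : Fin m → ℕ}

/-- the space of the rational points -/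
theorem space_equiv (hQ : Fintype.card k = Q) (hζ : ζ ^ 3 = 1) {L : Matrix (Fin m) (Fin m) Ω}
    (hL : ∀ i j, L i j ^ Q = ζ ^ ν i * L (p i) j) (hdet : L.det ≠ 0) :
    ∃ Θ : (Fin m → k) ≃ VV Q ζ p (fun _ => 1) ν,
      ∀ x, (Θ x).1 = L *ᵥ (fun j => algebraMap k Ω (x j)) := by
  have hu : IsUnit L.det := isUnit_iff_ne_zero.2 hdet
  have hζ0 : ζ ≠ 0 := by
    rintro rfl
    rw [zero_pow (three_ne_zero)] at hζ
    exact zero_ne_one hζ
  have hk : ∀ x : k, (algebraMap k Ω x) ^ Q = algebraMap k Ω x := fun x => by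
    rw [← map_pow, ← hQ, FiniteField.pow_card]
  have hpow : ∀ (y : Fin m → Ω) (i : Fin m), (L *ᵥ y) i ^ Q =
      ζ ^ ν i * (L *ᵥ (fun j => y j ^ Q)) (p i) := by
    intro y i
    unfold Matrix.mulVec dotProduct
    rw [sum_pow_Q hQ, Finset.mul_sum]
    refine Finset.sum_congr rfl fun j _ => ?_
    rw [mul_pow, hL]
    ring
  have hmem : ∀ x : Fin m → k, ∀ i, (L *ᵥ (fun j => algebraMap k Ω (x j))) i ^ (Q ^ 1) =
      ζ ^ ν i * (L *ᵥ (fun j => algebraMap k Ω (x j))) (p i) := by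
    intro x i
    rw [pow_one, hpow]
    congr 2
    funext j
    rw [hk]
  let Θ : (Fin m → k) → VV Q ζ p (fun _ => 1) ν := fun x =>
    ⟨L *ᵥ (fun j => algebraMap k Ω (x j)), hmem x⟩
  have hinj : Function.Injective Θ := by
    intro x x' h
    have h1 := congrArg (fun u => L⁻¹ *ᵥ u.1) h
    have h2 : L⁻¹ *ᵥ (L *ᵥ (fun j => algebraMap k Ω (x j))) =
      L⁻¹ *ᵥ (L *ᵥ (fun j => algebraMap k Ω (x' j))) := h1
    rw [Matrix.mulVec_mulVec, Matrix.mulVec_mulVec, Matrix.nonsing_inv_mul _ hu,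
      Matrix.one_mulVec, Matrix.one_mulVec] at h2
    funext j
    exact (algebraMap k Ω).injective (congrFun h2 j)
  have hsur : Function.Surjective Θ := by
    intro y
    set x' : Fin m → Ω := L⁻¹ *ᵥ y.1 with hx'
    have h1 : L *ᵥ x' = y.1 := by
      rw [hx', Matrix.mulVec_mulVec, Matrix.mul_nonsing_inv _ hu, Matrix.one_mulVec]
    have h2 : L *ᵥ (fun j => x' j ^ Q) = L *ᵥ x' := by
      funext i
      have h3 := hpow x' (p.symm i)
      have h4 := y.2 (p.symm i)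
      rw [pow_one, Equiv.apply_symm_apply] at h4
      rw [h1, h4, Equiv.apply_symm_apply] at h3
      rw [h1]
      exact (mul_left_cancel₀ (pow_ne_zero _ hζ0) h3).symm
    have h3 : (fun j => x' j ^ Q) = x' := by
      have h4 := congrArg (fun u => L⁻¹ *ᵥ u) h2
      simp only [Matrix.mulVec_mulVec, Matrix.nonsing_inv_mul _ hu, Matrix.one_mulVec] at h4
      exact h4
    choose x hx using fun j => mem_base hQ (congrFun h3 j)
    refine ⟨x, Subtype.ext ?_⟩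
    show L *ᵥ (fun j => algebraMap k Ω (x j)) = y.1
    rw [← h1]
    congr 1
    funext j
    exact hx j
  exact ⟨Equiv.ofBijective Θ ⟨hinj, hsur⟩, fun x => rfl⟩

/-- the numbers -/
theorem count_equiv (hQ : Fintype.card k = Q) (hζ : ζ ^ 3 = 1) {L : Matrix (Fin m) (Fin m) Ω}
    (hL : ∀ i j, L i j ^ Q = ζ ^ ν i * L (p i) j) (hdet : L.det ≠ 0) :
    Nat.card (VV Q ζ p (fun _ => 1) ν) = Q ^ m ∧
    Nat.card {x : Fin m → k // ∑ i, (L *ᵥ (fun j => algebraMap k Ω (x j))) i ^ 3 = 0} =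
      Nat.card {y : VV Q ζ p (fun _ => 1) ν // ∑ i, y.1 i ^ 3 = 0} := by
  obtain ⟨Θ, hΘ⟩ := space_equiv hQ hζ hL hdet
  constructor
  · rw [← Nat.card_congr Θ, Nat.card_eq_fintype_card, Fintype.card_fun, hQ, Fintype.card_fin]
  · refine Nat.card_congr (Equiv.subtypeEquiv Θ fun x => ?_)
    rw [hΘ]

end

section ext
variable {K F : Type} [Field K] [NumberField K] [Field F] [NumberField F] [Algebra K F]
variable {k : Type} [Field k] {Ω : Type} [Field Ω] [Algebra k Ω] [IsAlgClosed Ω]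

/-- the extension of a homomorphism -/
theorem exists_lam (v : HeightOneSpectrum (𝓞 K)) (w : HeightOneSpectrum (𝓞 F))
    (hw : w.asIdeal.comap (algebraMap (𝓞 K) (𝓞 F)) = v.asIdeal) (f₀ : 𝓞 K →+* k)
    (hf : ∀ x, f₀ x = 0 ↔ x ∈ v.asIdeal) :
    ∃ lam : 𝓞 F →+* Ω, (∀ x : 𝓞 K, lam (algebraMap (𝓞 K) (𝓞 F) x) = algebraMap k Ω (f₀ x)) ∧
      ∀ y, lam y = 0 ↔ y ∈ w.asIdeal := by
  have _ := v.isMaximal
  have _ := w.isMaximal
  let _ : Algebra (𝓞 K ⧸ v.asIdeal) (𝓞 F ⧸ w.asIdeal) :=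
    Ideal.Quotient.algebraQuotientOfLEComap hw.ge
  let g : (𝓞 K ⧸ v.asIdeal) →+* k := Ideal.Quotient.lift v.asIdeal f₀ fun a ha => (hf a).2 ha
  let _ : Algebra (𝓞 K ⧸ v.asIdeal) Ω := ((algebraMap k Ω).comp g).toAlgebra
  let _ : Field (𝓞 K ⧸ v.asIdeal) := Ideal.Quotient.field _
  let _ : Field (𝓞 F ⧸ w.asIdeal) := Ideal.Quotient.field _
  have hint : Algebra.IsIntegral (𝓞 K ⧸ v.asIdeal) (𝓞 F ⧸ w.asIdeal) := by
    constructor
    intro x
    obtain ⟨y, rfl⟩ := Ideal.Quotient.mk_surjective x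
    obtain ⟨P, hP, hP0⟩ := Algebra.IsIntegral.isIntegral (R := 𝓞 K) y
    refine ⟨P.map (Ideal.Quotient.mk v.asIdeal), hP.map _, ?_⟩
    rw [Polynomial.eval₂_map]
    have h1 : (algebraMap (𝓞 K ⧸ v.asIdeal) (𝓞 F ⧸ w.asIdeal)).comp
        (Ideal.Quotient.mk v.asIdeal) =
        (Ideal.Quotient.mk w.asIdeal).comp (algebraMap (𝓞 K) (𝓞 F)) := by
      apply RingHom.ext
      intro t
      rfl
    rw [h1, ← Polynomial.hom_eval₂, hP0, map_zero]
  have halg : Algebra.IsAlgebraic (𝓞 K ⧸ v.asIdeal) (𝓞 F ⧸ w.asIdeal) := hint.isAlgebraic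
  let μ : (𝓞 F ⧸ w.asIdeal) →ₐ[𝓞 K ⧸ v.asIdeal] Ω := IsAlgClosed.lift
  refine ⟨μ.toRingHom.comp (Ideal.Quotient.mk w.asIdeal), fun x => ?_, fun y => ?_⟩
  · show μ (Ideal.Quotient.mk w.asIdeal (algebraMap (𝓞 K) (𝓞 F) x)) = _
    have h1 : Ideal.Quotient.mk w.asIdeal (algebraMap (𝓞 K) (𝓞 F) x) =
      algebraMap (𝓞 K ⧸ v.asIdeal) (𝓞 F ⧸ w.asIdeal) (Ideal.Quotient.mk v.asIdeal x) := rfl
    rw [h1, μ.commutes]
    rfl
  · show μ (Ideal.Quotient.mk w.asIdeal y) = 0 ↔ _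
    rw [map_eq_zero, Ideal.Quotient.eq_zero_iff_mem]

end ext

end Pool.Agent.H508.Q
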