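import Pool.Agent.H508.Q.A7

/-!
# The automorphisms of the Fermat cubic
-/

set_option autoImplicit false
set_option linter.unusedSectionVars false

open NumberField IsDedekindDomain

namespace Pool.Agent.H508.Q

open Pool.Agent.Y692.QS hiding chi Jc
open Pool.Agent.Y715.T.Cub
open scoped Classical Matrix

section mono
variable {F : Type} [Field F] [CharZero F] {z : F} (hz : z * z = -1 - z) {m : ℕ}

/-- the polarisation -/
lemma polar (a b c : Fin m → F) : 6 * ∑ i, a i * b i * c i =
    ∑ i, (a i + b i + c i) ^ 3 - ∑ i, (a i + b i) ^ 3 - ∑ i, (b i + c i) ^ 3 -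
      ∑ i, (a i + c i) ^ 3 + ∑ i, a i ^ 3 + ∑ i, b i ^ 3 + ∑ i, c i ^ 3 := by
  rw [Finset.mul_sum, ← Finset.sum_sub_distrib, ← Finset.sum_sub_distrib,
    ← Finset.sum_sub_distrib, ← Finset.sum_add_distrib, ← Finset.sum_add_distrib,
    ← Finset.sum_add_distrib]
  exact Finset.sum_congr rfl fun i _ => by ring

lemma trilin {N : Matrix (Fin m) (Fin m) F}
    (h : ∀ y : Fin m → F, ∑ i, (N *ᵥ y) i ^ 3 = ∑ i, y i ^ 3) (a b c : Fin m → F) :
    ∑ i, (N *ᵥ a) i * (N *ᵥ b) i * (N *ᵥ c) i = ∑ i, a i * b i * c i := by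
  have h1 := polar (N *ᵥ a) (N *ᵥ b) (N *ᵥ c)
  have h2 := polar a b c
  have e1 := h (a + b + c)
  have e2 := h (a + b)
  have e3 := h (b + c)
  have e4 := h (a + c)
  simp only [Matrix.mulVec_add, Pi.add_apply] at e1 e2 e3 e4
  rw [e1, e2, e3, e4, h, h, h, ← h2] at h1
  exact mul_left_cancel₀ (by norm_num) h1

include hz in
/-- **The automorphisms are monomial.** -/
theorem monomial {A B : Matrix (Fin m) (Fin m) F} (hA : A.det ≠ 0) (hB : B.det ≠ 0)
    (h : ∀ x : Fin m → F, ∑ i, (A *ᵥ x) i ^ 3 = ∑ i, (B *ᵥ x) i ^ 3) :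
    ∃ (p : Equiv.Perm (Fin m)) (ν : Fin m → ℕ), ∀ i j, A i j = z ^ ν i * B (p i) j := by
  have hBu : IsUnit B.det := isUnit_iff_ne_zero.2 hB
  set N : Matrix (Fin m) (Fin m) F := A * B⁻¹ with hN
  have hNB : N * B = A := by
    rw [hN, Matrix.mul_assoc, Matrix.nonsing_inv_mul _ hBu, Matrix.mul_one]
  have hNd : N.det ≠ 0 := by
    intro h0
    apply hA
    rw [← hNB, Matrix.det_mul, h0, zero_mul]
  have h' : ∀ y : Fin m → F, ∑ i, (N *ᵥ y) i ^ 3 = ∑ i, y i ^ 3 := by
    intro y
    have h1 := h (B⁻¹ *ᵥ y)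
    rw [Matrix.mulVec_mulVec, Matrix.mulVec_mulVec, Matrix.mul_nonsing_inv _ hBu,
      Matrix.one_mulVec] at h1
    exact h1
  have hT : ∀ a b c : Fin m, ∑ i, N i a * N i b * N i c =
      ∑ i, (Pi.single a (1 : F) : Fin m → F) i * (Pi.single b (1 : F) : Fin m → F) i *
        (Pi.single c (1 : F) : Fin m → F) i := by
    intro a b c
    have h1 := trilin h' (Pi.single a 1) (Pi.single b 1) (Pi.single c 1)
    simp only [Matrix.mulVec_single_one, Matrix.col_apply] at h1
    exact h1
  have h0 : ∀ a b : Fin m, a ≠ b → ∀ i, N i a * N i b = 0 := by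
    intro a b hab
    have h1 : (fun i => N i a * N i b) ᵥ* N = 0 := by
      funext c
      show ∑ i, N i a * N i b * N i c = 0
      rw [hT]
      refine Finset.sum_eq_zero fun i _ => ?_
      by_cases hi : i = a
      · rw [hi, Pi.single_eq_of_ne hab, mul_zero, zero_mul]
      · rw [Pi.single_eq_of_ne hi, zero_mul, zero_mul]
    have h2 := Matrix.eq_zero_of_vecMul_eq_zero hNd h1
    exact fun i => congrFun h2 i
  have h1 : ∀ a : Fin m, ∑ i, N i a ^ 3 = 1 := by
    intro a
    have h3 : ∑ i, (Pi.single a (1 : F) : Fin m → F) i * (Pi.single a (1 : F) : Fin m → F) i *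
        (Pi.single a (1 : F) : Fin m → F) i = 1 := by
      rw [Finset.sum_eq_single a]
      · rw [Pi.single_eq_same, mul_one, mul_one]
      · intro i _ hi
        rw [Pi.single_eq_of_ne hi, zero_mul, zero_mul]
      · intro h3
        exact absurd (Finset.mem_univ a) h3
    rw [← h3, ← hT]
    exact Finset.sum_congr rfl fun i _ => by ring
  have hrow : ∀ i, ∃ a, N i a ≠ 0 := by
    intro i
    by_contra hcon
    push Not at hcon
    exact hNd (Matrix.det_eq_zero_of_row_eq_zero i hcon)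
  choose p0 hp0 using hrow
  have hz1 : ∀ i b, b ≠ p0 i → N i b = 0 := fun i b hb =>
    (mul_eq_zero.1 (h0 (p0 i) b (Ne.symm hb) i)).resolve_left (hp0 i)
  have hsur : Function.Surjective p0 := by
    intro a
    by_contra hcon
    push Not at hcon
    have h2 := h1 a
    rw [Finset.sum_eq_zero fun i _ => by
      rw [hz1 i a (Ne.symm (hcon i)), zero_pow three_ne_zero]] at h2
    exact zero_ne_one h2
  have hbij : Function.Bijective p0 := Finite.surjective_iff_bijective.1 hsur
  have hcube : ∀ i, N i (p0 i) ^ 3 = 1 := by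
    intro i
    have h2 := h1 (p0 i)
    rw [Finset.sum_eq_single i] at h2
    · exact h2
    · intro i' _ hi'
      rw [hz1 i' (p0 i) (fun h3 => hi' (hbij.1 h3).symm), zero_pow three_ne_zero]
    · intro h3
      exact absurd (Finset.mem_univ i) h3
  have hν : ∀ i, ∃ n : ℕ, N i (p0 i) = z ^ n := by
    intro i
    rcases root_cases hz (hcube i) with h5 | h5 | h5
    · exact ⟨0, by rw [pow_zero]; exact h5⟩
    · exact ⟨1, by rw [pow_one]; exact h5⟩
    · exact ⟨2, h5⟩
  choose ν hν using hν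
  refine ⟨Equiv.ofBijective p0 hbij, ν, fun i j => ?_⟩
  rw [← hNB, Matrix.mul_apply, Finset.sum_eq_single (p0 i)]
  · rw [hν]
    rfl
  · intro b _ hb
    rw [hz1 i b hb, zero_mul]
  · intro h3
    exact absurd (Finset.mem_univ _) h3

end mono

section row
variable {F : Type} [Field F] {m : ℕ}

/-- the rows are not proportional -/
lemma rows {B : Matrix (Fin m) (Fin m) F} (hB : B.det ≠ 0) {a b : Fin m} {s t : F}
    (hs : s ≠ 0) (h : ∀ j, s * B a j = t * B b j) : a = b ∧ s = t := by
  have hv : (Pi.single a s - Pi.single b t) ᵥ* B = 0 := by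
    funext j
    rw [Matrix.sub_vecMul, Pi.sub_apply, Matrix.single_vecMul, Matrix.single_vecMul,
      Pi.smul_apply, Pi.smul_apply, smul_eq_mul, smul_eq_mul]
    exact sub_eq_zero.2 (h j)
  have h1 := Matrix.eq_zero_of_vecMul_eq_zero hB hv
  have hab : a = b := by
    by_contra hab
    have h2 := congrFun h1 a
    rw [Pi.sub_apply, Pi.single_eq_same, Pi.single_eq_of_ne hab, sub_zero] at h2
    exact hs h2
  refine ⟨hab, ?_⟩
  have h2 := congrFun h1 a
  rw [Pi.sub_apply, Pi.single_eq_same, ← hab, Pi.single_eq_same] at h2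
  exact sub_eq_zero.1 h2

end row


end Pool.Agent.H508.Q
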