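import Pool.Agent.H508.Q.A8
import Pool.Graph.R_pool_sql_team_seeded_35f281b4.K7.H65.FP.B

/-!
# The operators of a monomial cocycle
-/

set_option autoImplicit false
set_option linter.unusedSectionVars false

namespace Pool.Agent.H508.Q

open Pool.Agent.Y692.QS (w w_cube toC)
open Pool.Agent.K7.H65.FP (Semi)
open scoped Classical

section
variable {m h : ℕ}

/-- the subsets with `h` elements -/
abbrev HS (m h : ℕ) : Type := {S : Finset (Fin m) // S.card = h}

/-- the image of a subset -/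
def act (p : Equiv.Perm (Fin m)) (S : HS m h) : HS m h :=
  ⟨S.1.map p.toEmbedding, by rw [Finset.card_map]; exact S.2⟩

lemma act_one (S : HS m h) : act 1 S = S := by
  apply Subtype.ext
  show S.1.map (Equiv.toEmbedding (Equiv.refl (Fin m))) = S.1
  rw [Equiv.refl_toEmbedding, Finset.map_refl]

lemma act_mul (p q : Equiv.Perm (Fin m)) (S : HS m h) : act (p * q) S = act p (act q S) := by
  apply Subtype.ext
  show S.1.map _ = (S.1.map _).map _
  rw [Finset.map_map]
  rfl

lemma act_fix (p : Equiv.Perm (Fin m)) (S : HS m h) :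
    act p S = S ↔ ∀ i, p i ∈ S.1 ↔ i ∈ S.1 := by
  have h1 : ∀ i, p i ∈ (act p S).1 ↔ i ∈ S.1 := by
    intro i
    unfold act
    rw [Finset.mem_map]
    constructor
    · rintro ⟨j, hj, hji⟩
      have : j = i := p.injective hji
      rwa [← this]
    · intro hi
      exact ⟨i, hi, rfl⟩
  constructor
  · intro h2 i
    rw [← h1 i, h2]
  · intro h2
    apply Subtype.ext
    ext i
    have h3 := h1 (p.symm i)
    have h4 := h2 (p.symm i)
    rw [Equiv.apply_symm_apply] at h3 h4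
    rw [h3, h4]

/-- the weight of a subset -/
noncomputable def KP (c : Bool) (ν : Fin m → ℕ) (S : Finset (Fin m)) : ℂ :=
  kap c (∑ i, ν i + ∑ i ∈ S, ν i)

/-- the operator -/
noncomputable def op (c : Bool) (p : Equiv.Perm (Fin m)) (ν : Fin m → ℕ) :
    Module.End ℂ (HS m h → ℂ) where
  toFun u := fun S => ((Equiv.Perm.sign p : ℤ) : ℂ) * KP c ν S.1 * u (act p S)
  map_add' u u' := by
    funext S
    simp only [Pi.add_apply]
    ring
  map_smul' r u := by
    funext S
    simp only [Pi.smul_apply, smul_eq_mul, RingHom.id_apply]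
    ring

lemma op_apply (c : Bool) (p : Equiv.Perm (Fin m)) (ν : Fin m → ℕ) (u : HS m h → ℂ)
    (S : HS m h) : op c p ν u S = ((Equiv.Perm.sign p : ℤ) : ℂ) * KP c ν S.1 * u (act p S) := rfl

/-- the trace of the operator -/
theorem op_trace (c : Bool) (p : Equiv.Perm (Fin m)) (ν : Fin m → ℕ) :
    LinearMap.trace ℂ (HS m h → ℂ) (op c p ν) = tk h c p ν := by
  rw [LinearMap.trace_eq_matrix_trace ℂ (Pi.basisFun ℂ (HS m h))]
  unfold Matrix.trace tk
  have h1 : ∀ S : HS m h, (LinearMap.toMatrix (Pi.basisFun ℂ (HS m h)) (Pi.basisFun ℂ (HS m h))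
      (op c p ν)).diag S = ((Equiv.Perm.sign p : ℤ) : ℂ) *
        (fun S : Finset (Fin m) => if S.card = h ∧ ∀ i, p i ∈ S ↔ i ∈ S then
          kap c (∑ i, ν i + ∑ i ∈ S, ν i) else 0) S.1 := by
    intro S
    rw [Matrix.diag_apply, LinearMap.toMatrix_apply, Pi.basisFun_repr, Pi.basisFun_apply,
      op_apply]
    by_cases h2 : act p S = S
    · rw [h2, Pi.single_eq_same, mul_one]
      simp only [S.2, true_and, if_pos ((act_fix p S).1 h2)]
      rfl
    · rw [Pi.single_eq_of_ne h2, mul_zero]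
      simp only [S.2, true_and, if_neg (fun h3 => h2 ((act_fix p S).2 h3)), mul_zero]
  rw [Finset.sum_congr rfl fun S _ => h1 S, ← Finset.mul_sum]
  congr 1
  rw [← Finset.sum_subtype (Finset.univ.filter fun S : Finset (Fin m) => S.card = h)
    (fun S => by simp) (fun S : Finset (Fin m) => if S.card = h ∧ ∀ i, p i ∈ S ↔ i ∈ S then
          kap c (∑ i, ν i + ∑ i ∈ S, ν i) else 0), Finset.sum_filter]
  refine Finset.sum_congr rfl fun S _ => ?_
  by_cases h2 : S.card = h
  · rw [if_pos h2]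
  · rw [if_neg h2, if_neg (fun h3 => h2 h3.1)]

lemma kap_mod (c : Bool) {n n' : ℕ} (hn : n % 3 = n' % 3) : kap c n = kap c n' := by
  have h1 : ∀ n, kap c n = kap c (n % 3) := by
    intro n
    conv_lhs => rw [← Nat.div_add_mod n 3]
    rw [kap_add]
    have h5 : ∀ n, kap c (3 * n) = 1 := by
      intro n
      unfold kap
      cases c
      · rw [if_neg (by simp), pow_mul, w_cube, one_pow, map_one]
      · rw [if_pos rfl, show 2 * (3 * n) = 3 * (2 * n) by ring, pow_mul, w_cube, one_pow,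
          map_one]
    rw [h5, one_mul]
  rw [h1, hn, ← h1]

lemma KP_eq (c : Bool) (ν : Fin m → ℕ) (S : Finset (Fin m)) :
    KP c ν S = (∏ i, kap c (ν i)) * ∏ i ∈ S, kap c (ν i) := by
  unfold KP
  rw [kap_add, kap_sum, kap_sum]

variable {G : Type} [Group G]

/-- the monomial cocycles -/
structure Mon (fx : G → Prop) (p : G → Equiv.Perm (Fin m)) (ν : G → Fin m → ℕ) : Prop where
  h1 : fx 1
  hm : ∀ σ τ, fx (σ * τ) ↔ (fx σ ↔ fx τ)
  p1 : p 1 = 1
  pm : ∀ σ τ, p (σ * τ) = p σ * p τ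
  n1 : ∀ i, ν 1 i % 3 = 0
  nm : ∀ σ τ i, ν (σ * τ) i % 3 = ((if fx σ then ν τ i else 2 * ν τ i) + ν σ (p τ i)) % 3

variable {fx : G → Prop} {p : G → Equiv.Perm (Fin m)} {ν : G → Fin m → ℕ}

lemma Mon.kap_mul (M : Mon fx p ν) (c : Bool) (σ τ : G) (i : Fin m) : kap c (ν (σ * τ) i) =
    kap (if fx σ then c else !c) (ν τ i) * kap c (ν σ (p τ i)) := by
  rw [kap_mod c (M.nm σ τ i), kap_add]
  congr 1
  by_cases h1 : fx σ
  · rw [if_pos h1, if_pos h1]
  · rw [if_neg h1, if_neg h1, kap_not c (2 * ν τ i), kap_mod (!c) (n := 2 * (2 * ν τ i))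
      (n' := ν τ i) (by omega)]

lemma Mon.KP_mul (M : Mon fx p ν) (c : Bool) (σ τ : G) (S : HS m h) :
    KP c (ν (σ * τ)) S.1 = KP (if fx σ then c else !c) (ν τ) S.1 *
      KP c (ν σ) (act (p τ) S).1 := by
  rw [KP_eq, KP_eq, KP_eq]
  simp only [M.kap_mul c σ τ]
  rw [Finset.prod_mul_distrib, Finset.prod_mul_distrib]
  have h1 : ∏ i, kap c (ν σ (p τ i)) = ∏ i, kap c (ν σ i) :=
    Equiv.prod_comp (p τ) fun i => kap c (ν σ i)
  have h2 : ∏ i ∈ (act (p τ) S).1, kap c (ν σ i) = ∏ i ∈ S.1, kap c (ν σ (p τ i)) := by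
    unfold act
    rw [Finset.prod_map]
    rfl
  rw [h1, h2]
  ring

lemma Mon.op_mul (M : Mon fx p ν) (c : Bool) (σ τ : G) :
    (op c (p (σ * τ)) (ν (σ * τ)) : Module.End ℂ (HS m h → ℂ)) =
      op (if fx σ then c else !c) (p τ) (ν τ) * op c (p σ) (ν σ) := by
  apply LinearMap.ext
  intro u
  funext S
  rw [Module.End.mul_apply, op_apply, op_apply, op_apply, M.KP_mul, M.pm, act_mul,
    Equiv.Perm.sign_mul]
  push_cast
  ring

lemma op_one (c : Bool) {p : Equiv.Perm (Fin m)} (hp : p = 1) {ν : Fin m → ℕ}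
    (hν : ∀ i, ν i % 3 = 0) : (op c p ν : Module.End ℂ (HS m h → ℂ)) = 1 := by
  apply LinearMap.ext
  intro u
  funext S
  have h1 : ∀ i, kap c (ν i) = 1 := fun i => by
    rw [kap_mod c (n := ν i) (n' := 0) (hν i), kap_zero]
  rw [op_apply, hp, act_one, KP_eq, Finset.prod_congr rfl fun i _ => h1 i,
    Finset.prod_congr rfl fun i _ => h1 i, Finset.prod_const_one, Finset.prod_const_one,
    map_one]
  simp

/-- **The operators.** -/
theorem Mon.semi (M : Mon fx p ν) : Semi fx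
    (fun σ => (op true (p σ) (ν σ) : Module.End ℂ (HS m h → ℂ)))
    (fun σ => (op false (p σ) (ν σ) : Module.End ℂ (HS m h → ℂ))) where
  h1 := M.h1
  hm := M.hm
  a1 := op_one true M.p1 M.n1
  b1 := op_one false M.p1 M.n1
  am σ τ := by
    rw [M.op_mul]
    by_cases h1 : fx σ
    · rw [if_pos h1, if_pos h1]
    · rw [if_neg h1, if_neg h1, Bool.not_true]
  bm σ τ := by
    rw [M.op_mul]
    by_cases h1 : fx σ
    · rw [if_pos h1, if_pos h1]
    · rw [if_neg h1, if_neg h1, Bool.not_false]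

end

end Pool.Agent.H508.Q
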